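import Mathlib
import Pool.Agent.Helper76.Hardy

set_option autoImplicit false
open Complex Filter Topology Metric MeasureTheory Set
open scoped Real

namespace Pool.Agent.Helper742.Bd
open Pool.Agent.Helper76.Hardy

lemma sph_sub {ρ : ℝ} (h0 : 0 < ρ) (h1 : ρ < 1) : closedBall (0 : ℂ) |ρ| ⊆ ball 0 1 := by
  rw [abs_of_pos h0]
  exact closedBall_subset_ball h1

lemma ne_zero_cod {g : ℂ → ℂ} (hg : DifferentiableOn ℂ g (ball 0 1)) (h0 : g 0 ≠ 0) {ρ : ℝ}
    (hρ : 0 < ρ) (hρ1 : ρ < 1) : ∀ᶠ z in codiscreteWithin (sphere (0 : ℂ) |ρ|), g z ≠ 0 := by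
  have ha : AnalyticOnNhd ℂ g (ball 0 1) := hg.analyticOnNhd isOpen_ball
  have hsub : sphere (0 : ℂ) |ρ| ⊆ ball 0 1 := sphere_subset_closedBall.trans (sph_sub hρ hρ1)
  rcases ha.eqOn_zero_or_eventually_ne_zero_of_preconnected
    (convex_ball (0 : ℂ) 1).isPreconnected with h | h
  · exact absurd (h (by simp)) h0
  · exact Filter.codiscreteWithin_mono hsub h

lemma log_int {g : ℂ → ℂ} (hg : DifferentiableOn ℂ g (ball 0 1)) {ρ : ℝ}
    (hρ : 0 < ρ) (hρ1 : ρ < 1) : CircleIntegrable (fun z => Real.log ‖g z‖) 0 ρ := by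
  have ha : AnalyticOnNhd ℂ g (ball 0 1) := hg.analyticOnNhd isOpen_ball
  have hsub : sphere (0 : ℂ) |ρ| ⊆ ball 0 1 := sphere_subset_closedBall.trans (sph_sub hρ hρ1)
  exact (ha.mono hsub).meromorphicOn.circleIntegrable_log_norm

lemma jensen_ge {H : ℂ → ℂ} (hH : DifferentiableOn ℂ H (ball 0 1)) (h0 : H 0 ≠ 0) {ρ : ℝ}
    (hρ : 0 < ρ) (hρ1 : ρ < 1) :
    Real.log ‖H 0‖ ≤ Real.circleAverage (fun z => Real.log ‖H z‖) 0 ρ := by
  have ha : AnalyticOnNhd ℂ H (closedBall 0 |ρ|) :=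
    (hH.analyticOnNhd isOpen_ball).mono (sph_sub hρ hρ1)
  rw [ha.circleAverage_log_norm hρ.ne' h0]
  have : 0 ≤ ∑ᶠ u, MeromorphicOn.divisor H (closedBall (0 : ℂ) |ρ|) u * Real.log (ρ * ‖0 - u‖⁻¹) := by
    apply finsum_nonneg
    intro u
    by_cases hu : u ∈ closedBall (0 : ℂ) |ρ|
    · apply mul_nonneg
      · exact_mod_cast MeromorphicOn.AnalyticOnNhd.divisor_nonneg ha u
      · by_cases hu0 : u = 0
        · simp [hu0]
        · apply Real.log_nonneg
          rw [zero_sub, norm_neg, ← div_eq_mul_inv, one_le_div (norm_pos_iff.2 hu0)]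
          simpa [abs_of_pos hρ] using hu
    · simp [hu]
  linarith

lemma avg_mono_cod {f g : ℂ → ℝ} {R : ℝ} (hR : R ≠ 0) (hf : CircleIntegrable f 0 R)
    (hg : CircleIntegrable g 0 R) (h : ∀ᶠ z in codiscreteWithin (sphere (0 : ℂ) |R|), f z ≤ g z) :
    Real.circleAverage f 0 R ≤ Real.circleAverage g 0 R := by
  have e : f =ᶠ[codiscreteWithin (sphere (0 : ℂ) |R|)] (fun z => min (f z) (g z)) := by
    filter_upwards [h] with z hz
    rw [min_eq_left hz]
  rw [Real.circleAverage_congr_codiscreteWithin e hR]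
  apply Real.circleAverage_mono _ hg (fun z _ => min_le_right _ _)
  exact (circleIntegrable_congr_codiscreteWithin e).1 hf

/-- the basic Jensen estimate -/
lemma jensen_main {a : HH} (ha0 : ev a 0 = 0) {V H : ℂ → ℂ}
    (hV : DifferentiableOn ℂ V (ball 0 1)) (hH : DifferentiableOn ℂ H (ball 0 1))
    (he : ∀ z ∈ ball (0 : ℂ) 1, 1 - ev a z = V z * H z)
    (hf : DifferentiableOn ℂ (ev a) (ball 0 1)) {ρ : ℝ}
    (hρ : 0 < ρ) (hρ1 : ρ < 1) :
    Real.circleAverage (fun z => Real.log ‖V z‖) 0 ρ ≤ Real.log ‖V 0‖ + ‖a‖ ^ 2 / 2 := by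
  have h00 : V 0 * H 0 = 1 := by rw [← he 0 (by simp), ha0, sub_zero]
  have hV0 : V 0 ≠ 0 := left_ne_zero_of_mul_eq_one h00
  have hH0 : H 0 ≠ 0 := right_ne_zero_of_mul_eq_one h00
  have hsub : sphere (0 : ℂ) |ρ| ⊆ ball 0 1 := sphere_subset_closedBall.trans (sph_sub hρ hρ1)
  have hlog : Real.log ‖V 0‖ + Real.log ‖H 0‖ = 0 := by
    rw [← Real.log_mul (by simpa using hV0) (by simpa using hH0), ← norm_mul, h00]; simp
  have hc : ContinuousOn (ev a) (sphere 0 |ρ|) := hf.continuousOn.mono hsub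
  have h1 : Real.circleAverage (fun z => Real.log ‖V z‖ + Real.log ‖H z‖) 0 ρ ≤
      Real.circleAverage (fun z => - (ev a z).re + ‖ev a z‖ ^ 2 / 2) 0 ρ := by
    apply avg_mono_cod hρ.ne'
    · exact (log_int hV hρ hρ1).add (log_int hH hρ hρ1)
    · apply ContinuousOn.circleIntegrable'
      apply ContinuousOn.add
      · exact (Complex.continuous_re.comp_continuousOn hc).neg
      · exact (hc.norm.pow 2).div_const 2
    · have hmem : ∀ᶠ z in codiscreteWithin (sphere (0 : ℂ) |ρ|), z ∈ sphere (0 : ℂ) |ρ| :=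
        self_mem_codiscreteWithin _
      filter_upwards [ne_zero_cod hV hV0 hρ hρ1, ne_zero_cod hH hH0 hρ hρ1, hmem] with z hz1 hz2 hz3
      have hz4 := hsub hz3
      rw [← Real.log_mul (by simpa using hz1) (by simpa using hz2), ← norm_mul, ← he z hz4]
      have hpos : 0 < ‖1 - ev a z‖ := by
        rw [norm_pos_iff, he z hz4]; exact mul_ne_zero hz1 hz2
      have h2 : Real.log (‖1 - ev a z‖ ^ 2) ≤ ‖1 - ev a z‖ ^ 2 - 1 :=
        Real.log_le_sub_one_of_pos (by positivity)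
      rw [Real.log_pow] at h2
      have h3 : ‖1 - ev a z‖ ^ 2 = 1 - 2 * (ev a z).re + ‖ev a z‖ ^ 2 := by
        rw [← Complex.normSq_eq_norm_sq, ← Complex.normSq_eq_norm_sq, Complex.normSq_apply,
          Complex.normSq_apply]
        simp
        ring
      push_cast at h2
      linarith
  have h2 : Real.circleAverage (fun z => Real.log ‖V z‖ + Real.log ‖H z‖) 0 ρ =
      Real.circleAverage (fun z => Real.log ‖V z‖) 0 ρ +
      Real.circleAverage (fun z => Real.log ‖H z‖) 0 ρ :=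
    Real.circleAverage_fun_add (log_int hV hρ hρ1) (log_int hH hρ hρ1)
  have h3 : Real.circleAverage (fun z => - (ev a z).re + ‖ev a z‖ ^ 2 / 2) 0 ρ ≤ ‖a‖ ^ 2 / 2 := by
    have e1 : Real.circleAverage (fun z => - (ev a z).re + ‖ev a z‖ ^ 2 / 2) 0 ρ =
        Real.circleAverage (fun z => - (ev a z).re) 0 ρ +
        Real.circleAverage (fun z => ‖ev a z‖ ^ 2 / 2) 0 ρ := by
      apply Real.circleAverage_fun_add
      · exact ContinuousOn.circleIntegrable' (Complex.continuous_re.comp_continuousOn hc).neg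
      · exact ContinuousOn.circleIntegrable' ((hc.norm.pow 2).div_const 2)
    have e2 : Real.circleAverage (fun z => - (ev a z).re) 0 ρ = 0 := by
      have hd : DiffContOnCl ℂ (ev a) (ball 0 |ρ|) := by
        refine ⟨hf.mono ?_, ?_⟩
        · exact ball_subset_closedBall.trans (sph_sub hρ hρ1)
        · rw [closure_ball _ (by simpa using hρ.ne')]
          exact hf.continuousOn.mono (sph_sub hρ hρ1)
      have := avg_re (ev a) ρ hc hd
      have e3 : (fun z => - (ev a z).re) = (fun z => (-1 : ℝ) • (ev a z).re) := by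
        funext z; simp
      rw [e3, Real.circleAverage_fun_smul, this, ha0]
      simp
    have e4 : Real.circleAverage (fun z => ‖ev a z‖ ^ 2 / 2) 0 ρ ≤ ‖a‖ ^ 2 / 2 := by
      have e5 : (fun z => ‖ev a z‖ ^ 2 / 2) = (fun z => (1 / 2 : ℝ) • ‖ev a z‖ ^ 2) := by
        funext z; simp; ring
      rw [e5, Real.circleAverage_fun_smul]
      have := avg_le a ρ hρ.le hρ1
      simp only [smul_eq_mul]
      linarith
    rw [e1, e2]
    linarith
  have h4 := jensen_ge hH hH0 hρ hρ1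
  linarith

end Pool.Agent.Helper742.Bd
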