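import Mathlib

set_option autoImplicit false
open Complex Filter Topology Metric MeasureTheory Set
open scoped Real

namespace Pool.Agent.Helper742.Bd

lemma fubini_log {x : ℝ → ℂ} (hx : Continuous x) (hx1 : ∀ θ, ‖x θ‖ ≤ 1) {s q : ℝ} (hs : 0 < s)
    (hs1 : s ≤ 1)
    (h : ∀ w : ℂ, ‖w‖ = s → (2 * π)⁻¹ * ∫ θ in (0 : ℝ)..2 * π, Real.log ‖w - x θ‖ ≤ Real.log s + q) :
    (2 * π)⁻¹ * ∫ θ in (0 : ℝ)..2 * π, (Real.log s + Real.posLog (s⁻¹ * ‖x θ‖)) ≤
      Real.log s + q := by
  set ν : Measure ℝ := volume.restrict (Ioc 0 (2 * π)) with hν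
  have h2π : (0 : ℝ) < 2 * π := by positivity
  have hfin : IsFiniteMeasure ν := by
    rw [hν]; infer_instance
  set K : ℝ × ℝ → ℝ := fun p => Real.log ‖circleMap 0 s p.1 - x p.2‖ with hK
  have hKm : Measurable K := by
    apply Real.measurable_log.comp
    apply Continuous.measurable
    have h1 : Continuous (fun p : ℝ × ℝ => circleMap 0 s p.1) :=
      (continuous_circleMap 0 s).comp continuous_fst
    exact (h1.sub (hx.comp continuous_snd)).norm
  have hKle : ∀ p, K p ≤ Real.log 2 := by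
    intro p
    rcases (norm_nonneg (circleMap 0 s p.1 - x p.2)).eq_or_lt with h0 | h0
    · show Real.log ‖circleMap 0 s p.1 - x p.2‖ ≤ _
      rw [← h0, Real.log_zero]
      exact Real.log_nonneg (by norm_num)
    · apply Real.log_le_log h0
      calc ‖circleMap 0 s p.1 - x p.2‖ ≤ ‖circleMap 0 s p.1‖ + ‖x p.2‖ := norm_sub_le _ _
        _ ≤ 2 := by
          rw [norm_circleMap_zero, abs_of_pos hs]; linarith [hx1 p.2]
  have hl2 : 0 ≤ Real.log 2 := Real.log_nonneg (by norm_num)
  have hav : ∀ θ, ∫ ψ, K (ψ, θ) ∂ν = 2 * π * (Real.log s + Real.posLog (s⁻¹ * ‖x θ‖)) := by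
    intro θ
    have := circleAverage_log_norm_sub_const_eq_log_radius_add_posLog (c := 0) (a := x θ) hs.ne'
    rw [zero_sub, norm_neg, Real.circleAverage_def, smul_eq_mul,
      intervalIntegral.integral_of_le h2π.le] at this
    rw [← this, ← mul_assoc, mul_inv_cancel₀ h2π.ne', one_mul]
  have hKi : ∀ θ, Integrable (fun ψ => K (ψ, θ)) ν := by
    intro θ
    have := circleIntegrable_log_norm_sub_const (c := 0) (a := x θ) s
    rw [CircleIntegrable, intervalIntegrable_iff_integrableOn_Ioc_of_le h2π.le] at this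
    exact this
  have hKint : Integrable K (ν.prod ν) := by
    rw [integrable_prod_iff' hKm.aestronglyMeasurable]
    refine ⟨Eventually.of_forall hKi, ?_⟩
    apply Integrable.mono' (g := fun _ => 2 * π * (2 * Real.log 2 - Real.log s))
      (integrable_const _)
    · exact (hKm.aestronglyMeasurable.norm.prod_swap).integral_prod_right'
    · refine Eventually.of_forall (fun θ => ?_)
      rw [Real.norm_of_nonneg (integral_nonneg fun _ => norm_nonneg _)]
      have h1 : ∫ ψ, ‖K (ψ, θ)‖ ∂ν ≤ ∫ ψ, (2 * Real.log 2 - K (ψ, θ)) ∂ν := by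
        apply integral_mono (hKi θ).norm ((integrable_const _).sub (hKi θ))
        intro ψ
        show |K (ψ, θ)| ≤ 2 * Real.log 2 - K (ψ, θ)
        have := hKle (ψ, θ)
        rw [abs_le]
        constructor <;> linarith
      have h2 : ∫ ψ, (2 * Real.log 2 - K (ψ, θ)) ∂ν = 2 * π * (2 * Real.log 2) -
          2 * π * (Real.log s + Real.posLog (s⁻¹ * ‖x θ‖)) := by
        rw [integral_sub (integrable_const _) (hKi θ), hav θ]
        congr 1
        rw [integral_const, hν]
        simp [h2π.le]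
      rw [h2] at h1
      have h3 : 0 ≤ Real.posLog (s⁻¹ * ‖x θ‖) := Real.posLog_nonneg
      nlinarith
  have hsw : ∫ ψ, ∫ θ, K (ψ, θ) ∂ν ∂ν = ∫ θ, ∫ ψ, K (ψ, θ) ∂ν ∂ν :=
    integral_integral_swap (f := fun ψ θ => K (ψ, θ)) hKint
  have hle : ∫ ψ, ∫ θ, K (ψ, θ) ∂ν ∂ν ≤ ∫ ψ, 2 * π * (Real.log s + q) ∂ν := by
    apply integral_mono hKint.integral_prod_left (integrable_const _)
    intro ψ
    have := h (circleMap 0 s ψ) (by rw [norm_circleMap_zero, abs_of_pos hs])
    rw [intervalIntegral.integral_of_le h2π.le] at this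
    have h4 := mul_le_mul_of_nonneg_left this h2π.le
    rw [← mul_assoc, mul_inv_cancel₀ h2π.ne', one_mul] at h4
    exact h4
  have hc : ∫ ψ, 2 * π * (Real.log s + q) ∂ν = 2 * π * (2 * π * (Real.log s + q)) := by
    rw [integral_const, hν]
    simp [h2π.le]
  rw [hsw, hc] at hle
  simp only [hav] at hle
  rw [intervalIntegral.integral_of_le h2π.le]
  rw [integral_const_mul] at hle
  have h5 := le_of_mul_le_mul_left hle h2π
  rw [inv_mul_le_iff₀ h2π]
  exact h5

end Pool.Agent.Helper742.Bd
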