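import Mathlib
import Pool.Agent.Helper742.BdB

set_option autoImplicit false
open Complex Filter Topology Metric MeasureTheory Set
open scoped Real

namespace Pool.Agent.Helper742.Bd

lemma circ_mem {ρ : ℝ} (h0 : 0 ≤ ρ) (h1 : ρ < 1) (θ : ℝ) : circleMap 0 ρ θ ∈ ball (0 : ℂ) 1 := by
  rw [mem_ball_zero_iff, norm_circleMap_zero, abs_of_nonneg h0]; exact h1

lemma avg_posLog {p : ℂ → ℂ} (hp : DifferentiableOn ℂ p (ball 0 1))
    (hp1 : ∀ z ∈ ball (0 : ℂ) 1, ‖p z‖ < 1) {ρ s q : ℝ} (hρ : 0 < ρ) (hρ1 : ρ < 1) (hs : 0 < s)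
    (hs1 : s ≤ 1)
    (h : ∀ w : ℂ, ‖w‖ = s →
      Real.circleAverage (fun z => Real.log ‖w - p z‖) 0 ρ ≤ Real.log s + q) :
    Real.circleAverage (fun z => Real.posLog (s⁻¹ * ‖p z‖)) 0 ρ ≤ q := by
  have hx : Continuous (fun θ : ℝ => p (circleMap 0 ρ θ)) := by
    rw [← continuousOn_univ]
    exact hp.continuousOn.comp (continuous_circleMap 0 ρ).continuousOn
      (fun θ _ => circ_mem hρ.le hρ1 θ)
  have h1 := fubini_log hx (fun θ => (hp1 _ (circ_mem hρ.le hρ1 θ)).le) hs hs1 (q := q) (by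
    intro w hw
    have := h w hw
    rwa [Real.circleAverage_def, smul_eq_mul] at this)
  have hci : CircleIntegrable (fun z => Real.posLog (s⁻¹ * ‖p z‖)) 0 ρ := by
    have : Continuous (fun θ : ℝ => Real.posLog (s⁻¹ * ‖p (circleMap 0 ρ θ)‖)) :=
      Real.continuous_posLog.comp (hx.norm.const_mul _)
    exact this.intervalIntegrable _ _
  have h2 : Real.circleAverage (fun z => Real.log s + Real.posLog (s⁻¹ * ‖p z‖)) 0 ρ =
      Real.log s + Real.circleAverage (fun z => Real.posLog (s⁻¹ * ‖p z‖)) 0 ρ := by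
    rw [Real.circleAverage_fun_add (circleIntegrable_const _ _ _) hci, Real.circleAverage_const]
  have h3 : Real.circleAverage (fun z => Real.log s + Real.posLog (s⁻¹ * ‖p z‖)) 0 ρ ≤
      Real.log s + q := by
    rw [Real.circleAverage_def, smul_eq_mul]
    exact h1
  linarith

section
variable {φ : ℂ → ℂ} (hd : DifferentiableOn ℂ φ (ball (0 : ℂ) 1))
  (hm : ∀ z : ℂ, ‖z‖ < 1 → ‖φ z‖ < 1) (h0 : φ 0 = 0)
  (hs : ∀ z : ℂ, ‖z‖ < 1 → z ≠ 0 → ‖φ z‖ < ‖z‖)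

include h0 hs in
lemma phi_le {z : ℂ} (hz : ‖z‖ < 1) : ‖φ z‖ ≤ ‖z‖ := by
  by_cases h : z = 0
  · rw [h, h0]
  · exact (hs z hz h).le

include hm in
lemma iter_lt (n : ℕ) {z : ℂ} (hz : ‖z‖ < 1) : ‖φ^[n] z‖ < 1 := by
  induction n with
  | zero => simpa using hz
  | succ n ih => rw [Function.iterate_succ_apply']; exact hm _ ih

include hd hm in
lemma iter_diff (n : ℕ) : DifferentiableOn ℂ (φ^[n]) (ball (0 : ℂ) 1) := by
  induction n with
  | zero => exact differentiableOn_id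
  | succ n ih =>
    rw [Function.iterate_succ']
    exact hd.comp ih (fun z hz => mem_ball_zero_iff.2 (iter_lt hm n (mem_ball_zero_iff.1 hz)))

include h0 in
lemma iter_zero (n : ℕ) : φ^[n] 0 = 0 := by
  induction n with
  | zero => rfl
  | succ n ih => rw [Function.iterate_succ_apply', ih, h0]

lemma iter_le_of {s κ : ℝ} (hκ0 : 0 ≤ κ) (hκ1 : κ ≤ 1)
    (hκ : ∀ z : ℂ, ‖z‖ ≤ s → ‖φ z‖ ≤ κ * ‖z‖) (n : ℕ) {z : ℂ} (hz : ‖z‖ ≤ s) :
    ‖φ^[n] z‖ ≤ κ ^ n * ‖z‖ := by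
  induction n with
  | zero => simp
  | succ n ih =>
    rw [Function.iterate_succ_apply']
    have h1 : ‖φ^[n] z‖ ≤ s := by
      refine ih.trans (le_trans ?_ hz)
      exact mul_le_of_le_one_left (norm_nonneg z) (pow_le_one₀ hκ0 hκ1)
    calc ‖φ (φ^[n] z)‖ ≤ κ * ‖φ^[n] z‖ := hκ _ h1
      _ ≤ κ * (κ ^ n * ‖z‖) := by gcongr
      _ = κ ^ (n + 1) * ‖z‖ := by ring

include hd h0 hs in
lemma exists_kappa {s : ℝ} (hs0 : 0 < s) (hs1 : s < 1) :
    ∃ κ : ℝ, 0 < κ ∧ κ < 1 ∧ ∀ z : ℂ, ‖z‖ ≤ s → ‖φ z‖ ≤ κ * ‖z‖ := by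
  have hsub : closedBall (0 : ℂ) s ⊆ ball 0 1 := closedBall_subset_ball hs1
  have hgd : DifferentiableOn ℂ (dslope φ 0) (ball (0 : ℂ) 1) :=
    (Complex.differentiableOn_dslope (ball_mem_nhds 0 one_pos)).2 hd
  have hgc : ContinuousOn (dslope φ 0) (closedBall (0 : ℂ) s) := hgd.continuousOn.mono hsub
  have hmul : ∀ z, φ z = z * dslope φ 0 z := by
    intro z
    have := sub_smul_dslope φ 0 z
    rw [h0, sub_zero, sub_zero, smul_eq_mul] at this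
    exact this.symm
  have hne : (sphere (0 : ℂ) s).Nonempty := NormedSpace.sphere_nonempty.2 hs0.le
  obtain ⟨z₀, hz₀, hmax⟩ := (isCompact_sphere (0 : ℂ) s).exists_isMaxOn hne
    (hgc.norm.mono sphere_subset_closedBall)
  have hz₀' : ‖z₀‖ = s := mem_sphere_zero_iff_norm.1 hz₀
  have hz₀0 : z₀ ≠ 0 := by
    intro h; rw [h, norm_zero] at hz₀'; exact hs0.ne hz₀'
  have hlt : ‖dslope φ 0 z₀‖ < 1 := by
    have h1 := hs z₀ (by rw [hz₀']; exact hs1) hz₀0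
    rw [hmul z₀, norm_mul] at h1
    have h2 : 0 < ‖z₀‖ := norm_pos_iff.2 hz₀0
    by_contra hcon
    push Not at hcon
    nlinarith
  refine ⟨max ‖dslope φ 0 z₀‖ (1 / 2), by positivity, max_lt hlt (by norm_num), ?_⟩
  intro z hz
  have hb : ‖dslope φ 0 z‖ ≤ ‖dslope φ 0 z₀‖ := by
    apply Complex.norm_le_of_forall_mem_frontier_norm_le (U := ball (0 : ℂ) s) isBounded_ball
    · refine ⟨hgd.mono (ball_subset_closedBall.trans hsub), ?_⟩
      rw [closure_ball _ hs0.ne']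
      exact hgc
    · intro y hy
      rw [frontier_ball _ hs0.ne'] at hy
      exact hmax hy
    · rw [closure_ball _ hs0.ne']
      exact mem_closedBall_zero_iff.2 hz
  rw [hmul z, norm_mul, mul_comm]
  exact mul_le_mul_of_nonneg_right (hb.trans (le_max_left _ _)) (norm_nonneg z)

include hd h0 in
lemma exists_sigma {t : ℝ} (ht : ‖deriv φ 0‖ < t) :
    ∃ σ : ℝ, 0 < σ ∧ σ < 1 ∧ ∀ z : ℂ, ‖z‖ ≤ σ → ‖φ z‖ ≤ t * ‖z‖ := by
  have hda : HasDerivAt φ (deriv φ 0) 0 :=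
    ((hd 0 (by simp)).differentiableAt (ball_mem_nhds 0 one_pos)).hasDerivAt
  have h1 := (hasDerivAt_iff_isLittleO.1 hda).def (sub_pos.2 ht)
  rw [Metric.eventually_nhds_iff_ball] at h1
  obtain ⟨ε, hε, h2⟩ := h1
  refine ⟨min (ε / 2) (1 / 2), by positivity, (min_le_right _ _).trans_lt (by norm_num), ?_⟩
  intro z hz
  have hz1 : z ∈ ball (0 : ℂ) ε := by
    rw [mem_ball_zero_iff]
    have := hz.trans (min_le_left _ _)
    linarith
  have h3 := h2 z hz1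
  rw [h0, sub_zero, sub_zero, smul_eq_mul] at h3
  calc ‖φ z‖ = ‖(φ z - z * deriv φ 0) + z * deriv φ 0‖ := by ring_nf
    _ ≤ ‖φ z - z * deriv φ 0‖ + ‖z * deriv φ 0‖ := norm_add_le _ _
    _ ≤ (t - ‖deriv φ 0‖) * ‖z‖ + ‖z‖ * ‖deriv φ 0‖ := by rw [norm_mul]; gcongr
    _ = t * ‖z‖ := by ring

include hd hm h0 hs in
lemma recursion {s₀ K b : ℝ} (hs0 : 0 < s₀) (hs1 : s₀ < 1) (hK : 0 ≤ K) (hb : 0 < b)
    (hq : ∀ m : ℕ, ∀ ρ : ℝ, 0 < ρ → ρ < 1 →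
      Real.circleAverage (fun z => Real.posLog (s₀⁻¹ * ‖φ^[m] z‖)) 0 ρ ≤ K * b ^ m)
    (n : ℕ) (hn : ‖deriv φ 0‖ ^ (2 * n) < b) :
    ∃ C : ℝ, 0 ≤ C ∧ ∀ m : ℕ, ∀ ρ : ℝ, 0 < ρ → ρ < 1 →
      Real.circleAverage (fun z => ‖φ^[m] z‖ ^ (2 * n)) 0 ρ ≤ C * b ^ m := by
  -- choose t
  obtain ⟨t, ht1, ht2⟩ : ∃ t : ℝ, ‖deriv φ 0‖ < t ∧ t ^ (2 * n) < b := by
    have hc : ContinuousAt (fun t : ℝ => t ^ (2 * n)) ‖deriv φ 0‖ := by fun_prop
    have h1 : ∀ᶠ t in 𝓝 ‖deriv φ 0‖, t ^ (2 * n) < b := hc.eventually_lt_const hn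
    have h2 : ∀ᶠ t in 𝓝[>] ‖deriv φ 0‖, t ^ (2 * n) < b := nhdsWithin_le_nhds h1
    obtain ⟨t, h3, h4⟩ := (h2.and self_mem_nhdsWithin).exists
    exact ⟨t, h4, h3⟩
  have ht0 : 0 ≤ t := (norm_nonneg _).trans ht1.le
  obtain ⟨σ, hσ0, hσ1, hσ⟩ := exists_sigma hd h0 ht1
  set s' : ℝ := (1 + s₀) / 2 with hs'
  have hs'1 : s' < 1 := by rw [hs']; linarith
  have hs's : s₀ < s' := by rw [hs']; linarith
  have hs'0 : 0 < s' := hs0.trans hs's
  obtain ⟨κ, hκ0, hκ1, hκ⟩ := exists_kappa hd h0 hs hs'0 hs'1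
  set L : ℝ := Real.log (s' / s₀) with hL
  have hL0 : 0 < L := Real.log_pos (by rwa [one_lt_div hs0])
  obtain ⟨j, hj⟩ := exists_pow_lt_of_lt_one hσ0 hκ1
  set a : ℝ := t ^ (2 * n) with ha
  have ha0 : 0 ≤ a := by positivity
  have hpt : ∀ i : ℕ, ∀ z : ℂ, ‖z‖ < 1 → ‖φ^[i + 1 + j] z‖ ^ (2 * n) ≤
      a * ‖φ^[i + j] z‖ ^ (2 * n) + L⁻¹ * Real.posLog (s₀⁻¹ * ‖φ^[i] z‖) := by
    intro i z hz
    have e1 : φ^[i + 1 + j] z = φ (φ^[i + j] z) := by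
      rw [show i + 1 + j = (i + j) + 1 by ring, Function.iterate_succ_apply']
    have hpl : 0 ≤ Real.posLog (s₀⁻¹ * ‖φ^[i] z‖) := Real.posLog_nonneg
    by_cases hc : ‖φ^[i] z‖ ≤ s'
    · have e2 : φ^[i + j] z = φ^[j] (φ^[i] z) := by
        rw [add_comm, Function.iterate_add_apply]
      have h1 : ‖φ^[i + j] z‖ ≤ σ := by
        rw [e2]
        calc ‖φ^[j] (φ^[i] z)‖ ≤ κ ^ j * ‖φ^[i] z‖ := iter_le_of hκ0.le hκ1.le hκ j hc
          _ ≤ κ ^ j * 1 := by gcongr; exact (iter_lt hm i hz).le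
          _ ≤ σ := by rw [mul_one]; exact hj.le
      have h2 := hσ _ h1
      rw [← e1] at h2
      calc ‖φ^[i + 1 + j] z‖ ^ (2 * n) ≤ (t * ‖φ^[i + j] z‖) ^ (2 * n) := by gcongr
        _ = a * ‖φ^[i + j] z‖ ^ (2 * n) := by rw [mul_pow, ha]
        _ ≤ _ := by
          have : 0 ≤ L⁻¹ * Real.posLog (s₀⁻¹ * ‖φ^[i] z‖) := by positivity
          linarith
    · push Not at hc
      have h1 : L ≤ Real.posLog (s₀⁻¹ * ‖φ^[i] z‖) := by
        refine le_trans ?_ (le_max_right _ _)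
        apply Real.log_le_log (by positivity)
        rw [div_eq_inv_mul]
        gcongr
      have h2 : 1 ≤ L⁻¹ * Real.posLog (s₀⁻¹ * ‖φ^[i] z‖) := by
        calc 1 = L⁻¹ * L := (inv_mul_cancel₀ hL0.ne').symm
          _ ≤ _ := by gcongr
      have h3 : ‖φ^[i + 1 + j] z‖ ^ (2 * n) ≤ 1 :=
        pow_le_one₀ (norm_nonneg _) (iter_lt hm _ hz).le
      have h4 : 0 ≤ a * ‖φ^[i + j] z‖ ^ (2 * n) := by positivity
      linarith
  have hcont : ∀ i : ℕ, ∀ ρ : ℝ, 0 < ρ → ρ < 1 →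
      ContinuousOn (fun z => ‖φ^[i] z‖) (sphere (0 : ℂ) |ρ|) := by
    intro i ρ h1 h2
    apply ContinuousOn.norm
    apply (iter_diff hd hm i).continuousOn.mono
    intro z hz
    rw [mem_sphere_zero_iff_norm, abs_of_pos h1] at hz
    rw [mem_ball_zero_iff, hz]; exact h2
  have hsph : ∀ ρ : ℝ, 0 < ρ → ρ < 1 → ∀ z ∈ sphere (0 : ℂ) |ρ|, ‖z‖ < 1 := by
    intro ρ h1 h2 z hz
    rw [mem_sphere_zero_iff_norm, abs_of_pos h1] at hz
    rw [hz]; exact h2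
  have hle1 : ∀ i : ℕ, ∀ ρ : ℝ, 0 < ρ → ρ < 1 →
      Real.circleAverage (fun z => ‖φ^[i] z‖ ^ (2 * n)) 0 ρ ≤ 1 := by
    intro i ρ h1 h2
    apply Real.circleAverage_mono_on_of_le_circle
    · exact ContinuousOn.circleIntegrable' ((hcont i ρ h1 h2).pow _)
    · intro z hz
      exact pow_le_one₀ (norm_nonneg _) (iter_lt hm _ (hsph ρ h1 h2 z hz)).le
  have hrec : ∀ i : ℕ, ∀ ρ : ℝ, 0 < ρ → ρ < 1 →
      Real.circleAverage (fun z => ‖φ^[i + 1 + j] z‖ ^ (2 * n)) 0 ρ ≤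
      a * Real.circleAverage (fun z => ‖φ^[i + j] z‖ ^ (2 * n)) 0 ρ + L⁻¹ * (K * b ^ i) := by
    intro i ρ h1 h2
    have c1 : CircleIntegrable (fun z => a • ‖φ^[i + j] z‖ ^ (2 * n)) 0 ρ :=
      ContinuousOn.circleIntegrable' (((hcont _ ρ h1 h2).pow _).const_smul a)
    have c2 : CircleIntegrable (fun z => L⁻¹ • Real.posLog (s₀⁻¹ * ‖φ^[i] z‖)) 0 ρ := by
      exact ContinuousOn.circleIntegrable' ((Real.continuous_posLog.comp_continuousOn
        ((hcont i ρ h1 h2).const_mul _)).const_smul L⁻¹)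
    calc Real.circleAverage (fun z => ‖φ^[i + 1 + j] z‖ ^ (2 * n)) 0 ρ
        ≤ Real.circleAverage (fun z => a • ‖φ^[i + j] z‖ ^ (2 * n) +
            L⁻¹ • Real.posLog (s₀⁻¹ * ‖φ^[i] z‖)) 0 ρ := by
          apply Real.circleAverage_mono
          · exact ContinuousOn.circleIntegrable' ((hcont _ ρ h1 h2).pow _)
          · exact c1.add c2
          · intro z hz
            exact hpt i z (hsph ρ h1 h2 z hz)
      _ = a • Real.circleAverage (fun z => ‖φ^[i + j] z‖ ^ (2 * n)) 0 ρ +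
            L⁻¹ • Real.circleAverage (fun z => Real.posLog (s₀⁻¹ * ‖φ^[i] z‖)) 0 ρ := by
          rw [Real.circleAverage_fun_add c1 c2, Real.circleAverage_fun_smul,
            Real.circleAverage_fun_smul]
      _ ≤ _ := by
          simp only [smul_eq_mul]
          have := hq i ρ h1 h2
          gcongr
  set C' : ℝ := max 1 (L⁻¹ * K / (b - a)) with hC'
  have hba : 0 < b - a := sub_pos.2 ht2
  have hC1 : 1 ≤ C' := le_max_left _ _
  have hC2 : L⁻¹ * K ≤ C' * (b - a) := by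
    rw [← div_le_iff₀ hba]; exact le_max_right _ _
  have hind : ∀ i : ℕ, ∀ ρ : ℝ, 0 < ρ → ρ < 1 →
      Real.circleAverage (fun z => ‖φ^[i + j] z‖ ^ (2 * n)) 0 ρ ≤ C' * b ^ i := by
    intro i ρ h1 h2
    induction i with
    | zero =>
      rw [pow_zero, mul_one]
      exact (hle1 _ ρ h1 h2).trans hC1
    | succ i ih =>
      refine (hrec i ρ h1 h2).trans ?_
      have hbi : 0 ≤ b ^ i := by positivity
      calc a * Real.circleAverage (fun z => ‖φ^[i + j] z‖ ^ (2 * n)) 0 ρ + L⁻¹ * (K * b ^ i)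
          ≤ a * (C' * b ^ i) + L⁻¹ * (K * b ^ i) := by gcongr
        _ = (a * C' + L⁻¹ * K) * b ^ i := by ring
        _ ≤ (C' * b) * b ^ i := by
          apply mul_le_mul_of_nonneg_right _ hbi
          nlinarith
        _ = C' * b ^ (i + 1) := by ring
  refine ⟨C' * (b ^ j)⁻¹ + ∑ m ∈ Finset.range j, (b ^ m)⁻¹, by positivity, ?_⟩
  intro m ρ h1 h2
  by_cases hmj : j ≤ m
  · obtain ⟨i, rfl⟩ := Nat.exists_eq_add_of_le hmj
    have h3 := hind i ρ h1 h2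
    rw [add_comm i j] at h3
    have h4 : 0 ≤ (∑ m ∈ Finset.range j, (b ^ m)⁻¹) * b ^ (j + i) := by positivity
    have h5 : C' * (b ^ j)⁻¹ * b ^ (j + i) = C' * b ^ i := by
      rw [pow_add]; field_simp
    rw [add_mul, h5]
    linarith
  · push Not at hmj
    have h3 := hle1 m ρ h1 h2
    have h4 : (b ^ m)⁻¹ ≤ ∑ m ∈ Finset.range j, (b ^ m)⁻¹ :=
      Finset.single_le_sum (f := fun m => (b ^ m)⁻¹) (fun i _ => by positivity)
        (Finset.mem_range.2 hmj)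
    have h5 : 0 ≤ C' * (b ^ j)⁻¹ := by positivity
    have h6 : 1 = (b ^ m)⁻¹ * b ^ m := (inv_mul_cancel₀ (by positivity)).symm
    calc Real.circleAverage (fun z => ‖φ^[m] z‖ ^ (2 * n)) 0 ρ ≤ 1 := h3
      _ = (b ^ m)⁻¹ * b ^ m := h6
      _ ≤ _ := by
        apply mul_le_mul_of_nonneg_right _ (by positivity)
        linarith

end

end Pool.Agent.Helper742.Bd
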