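import Mathlib
import Pool.Agent.Helper76.Hardy
import Pool.Agent.Helper76.Pick
import Pool.Agent.Helper203.Comp
import Pool.Agent.Helper742.BdC

set_option autoImplicit false
open Complex Filter Topology Metric MeasureTheory Set
open scoped Real

namespace Pool.Agent.Helper742.Bd
open Pool.Agent.Helper76.Hardy Pool.Agent.Helper76.Pick

/-! ### facts on `HH` -/

lemma evd (a : HH) : DifferentiableOn ℂ (ev a) (ball 0 1) := Pool.Agent.Helper203.Hardy.ev_diff a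

lemma ev_inj {a b : HH} (h : ∀ z ∈ ball (0 : ℂ) 1, ev a z = ev b z) : a = b :=
  Pool.Agent.Helper203.Hardy.ev_injective h

lemma ev_zero' (a : HH) : ev a 0 = a 0 := by
  unfold ev
  rw [tsum_eq_single 0]
  · simp
  · intro n hn; simp [hn]

lemma shift_coeff (A : ℕ) (b : HH) : ∀ n < A, ((Pool.Agent.Helper203.Hardy.Mz ^ A) b : HH) n = 0 := by
  induction A with
  | zero => intro n hn; omega
  | succ A ih =>
    intro n hn
    rw [pow_succ']
    show (Pool.Agent.Helper203.Hardy.Mz ((Pool.Agent.Helper203.Hardy.Mz ^ A) b) : HH) n = 0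
    rw [Pool.Agent.Helper203.Hardy.Mz_apply]
    cases n with
    | zero => rfl
    | succ n => exact ih n (by omega)

lemma coeff_zero {A : ℕ} {a : HH} {g : ℂ → ℂ} {B : ℝ} (hg : DifferentiableOn ℂ g (ball (0 : ℂ) 1))
    (hB : ∀ z ∈ ball (0 : ℂ) 1, ‖g z‖ ≤ B) (h : ∀ z ∈ ball (0 : ℂ) 1, ev a z = z ^ A * g z) :
    ∀ n < A, a n = 0 := by
  obtain ⟨b, hb, -⟩ := exists_coeff g B hg hB
  have e : a = (Pool.Agent.Helper203.Hardy.Mz ^ A) b := by
    apply ev_inj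
    intro z hz
    have h1 := Pool.Agent.Helper203.Hardy.ev_Mz_pow b A (mem_ball_zero_iff.1 hz)
    have h2 : ev (((Pool.Agent.Helper203.Hardy.Mz ^ A) b : HH)) z = z ^ A * ev b z := h1
    rw [h z hz, h2, hb z hz]
  rw [e]
  exact shift_coeff A b

lemma ev_small {A : ℕ} (G : HH) (hG : ∀ n < A, G n = 0) {z : ℂ} (hz : ‖z‖ < 1) :
    ‖ev G z‖ ≤ ‖G‖ * ‖z‖ ^ A * (1 - ‖z‖)⁻¹ := by
  have hs := ev_summable G ‖G‖ (coord_le G) z hz
  have e : ev G z = ∑' n, G (n + A) * z ^ (n + A) := by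
    unfold ev
    rw [← hs.sum_add_tsum_nat_add A]
    have : ∑ i ∈ Finset.range A, G i * z ^ i = 0 := by
      apply Finset.sum_eq_zero
      intro i hi
      rw [hG i (Finset.mem_range.1 hi), zero_mul]
    rw [this, zero_add]
  rw [e]
  have h1 : HasSum (fun n : ℕ => ‖G‖ * ‖z‖ ^ A * ‖z‖ ^ n) (‖G‖ * ‖z‖ ^ A * (1 - ‖z‖)⁻¹) :=
    (hasSum_geometric_of_lt_one (norm_nonneg z) hz).mul_left _
  refine tsum_of_norm_bounded h1 (fun n => ?_)
  rw [norm_mul, norm_pow, pow_add]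
  have := coord_le G (n + A)
  calc ‖G (n + A)‖ * (‖z‖ ^ n * ‖z‖ ^ A) ≤ ‖G‖ * (‖z‖ ^ n * ‖z‖ ^ A) := by gcongr
    _ = ‖G‖ * ‖z‖ ^ A * ‖z‖ ^ n := by ring

/-! ### Blaschke factors -/

lemma den_le {a z : ℂ} (ha : ‖a‖ < 1) : ‖1 - (starRingEnd ℂ) a * z‖ ≤ 1 + ‖z‖ := by
  calc ‖1 - (starRingEnd ℂ) a * z‖ ≤ ‖(1 : ℂ)‖ + ‖(starRingEnd ℂ) a * z‖ := norm_sub_le _ _
    _ = 1 + ‖a‖ * ‖z‖ := by rw [norm_one, norm_mul, RCLike.norm_conj]
    _ ≤ 1 + 1 * ‖z‖ := by gcongr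
    _ = 1 + ‖z‖ := by ring

lemma mob_ge {a z : ℂ} (ha : ‖a‖ < 1) (hz : ‖z‖ < 1) {t : ℝ} (ht : 0 ≤ t)
    (h : t * (1 + ‖z‖) ≤ |‖a‖ - ‖z‖|) : t ≤ ‖mob a z‖ := by
  unfold mob
  have h1 := one_sub_ne ha hz
  rw [norm_div, le_div_iff₀ (norm_pos_iff.2 h1)]
  calc t * ‖1 - (starRingEnd ℂ) a * z‖ ≤ t * (1 + ‖z‖) := by gcongr; exact den_le ha
    _ ≤ |‖a‖ - ‖z‖| := h
    _ ≤ ‖a - z‖ := abs_norm_sub_norm_le a z
    _ = ‖z - a‖ := norm_sub_rev a z

lemma prod_low {x : ℕ → ℝ} {β t : ℝ} (hβ0 : 0 < β) (hβ1 : β ≤ 1) (ht0 : 0 < t) (ht1 : t ≤ 1)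
    (J : ℕ) (h1 : ∀ j, β ≤ x j) (h2 : ∀ j, J ≤ j → t ≤ x j) (m : ℕ) :
    β ^ J * t ^ m ≤ ∏ j ∈ Finset.range m, x j := by
  have key : β ^ (min m J) * t ^ m ≤ ∏ j ∈ Finset.range m, x j := by
    induction m with
    | zero => simp
    | succ m ih =>
      rw [Finset.prod_range_succ]
      have hp : 0 ≤ ∏ j ∈ Finset.range m, x j :=
        Finset.prod_nonneg (fun j _ => hβ0.le.trans (h1 j))
      by_cases hm : J ≤ m
      · rw [min_eq_right (by omega)]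
        rw [min_eq_right hm] at ih
        calc β ^ J * t ^ (m + 1) = (β ^ J * t ^ m) * t := by ring
          _ ≤ _ := mul_le_mul ih (h2 m hm) ht0.le hp
      · push Not at hm
        rw [min_eq_left (by omega)]
        rw [min_eq_left hm.le] at ih
        have h3 : t ^ (m + 1) ≤ t ^ m := pow_le_pow_of_le_one ht0.le ht1 (by omega)
        calc β ^ (m + 1) * t ^ (m + 1) ≤ β ^ (m + 1) * t ^ m := by gcongr
          _ = (β ^ m * t ^ m) * β := by ring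
          _ ≤ _ := mul_le_mul ih (h1 m) hβ0.le hp
  refine le_trans ?_ key
  have : β ^ J ≤ β ^ (min m J) := pow_le_pow_of_le_one hβ0.le hβ1 (min_le_right _ _)
  gcongr

/-! ### divisibility -/

/-- `g` is divisible by `w - p` in the analytic functions of the disc -/
def Dv (w : ℂ) (p g : ℂ → ℂ) : Prop :=
  ∃ h : ℂ → ℂ, DifferentiableOn ℂ h (ball 0 1) ∧ ∀ z ∈ ball (0 : ℂ) 1, g z = (w - p z) * h z

lemma Dv.mul {w : ℂ} {p g f : ℂ → ℂ} (hg : Dv w p g) (hf : DifferentiableOn ℂ f (ball 0 1)) :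
    Dv w p (fun z => f z * g z) := by
  obtain ⟨h, h1, h2⟩ := hg
  exact ⟨fun z => f z * h z, hf.mul h1, fun z hz => by
    show f z * g z = (w - p z) * (f z * h z)
    rw [h2 z hz]; ring⟩

lemma Dv.congr {w : ℂ} {p g f : ℂ → ℂ} (hg : Dv w p g) (hf : ∀ z ∈ ball (0 : ℂ) 1, f z = g z) :
    Dv w p f := by
  obtain ⟨h, h1, h2⟩ := hg
  exact ⟨h, h1, fun z hz => by rw [hf z hz, h2 z hz]⟩

lemma Dv.add {w : ℂ} {p g f : ℂ → ℂ} (hg : Dv w p g) (hf : Dv w p f) :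
    Dv w p (fun z => g z + f z) := by
  obtain ⟨h, h1, h2⟩ := hg
  obtain ⟨k, k1, k2⟩ := hf
  exact ⟨fun z => h z + k z, h1.add k1, fun z hz => by
    show g z + f z = (w - p z) * (h z + k z)
    rw [h2 z hz, k2 z hz]; ring⟩

lemma Dv.sum {w : ℂ} {p : ℂ → ℂ} {ι : Type*} (s : Finset ι) {g : ι → ℂ → ℂ}
    (h : ∀ i ∈ s, Dv w p (g i)) : Dv w p (fun z => ∑ i ∈ s, g i z) := by
  classical
  induction s using Finset.induction_on with
  | empty => exact ⟨fun _ => 0, differentiableOn_const 0, fun z _ => by simp⟩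
  | insert i s hi ih =>
    apply ((h i (Finset.mem_insert_self i s)).add
      (ih (fun j hj => h j (Finset.mem_insert_of_mem hj)))).congr
    intro z _
    rw [Finset.sum_insert hi]

lemma Dv.prod {w : ℂ} {p : ℂ → ℂ} {ι : Type*} (s : Finset ι) {g : ι → ℂ → ℂ} {i : ι} (hi : i ∈ s)
    (h : Dv w p (g i)) (hd : ∀ j ∈ s, DifferentiableOn ℂ (g j) (ball 0 1)) :
    Dv w p (fun z => ∏ j ∈ s, g j z) := by
  classical
  have h1 : DifferentiableOn ℂ (fun z => ∏ j ∈ s.erase i, g j z) (ball 0 1) :=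
    DifferentiableOn.fun_finsetProd (fun j hj => hd j (Finset.mem_of_mem_erase hj))
  apply (h.mul h1).congr
  intro z _
  rw [mul_comm, Finset.mul_prod_erase s (fun j => g j z) hi]

lemma Dv_mob {w : ℂ} (hw : ‖w‖ < 1) {p : ℂ → ℂ} (hp : DifferentiableOn ℂ p (ball 0 1))
    (hp1 : ∀ z ∈ ball (0 : ℂ) 1, ‖p z‖ < 1) : Dv w p (fun z => mob w (p z)) := by
  refine ⟨fun z => - (1 - (starRingEnd ℂ) w * p z)⁻¹, ?_, ?_⟩
  · apply DifferentiableOn.neg
    apply DifferentiableOn.inv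
    · exact (differentiableOn_const 1).sub ((differentiableOn_const _).mul hp)
    · intro z hz
      exact one_sub_ne hw (hp1 z hz)
  · intro z hz
    have h1 := one_sub_ne hw (hp1 z hz)
    show mob w (p z) = (w - p z) * - (1 - (starRingEnd ℂ) w * p z)⁻¹
    unfold mob
    rw [div_eq_mul_inv]
    ring

lemma Dv_ev {w : ℂ} (hw : ‖w‖ < 1) (G : HH) {p : ℂ → ℂ} (hp : DifferentiableOn ℂ p (ball 0 1))
    (hp1 : ∀ z ∈ ball (0 : ℂ) 1, ‖p z‖ < 1) : Dv w p (fun z => ev G w - ev G (p z)) := by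
  have hw' : ball (0 : ℂ) 1 ∈ 𝓝 w := isOpen_ball.mem_nhds (mem_ball_zero_iff.2 hw)
  have hQ : DifferentiableOn ℂ (dslope (ev G) w) (ball 0 1) :=
    (Complex.differentiableOn_dslope hw').2 (evd G)
  refine ⟨fun z => dslope (ev G) w (p z), hQ.comp hp
    (fun z hz => mem_ball_zero_iff.2 (hp1 z hz)), ?_⟩
  intro z hz
  have h1 := sub_smul_dslope (ev G) w (p z)
  rw [smul_eq_mul] at h1
  show ev G w - ev G (p z) = (w - p z) * dslope (ev G) w (p z)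
  linear_combination h1

end Pool.Agent.Helper742.Bd
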