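import Mathlib
import Pool.Agent.Helper742.BdA
import Pool.Agent.Helper742.BdD

set_option autoImplicit false
open Complex Filter Topology Metric MeasureTheory Set
open scoped Real

namespace Pool.Agent.Helper742.Bd
open Pool.Agent.Helper76.Hardy Pool.Agent.Helper76.Pick

/-- `Π` of the paper proof -/
noncomputable def Pf (φ : ℂ → ℂ) {k : ℕ} (w : Fin (k + 1) → ℂ) (m : ℕ) (z : ℂ) : ℂ :=
  ∏ l, ∏ j ∈ Finset.range m, mob (w l) (φ^[j + 1] z)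

/-- the test functions `F_l` -/
noncomputable def Ff (φ : ℂ → ℂ) {k : ℕ} (w : Fin (k + 1) → ℂ) (m A : ℕ) (l : Fin (k + 1))
    (z : ℂ) : ℂ :=
  z ^ A * (Pf φ w m z * ∏ l' ∈ Finset.univ.erase l, mob (w l') z)

section
variable {φ : ℂ → ℂ} (hd : DifferentiableOn ℂ φ (ball (0 : ℂ) 1))
  (hm : ∀ z : ℂ, ‖z‖ < 1 → ‖φ z‖ < 1) (h0 : φ 0 = 0)
  (hs : ∀ z : ℂ, ‖z‖ < 1 → z ≠ 0 → ‖φ z‖ < ‖z‖) {k : ℕ} {w : Fin (k + 1) → ℂ}
  (hw : ∀ l, ‖w l‖ < 1)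

include hd hm hw in
lemma mob_iter_diff (l : Fin (k + 1)) (j : ℕ) :
    DifferentiableOn ℂ (fun z => mob (w l) (φ^[j] z)) (ball 0 1) :=
  (mob_diff (hw l)).comp (iter_diff hd hm j)
    (fun z hz => mem_ball_zero_iff.2 (iter_lt hm j (mem_ball_zero_iff.1 hz)))

include hd hm hw in
lemma Pf_diff (m : ℕ) : DifferentiableOn ℂ (Pf φ w m) (ball 0 1) := by
  unfold Pf
  apply DifferentiableOn.fun_finsetProd
  intro l _
  apply DifferentiableOn.fun_finsetProd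
  intro j _
  exact mob_iter_diff hd hm hw l (j + 1)

include hm hw in
lemma Pf_le (m : ℕ) {z : ℂ} (hz : ‖z‖ < 1) : ‖Pf φ w m z‖ ≤ 1 := by
  unfold Pf
  rw [norm_prod]
  apply Finset.prod_le_one (fun _ _ => norm_nonneg _)
  intro l _
  rw [norm_prod]
  apply Finset.prod_le_one (fun _ _ => norm_nonneg _)
  intro j _
  exact (mob_lt (hw l) (iter_lt hm _ hz)).le

include hw in
lemma er_le (l : Fin (k + 1)) {z : ℂ} (hz : ‖z‖ < 1) :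
    ‖∏ l' ∈ Finset.univ.erase l, mob (w l') z‖ ≤ 1 := by
  rw [norm_prod]
  apply Finset.prod_le_one (fun _ _ => norm_nonneg _)
  intro j _
  exact (mob_lt (hw j) hz).le

include hw in
lemma er_diff (l : Fin (k + 1)) :
    DifferentiableOn ℂ (fun z => ∏ l' ∈ Finset.univ.erase l, mob (w l') z) (ball 0 1) := by
  apply DifferentiableOn.fun_finsetProd
  intro j _
  exact mob_diff (hw j)

include hd hm hw in
lemma Ff_diff (m A : ℕ) (l : Fin (k + 1)) : DifferentiableOn ℂ (Ff φ w m A l) (ball 0 1) := by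
  unfold Ff
  exact (differentiableOn_id.pow A).mul ((Pf_diff hd hm hw m).mul (er_diff hw l))

include hw in
lemma Ff_le' (m A : ℕ) (l : Fin (k + 1)) {z : ℂ} (hz : ‖z‖ < 1) :
    ‖Ff φ w m A l z‖ ≤ ‖z‖ ^ A * ‖Pf φ w m z‖ := by
  unfold Ff
  rw [norm_mul, norm_mul, norm_pow]
  have := er_le hw l hz
  calc ‖z‖ ^ A * (‖Pf φ w m z‖ * ‖∏ l' ∈ Finset.univ.erase l, mob (w l') z‖)
      ≤ ‖z‖ ^ A * (‖Pf φ w m z‖ * 1) := by gcongr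
    _ = _ := by ring

include hm hw in
lemma Ff_le (m A : ℕ) (l : Fin (k + 1)) {z : ℂ} (hz : ‖z‖ < 1) :
    ‖Ff φ w m A l z‖ ≤ 1 := by
  refine (Ff_le' hw m A l hz).trans ?_
  have h1 := Pf_le hm hw m hz
  have h2 : ‖z‖ ^ A ≤ 1 := pow_le_one₀ (norm_nonneg _) hz.le
  exact mul_le_one₀ h2 (norm_nonneg _) h1

lemma Pf_step (m : ℕ) (z : ℂ) :
    Pf φ w m (φ z) * ∏ l, mob (w l) (φ z) = Pf φ w m z * ∏ l, mob (w l) (φ^[m + 1] z) := by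
  unfold Pf
  rw [← Finset.prod_mul_distrib, ← Finset.prod_mul_distrib]
  apply Finset.prod_congr rfl
  intro l _
  have h1 := Finset.prod_range_succ' (fun j => mob (w l) (φ^[j + 1] z)) m
  have h2 := Finset.prod_range_succ (fun j => mob (w l) (φ^[j + 1] z)) m
  rw [h2] at h1
  rw [h1]
  rfl

include hm hw in
lemma Pf_iter {s₀ β : ℝ} (hs₀ : s₀ < 1) (hβ0 : 0 < β)
    (hst : ∀ z : ℂ, ‖z‖ ≤ s₀ → ‖φ z‖ ≤ s₀)
    (hβ : ∀ z : ℂ, ‖z‖ ≤ s₀ → ∀ l, β ≤ ‖mob (w l) (φ z)‖) (m i : ℕ) {u : ℂ} (hu : ‖u‖ ≤ s₀) :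
    ‖φ^[i] u‖ ≤ s₀ ∧ (β ^ (k + 1)) ^ i * ‖Pf φ w m (φ^[i] u)‖ ≤ ‖Pf φ w m u‖ := by
  induction i with
  | zero => exact ⟨hu, by simp⟩
  | succ i ih =>
    obtain ⟨ih1, ih2⟩ := ih
    rw [Function.iterate_succ_apply']
    refine ⟨hst _ ih1, ?_⟩
    set v := φ^[i] u with hv
    have h1 := congrArg norm (Pf_step (φ := φ) (w := w) m v)
    rw [norm_mul, norm_mul, norm_prod, norm_prod] at h1
    have h2 : β ^ (k + 1) ≤ ∏ l, ‖mob (w l) (φ v)‖ := by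
      calc β ^ (k + 1) = ∏ _l : Fin (k + 1), β := by simp
        _ ≤ _ := Finset.prod_le_prod (fun _ _ => hβ0.le) (fun l _ => hβ v ih1 l)
    have h3 : ∏ l, ‖mob (w l) (φ^[m + 1] v)‖ ≤ 1 := by
      apply Finset.prod_le_one (fun _ _ => norm_nonneg _)
      intro l _
      exact (mob_lt (hw l) (iter_lt hm _ (ih1.trans_lt hs₀))).le
    have h4 : β ^ (k + 1) * ‖Pf φ w m (φ v)‖ ≤ ‖Pf φ w m v‖ := by
      calc β ^ (k + 1) * ‖Pf φ w m (φ v)‖ ≤ (∏ l, ‖mob (w l) (φ v)‖) * ‖Pf φ w m (φ v)‖ := by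
            gcongr
        _ = ‖Pf φ w m v‖ * ∏ l, ‖mob (w l) (φ^[m + 1] v)‖ := by rw [mul_comm]; exact h1
        _ ≤ ‖Pf φ w m v‖ * 1 := by gcongr
        _ = _ := mul_one _
    calc (β ^ (k + 1)) ^ (i + 1) * ‖Pf φ w m (φ v)‖ =
        (β ^ (k + 1)) ^ i * (β ^ (k + 1) * ‖Pf φ w m (φ v)‖) := by ring
      _ ≤ (β ^ (k + 1)) ^ i * ‖Pf φ w m v‖ := by gcongr
      _ ≤ _ := ih2

/-- iterating the functional equation -/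
lemma iter_eq {g F : ℂ → ℂ} {μ : ℂ} (hμ : μ ≠ 0) (hm : ∀ z : ℂ, ‖z‖ < 1 → ‖φ z‖ < 1)
    (hgF : ∀ z : ℂ, ‖z‖ < 1 → g (φ z) = μ * g z + F z) (m : ℕ) {z : ℂ} (hz : ‖z‖ < 1) :
    (μ⁻¹) ^ m * g (φ^[m] z) = g z + ∑ i ∈ Finset.range m, (μ⁻¹) ^ (i + 1) * F (φ^[i] z) := by
  induction m with
  | zero => simp
  | succ m ih =>
    rw [Finset.sum_range_succ, ← add_assoc, ← ih, Function.iterate_succ_apply',
      hgF _ (iter_lt hm m hz)]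
    have e : μ⁻¹ * μ = 1 := inv_mul_cancel₀ hμ
    linear_combination ((μ⁻¹) ^ m * g (φ^[m] z)) * e

/-- lower bound at the special point -/
lemma lower {g F : ℂ → ℂ} {μ : ℂ} (hμ : μ ≠ 0) (hm : ∀ z : ℂ, ‖z‖ < 1 → ‖φ z‖ < 1)
    (hgF : ∀ z : ℂ, ‖z‖ < 1 → g (φ z) = μ * g z + F z) {u : ℂ} (hu : ‖u‖ < 1)
    {D θ : ℝ} (hθ0 : 0 ≤ θ) (hθ : θ ≤ 1 / 2) (hD : 0 ≤ D)
    (hF : ∀ i : ℕ, ‖μ‖⁻¹ ^ i * ‖F (φ^[i] u)‖ ≤ D * θ ^ i) (hDF : 4 * D * θ ≤ ‖F u‖)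
    (hlim : Tendsto (fun m : ℕ => ‖μ‖⁻¹ ^ m * ‖g (φ^[m] u)‖) atTop (𝓝 0)) :
    ‖F u‖ ≤ 2 * ‖μ‖ * ‖g u‖ := by
  have hμ0 : 0 < ‖μ‖ := norm_pos_iff.2 hμ
  have key : ∀ m : ℕ, ‖μ‖⁻¹ * (‖F u‖ - 2 * D * θ) ≤
      ‖g u‖ + ‖μ‖⁻¹ ^ (m + 1) * ‖g (φ^[m + 1] u)‖ := by
    intro m
    have h1 := iter_eq hμ hm hgF (m + 1) hu
    rw [Finset.sum_range_succ'] at h1
    have h2 : μ⁻¹ * F u = (μ⁻¹) ^ (m + 1) * g (φ^[m + 1] u) - g u -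
        ∑ i ∈ Finset.range m, (μ⁻¹) ^ (i + 1 + 1) * F (φ^[i + 1] u) := by
      rw [h1]; simp
    have h3 : ‖μ‖⁻¹ * ‖F u‖ ≤ ‖μ‖⁻¹ ^ (m + 1) * ‖g (φ^[m + 1] u)‖ + ‖g u‖ +
        ∑ i ∈ Finset.range m, ‖μ‖⁻¹ ^ (i + 1 + 1) * ‖F (φ^[i + 1] u)‖ := by
      rw [← norm_inv, ← norm_mul, h2]
      refine (norm_sub_le _ _).trans ?_
      gcongr
      · refine (norm_sub_le _ _).trans ?_
        rw [norm_mul, norm_pow]
      · refine (norm_sum_le _ _).trans ?_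
        apply Finset.sum_le_sum
        intro i _
        rw [norm_mul, norm_pow]
    have h4 : ∑ i ∈ Finset.range m, ‖μ‖⁻¹ ^ (i + 1 + 1) * ‖F (φ^[i + 1] u)‖ ≤
        ‖μ‖⁻¹ * (2 * D * θ) := by
      calc ∑ i ∈ Finset.range m, ‖μ‖⁻¹ ^ (i + 1 + 1) * ‖F (φ^[i + 1] u)‖
          ≤ ∑ i ∈ Finset.range m, ‖μ‖⁻¹ * (D * θ) * (1 / 2) ^ i := by
            apply Finset.sum_le_sum
            intro i _
            calc ‖μ‖⁻¹ ^ (i + 1 + 1) * ‖F (φ^[i + 1] u)‖ =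
                ‖μ‖⁻¹ * (‖μ‖⁻¹ ^ (i + 1) * ‖F (φ^[i + 1] u)‖) := by ring
              _ ≤ ‖μ‖⁻¹ * (D * θ ^ (i + 1)) :=
                mul_le_mul_of_nonneg_left (hF (i + 1)) (by positivity)
              _ = ‖μ‖⁻¹ * (D * θ) * θ ^ i := by ring
              _ ≤ ‖μ‖⁻¹ * (D * θ) * (1 / 2) ^ i := by gcongr
        _ = ‖μ‖⁻¹ * (D * θ) * ∑ i ∈ Finset.range m, (1 / 2 : ℝ) ^ i := by
            rw [Finset.mul_sum]
        _ ≤ ‖μ‖⁻¹ * (D * θ) * 2 := by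
            gcongr
            exact sum_geometric_two_le m
        _ = _ := by ring
    rw [mul_sub]
    linarith
  have hlim2 : Tendsto (fun m : ℕ => ‖g u‖ + ‖μ‖⁻¹ ^ (m + 1) * ‖g (φ^[m + 1] u)‖) atTop
      (𝓝 (‖g u‖ + 0)) := ((tendsto_add_atTop_iff_nat 1).2 hlim).const_add _
  rw [add_zero] at hlim2
  have h5 : ‖μ‖⁻¹ * (‖F u‖ - 2 * D * θ) ≤ ‖g u‖ :=
    ge_of_tendsto hlim2 (Eventually.of_forall key)
  rw [inv_mul_le_iff₀ hμ0] at h5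
  linarith

end

end Pool.Agent.Helper742.Bd
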