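import Mathlib
import Pool.Agent.Helper742.BdE

set_option autoImplicit false
open Complex Filter Topology Metric MeasureTheory Set
open scoped Real

namespace Pool.Agent.Helper742.Bd
open Pool.Agent.Helper76.Hardy Pool.Agent.Helper76.Pick

lemma ev_add' (a b : HH) {z : ℂ} (hz : ‖z‖ < 1) : ev (a + b : HH) z = ev a z + ev b z :=
  Pool.Agent.Helper203.Hardy.ev_add a b hz

lemma ev_smul' (c : ℂ) (a : HH) (z : ℂ) : ev (c • a : HH) z = c * ev a z :=
  Pool.Agent.Helper203.Hardy.ev_smul c a z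

lemma ev_sum' {ι : Type*} (s : Finset ι) (α : ι → ℂ) (a : ι → HH) {z : ℂ} (hz : ‖z‖ < 1) :
    ev (∑ l ∈ s, α l • a l : HH) z = ∑ l ∈ s, α l * ev (a l) z := by
  classical
  induction s using Finset.induction_on with
  | empty =>
    simp only [Finset.sum_empty]
    unfold ev
    simp
  | insert i s hi ih =>
    rw [Finset.sum_insert hi, Finset.sum_insert hi, ev_add' _ _ hz, ev_smul', ih]

section
variable {φ : ℂ → ℂ} (hd : DifferentiableOn ℂ φ (ball (0 : ℂ) 1))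
  (hm : ∀ z : ℂ, ‖z‖ < 1 → ‖φ z‖ < 1) (h0 : φ 0 = 0) {k : ℕ} {w : Fin (k + 1) → ℂ}
  (hw : ∀ l, ‖w l‖ < 1)

include hd hm hw in
lemma Ff_dv (m A : ℕ) (l l₀ : Fin (k + 1)) {i : ℕ} (hi : i < m) :
    Dv (w l₀) (φ^[m]) (fun z => Ff φ w m A l (φ^[i] z)) := by
  have hmb : ∀ n, ∀ z ∈ ball (0 : ℂ) 1, ‖φ^[n] z‖ < 1 :=
    fun n z hz => iter_lt hm n (mem_ball_zero_iff.1 hz)
  have hmaps : MapsTo (φ^[i]) (ball (0 : ℂ) 1) (ball 0 1) :=
    fun z hz => mem_ball_zero_iff.2 (hmb i z hz)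
  have h1 : Dv (w l₀) (φ^[m]) (fun z => mob (w l₀) (φ^[m] z)) :=
    Dv_mob (hw l₀) (iter_diff hd hm m) (hmb m)
  have h2 : Dv (w l₀) (φ^[m])
      (fun z => ∏ j ∈ Finset.range m, mob (w l₀) (φ^[j + 1] (φ^[i] z))) := by
    apply Dv.prod (Finset.range m) (g := fun j z => mob (w l₀) (φ^[j + 1] (φ^[i] z)))
      (i := m - 1 - i) (Finset.mem_range.2 (by omega))
    · apply h1.congr
      intro z _
      show mob (w l₀) (φ^[m - 1 - i + 1] (φ^[i] z)) = _
      rw [← Function.iterate_add_apply]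
      congr 2
      have : m - 1 - i + 1 + i = m := by omega
      rw [this]
    · intro j _
      exact (mob_iter_diff hd hm hw l₀ (j + 1)).comp (iter_diff hd hm i) hmaps
  have h3 : Dv (w l₀) (φ^[m]) (fun z => Pf φ w m (φ^[i] z)) := by
    unfold Pf
    apply Dv.prod Finset.univ
      (g := fun l z => ∏ j ∈ Finset.range m, mob (w l) (φ^[j + 1] (φ^[i] z)))
      (i := l₀) (Finset.mem_univ _) h2
    intro l' _
    apply DifferentiableOn.fun_finsetProd
    intro j _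
    exact (mob_iter_diff hd hm hw l' (j + 1)).comp (iter_diff hd hm i) hmaps
  have h4 : DifferentiableOn ℂ (fun z => (φ^[i] z) ^ A *
      ∏ l' ∈ Finset.univ.erase l, mob (w l') (φ^[i] z)) (ball 0 1) :=
    ((iter_diff hd hm i).pow A).mul ((er_diff hw l).comp (iter_diff hd hm i) hmaps)
  apply (h3.mul h4).congr
  intro z _
  unfold Ff
  ring

lemma hgF_of {T : HH →L[ℂ] HH} (hT : ∀ (a : HH) (z : ℂ), ‖z‖ < 1 → ev (T a) z = ev a (φ z))
    {μ : ℂ} {G R : HH} (hG : T G - μ • G = R) {z : ℂ} (hz : ‖z‖ < 1) :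
    ev G (φ z) = μ * ev G z + ev R z := by
  have h1 : T G = μ • G + R := by rw [← hG]; abel
  rw [← hT G z hz, h1, ev_add' _ _ hz, ev_smul']

end

end Pool.Agent.Helper742.Bd
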