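import Mathlib
import Pool.Agent.Helper742.BdF

set_option autoImplicit false
open Complex Filter Topology Metric MeasureTheory Set
open scoped Real

namespace Pool.Agent.Helper742.Bd
open Pool.Agent.Helper76.Hardy Pool.Agent.Helper76.Pick

set_option maxHeartbeats 4000000 in
theorem main_pt {φ : ℂ → ℂ} (hd : DifferentiableOn ℂ φ (ball (0 : ℂ) 1))
    (hm : ∀ z : ℂ, ‖z‖ < 1 → ‖φ z‖ < 1) (h0 : φ 0 = 0)
    {T : HH →L[ℂ] HH} (hT : ∀ (a : HH) (z : ℂ), ‖z‖ < 1 → ev (T a) z = ev a (φ z))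
    {μ : ℂ} (hμ : μ ≠ 0) {k : ℕ} {c : ℝ} (hc : 0 < c)
    (hyp : ∀ A : ℕ, ∀ F : Fin (k + 1) → HH, (∀ l, ∀ n < A, F l n = 0) →
      ∃ α : Fin (k + 1) → ℂ, α ≠ 0 ∧ ∃ G : HH, (∀ n < A, G n = 0) ∧
        T G - μ • G = ∑ l, α l • F l ∧ c * ‖G‖ ≤ ‖T G - μ • G‖)
    {s : Fin (k + 1) → ℝ} {s₀ κ β γ t : ℝ} {J A : ℕ}
    (hs₀0 : 0 < s₀) (hs₀ : s₀ < 1) (hsl : ∀ l, s l ≤ s₀)
    (hκ0 : 0 < κ) (hκ1 : κ < 1) (hκ : ∀ z : ℂ, ‖z‖ ≤ s₀ → ‖φ z‖ ≤ κ * ‖z‖)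
    (hβ0 : 0 < β) (hβ1 : β ≤ 1) (hβ : ∀ l, κ * s₀ + 2 * β ≤ s l)
    (hγ0 : 0 < γ) (hγ1 : γ ≤ 1) (hγ : ∀ l l', l ≠ l' → 2 * γ ≤ |s l - s l'|)
    (ht0 : 0 < t) (ht1 : t ≤ 1) (hJ : ∀ l, t * (1 + κ ^ J) + κ ^ J ≤ s l)
    (hA1 : 1 ≤ A) (hA : 4 * (k + 1) * κ ^ A ≤ γ ^ k * (β ^ (k + 1) * ‖μ‖)) :
    ∃ K : ℝ, 0 ≤ K ∧ ∀ m : ℕ, ∀ w : Fin (k + 1) → ℂ, (∀ l, ‖w l‖ = s l) → ∃ l, ∀ ρ : ℝ,
      0 < ρ → ρ < 1 → Real.circleAverage (fun z => Real.log ‖w l - φ^[m] z‖) 0 ρ ≤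
        Real.log (s l) + K * ((‖μ‖ / t ^ (k + 1)) ^ 2) ^ m := by
  have hμ0 : 0 < ‖μ‖ := norm_pos_iff.2 hμ
  set P0 : ℝ := β ^ A * (γ ^ k * (β ^ J) ^ (k + 1)) with hP0
  have hP0pos : 0 < P0 := by positivity
  refine ⟨((k + 1 : ℝ) / c * (2 * ‖μ‖) / P0) ^ 2 / 2, by positivity, ?_⟩
  intro m w hws
  have hw : ∀ l, ‖w l‖ < 1 := fun l => by rw [hws]; exact (hsl l).trans_lt hs₀
  -- coefficients of the test functions
  have hex : ∀ l, ∃ a : HH, (∀ z ∈ ball (0 : ℂ) 1, ev a z = Ff φ w m A l z) ∧ ‖a‖ ≤ 1 := fun l =>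
    exists_coeff (Ff φ w m A l) 1 (Ff_diff hd hm hw m A l)
      (fun z hz => Ff_le hm hw m A l (mem_ball_zero_iff.1 hz))
  choose a ha1 ha2 using hex
  have ha3 : ∀ l, ∀ n < A, a l n = 0 := by
    intro l
    apply coeff_zero (g := fun z => Pf φ w m z * ∏ l' ∈ Finset.univ.erase l, mob (w l') z) (B := 1)
    · exact (Pf_diff hd hm hw m).mul (er_diff hw l)
    · intro z hz
      have hz' := mem_ball_zero_iff.1 hz
      rw [norm_mul]
      exact mul_le_one₀ (Pf_le hm hw m hz') (norm_nonneg _) (er_le hw l hz')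
    · intro z hz
      exact ha1 l z hz
  obtain ⟨α, hα0, G, hG1, hG2, hG3⟩ := hyp A a ha3
  -- normalise
  obtain ⟨l₀, hl₀⟩ := Finite.exists_max (fun l => ‖α l‖)
  have hαl : α l₀ ≠ 0 := by
    intro h
    apply hα0
    funext l
    have := hl₀ l
    rw [h, norm_zero] at this
    exact norm_le_zero_iff.1 this
  set b : Fin (k + 1) → ℂ := fun l => (α l₀)⁻¹ * α l with hb
  have hbl₀ : b l₀ = 1 := inv_mul_cancel₀ hαl
  have hb1 : ∀ l, ‖b l‖ ≤ 1 := by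
    intro l
    rw [hb]
    show ‖(α l₀)⁻¹ * α l‖ ≤ 1
    rw [norm_mul, norm_inv, inv_mul_le_iff₀ (norm_pos_iff.2 hαl), mul_one]
    exact hl₀ l
  set G' : HH := (α l₀)⁻¹ • G with hG'
  have hG1' : ∀ n < A, G' n = 0 := by
    intro n hn
    show (α l₀)⁻¹ • (G n) = 0
    rw [hG1 n hn, smul_zero]
  have hG2a : T G' - μ • G' = (α l₀)⁻¹ • (T G - μ • G) := by
    rw [hG', map_smul, smul_sub, smul_comm]
  have hG2' : T G' - μ • G' = ∑ l, b l • a l := by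
    rw [hG2a, hG2, Finset.smul_sum]
    apply Finset.sum_congr rfl
    intro l _
    rw [smul_smul]
  have hG3' : c * ‖G'‖ ≤ k + 1 := by
    have h1 : c * ‖G'‖ ≤ ‖T G' - μ • G'‖ := by
      rw [hG2a, hG', norm_smul, norm_smul]
      calc c * (‖(α l₀)⁻¹‖ * ‖G‖) = ‖(α l₀)⁻¹‖ * (c * ‖G‖) := by ring
        _ ≤ _ := mul_le_mul_of_nonneg_left hG3 (norm_nonneg _)
    have h2 : ‖T G' - μ • G'‖ ≤ k + 1 := by
      rw [hG2']
      refine (norm_sum_le _ _).trans ?_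
      calc ∑ l, ‖b l • a l‖ ≤ ∑ _l : Fin (k + 1), (1 : ℝ) := by
            apply Finset.sum_le_sum
            intro l _
            rw [norm_smul]
            exact mul_le_one₀ (hb1 l) (norm_nonneg _) (ha2 l)
        _ = k + 1 := by simp
    exact h1.trans h2
  -- the functions
  set g : ℂ → ℂ := ev G' with hg
  set F : ℂ → ℂ := fun z => ∑ l, b l * Ff φ w m A l z with hF
  have hgF : ∀ z : ℂ, ‖z‖ < 1 → g (φ z) = μ * g z + F z := by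
    intro z hz
    have h1 := hgF_of hT hG2' hz
    rw [ev_sum' _ _ _ hz] at h1
    rw [hg, h1, hF]
    congr 1
    apply Finset.sum_congr rfl
    intro l _
    rw [ha1 l z (mem_ball_zero_iff.2 hz)]
  set u : ℂ := w l₀ with hu
  have hus : ‖u‖ = s l₀ := hws l₀
  have hus₀ : ‖u‖ ≤ s₀ := by rw [hus]; exact hsl l₀
  have hu1 : ‖u‖ < 1 := hw l₀
  have hsβ : ∀ l, β ≤ s l := fun l => by
    have := hβ l
    have h2 : 0 < κ * s₀ := by positivity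
    linarith
  have hu0 : 0 < ‖u‖ := by rw [hus]; exact hβ0.trans_le (hsβ l₀)
  have hune : u ≠ 0 := norm_pos_iff.1 hu0
  -- self-map of the disc of radius s₀
  have hst : ∀ z : ℂ, ‖z‖ ≤ s₀ → ‖φ z‖ ≤ s₀ := fun z hz => by
    refine (hκ z hz).trans ?_
    calc κ * ‖z‖ ≤ 1 * s₀ := by gcongr
      _ = s₀ := one_mul _
  have hβmob : ∀ z : ℂ, ‖z‖ ≤ s₀ → ∀ l, β ≤ ‖mob (w l) (φ z)‖ := by
    intro z hz l
    have h1 : ‖φ z‖ < 1 := hm z (hz.trans_lt hs₀)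
    have h2 : ‖φ z‖ ≤ κ * s₀ := (hκ z hz).trans (by gcongr)
    apply mob_ge (hw l) h1 hβ0.le
    rw [hws l]
    have h3 := hβ l
    refine le_trans ?_ (le_abs_self _)
    nlinarith
  have hit := fun i => Pf_iter hm hw hs₀ hβ0 hst hβmob m i hus₀
  -- value of F at u
  have hFu : F u = Ff φ w m A l₀ u := by
    rw [hF]
    show ∑ l, b l * Ff φ w m A l u = _
    rw [Finset.sum_eq_single l₀]
    · rw [hbl₀, one_mul]
    · intro l _ hl
      have : ∏ l' ∈ Finset.univ.erase l, mob (w l') u = 0 := by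
        apply Finset.prod_eq_zero (Finset.mem_erase.2 ⟨hl.symm, Finset.mem_univ l₀⟩)
        rw [hu]
        exact mob_self _
      unfold Ff
      rw [this]; ring
    · intro h; exact absurd (Finset.mem_univ l₀) h
  have hFu' : ‖u‖ ^ A * (‖Pf φ w m u‖ * γ ^ k) ≤ ‖F u‖ := by
    rw [hFu]
    unfold Ff
    rw [norm_mul, norm_mul, norm_pow, norm_prod]
    have h1 : γ ^ k ≤ ∏ l' ∈ Finset.univ.erase l₀, ‖mob (w l') u‖ := by
      calc γ ^ k = ∏ _l' ∈ Finset.univ.erase l₀, γ := by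
            rw [Finset.prod_const, Finset.card_erase_of_mem (Finset.mem_univ _)]
            simp
        _ ≤ _ := by
            apply Finset.prod_le_prod (fun _ _ => hγ0.le)
            intro l' hl'
            apply mob_ge (hw l') hu1 hγ0.le
            rw [hws l', hus]
            have h3 := hγ l' l₀ (Finset.ne_of_mem_erase hl')
            have h4 : s l₀ < 1 := (hsl l₀).trans_lt hs₀
            refine le_trans ?_ h3
            nlinarith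
    gcongr
  -- bound of F along the orbit
  have hB0 : 0 < β ^ (k + 1) := by positivity
  set θ : ℝ := κ ^ A / (β ^ (k + 1) * ‖μ‖) with hθ
  have hθ0 : 0 ≤ θ := by positivity
  have hθ4 : 4 * (k + 1) * θ ≤ γ ^ k := by
    rw [hθ, ← mul_div_assoc, div_le_iff₀ (by positivity)]
    exact hA
  have hk1 : (1 : ℝ) ≤ k + 1 := by
    have : (0 : ℝ) ≤ k := Nat.cast_nonneg k
    linarith
  have hγk : γ ^ k ≤ 1 := pow_le_one₀ hγ0.le hγ1
  have hθ1 : θ ≤ 1 / 4 := by nlinarith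
  set D : ℝ := (k + 1) * (‖u‖ ^ A * ‖Pf φ w m u‖) with hD
  have hD0 : 0 ≤ D := by positivity
  have hFi : ∀ i : ℕ, ‖μ‖⁻¹ ^ i * ‖F (φ^[i] u)‖ ≤ D * θ ^ i := by
    intro i
    obtain ⟨h1, h2⟩ := hit i
    have h3 : ‖φ^[i] u‖ < 1 := h1.trans_lt hs₀
    have h4 : ‖F (φ^[i] u)‖ ≤ (k + 1) * (‖φ^[i] u‖ ^ A * ‖Pf φ w m (φ^[i] u)‖) := by
      rw [hF]
      refine (norm_sum_le _ _).trans ?_
      calc ∑ l, ‖b l * Ff φ w m A l (φ^[i] u)‖
          ≤ ∑ _l : Fin (k + 1), ‖φ^[i] u‖ ^ A * ‖Pf φ w m (φ^[i] u)‖ := by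
            apply Finset.sum_le_sum
            intro l _
            rw [norm_mul]
            calc ‖b l‖ * ‖Ff φ w m A l (φ^[i] u)‖ ≤ 1 * ‖Ff φ w m A l (φ^[i] u)‖ := by
                  gcongr; exact hb1 l
              _ = ‖Ff φ w m A l (φ^[i] u)‖ := one_mul _
              _ ≤ _ := Ff_le' hw m A l h3
        _ = _ := by simp
    have h5 : ‖φ^[i] u‖ ≤ κ ^ i * ‖u‖ := iter_le_of hκ0.le hκ1.le hκ i hus₀
    have h6 : ‖Pf φ w m (φ^[i] u)‖ ≤ ((β ^ (k + 1)) ^ i)⁻¹ * ‖Pf φ w m u‖ := by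
      rw [← div_eq_inv_mul, le_div_iff₀ (by positivity), mul_comm]
      exact h2
    calc ‖μ‖⁻¹ ^ i * ‖F (φ^[i] u)‖
        ≤ ‖μ‖⁻¹ ^ i * ((k + 1) * (‖φ^[i] u‖ ^ A * ‖Pf φ w m (φ^[i] u)‖)) := by gcongr
      _ ≤ ‖μ‖⁻¹ ^ i * ((k + 1) * ((κ ^ i * ‖u‖) ^ A *
            (((β ^ (k + 1)) ^ i)⁻¹ * ‖Pf φ w m u‖))) := by gcongr
      _ = D * θ ^ i := by
          rw [hD, hθ, div_pow, mul_pow (β ^ (k + 1)), mul_pow (κ ^ i), ← pow_mul κ i A,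
            ← pow_mul κ A i, mul_comm i A, inv_pow]
          field_simp
  have hDF : 4 * D * θ ≤ ‖F u‖ := by
    refine le_trans ?_ hFu'
    calc 4 * D * θ = (‖u‖ ^ A * ‖Pf φ w m u‖) * (4 * (k + 1) * θ) := by rw [hD]; ring
      _ ≤ (‖u‖ ^ A * ‖Pf φ w m u‖) * γ ^ k := by gcongr
      _ = _ := by ring
  have hlim : Tendsto (fun n : ℕ => ‖μ‖⁻¹ ^ n * ‖g (φ^[n] u)‖) atTop (𝓝 0) := by
    have hr : κ ^ A / ‖μ‖ < 1 := by
      have h1 : κ ^ A / ‖μ‖ = θ * β ^ (k + 1) := by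
        rw [hθ]; field_simp
      have h2 : β ^ (k + 1) ≤ 1 := pow_le_one₀ hβ0.le hβ1
      rw [h1]
      calc θ * β ^ (k + 1) ≤ 1 / 4 * 1 := by gcongr
        _ < 1 := by norm_num
    have hr0 : 0 ≤ κ ^ A / ‖μ‖ := by positivity
    have h1 : Tendsto (fun n : ℕ => (‖G'‖ * (1 - s₀)⁻¹) * (κ ^ A / ‖μ‖) ^ n) atTop
        (𝓝 ((‖G'‖ * (1 - s₀)⁻¹) * 0)) :=
      (tendsto_pow_atTop_nhds_zero_of_lt_one hr0 hr).const_mul _
    rw [mul_zero] at h1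
    refine squeeze_zero (fun n => by positivity) (fun n => ?_) h1
    obtain ⟨h2, -⟩ := hit n
    have h3 := ev_small G' hG1' (h2.trans_lt hs₀)
    have h5 : ‖φ^[n] u‖ ≤ κ ^ n * ‖u‖ := iter_le_of hκ0.le hκ1.le hκ n hus₀
    have h6 : ‖φ^[n] u‖ ≤ κ ^ n := by
      refine h5.trans ?_
      exact mul_le_of_le_one_right (by positivity) hu1.le
    have h7 : (1 - ‖φ^[n] u‖)⁻¹ ≤ (1 - s₀)⁻¹ := by
      apply inv_anti₀ (by linarith); linarith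
    have h8 : 0 ≤ (1 - ‖φ^[n] u‖)⁻¹ := inv_nonneg.2 (by linarith)
    calc ‖μ‖⁻¹ ^ n * ‖g (φ^[n] u)‖
        ≤ ‖μ‖⁻¹ ^ n * (‖G'‖ * ‖φ^[n] u‖ ^ A * (1 - ‖φ^[n] u‖)⁻¹) := by gcongr
      _ ≤ ‖μ‖⁻¹ ^ n * (‖G'‖ * (κ ^ n) ^ A * (1 - s₀)⁻¹) := by gcongr
      _ = (‖G'‖ * (1 - s₀)⁻¹) * (κ ^ A / ‖μ‖) ^ n := by
          rw [div_pow, ← pow_mul, ← pow_mul, mul_comm n A, inv_pow]
          field_simp
  have hlow := lower hμ hm hgF hu1 hθ0 (by linarith) hD0 hFi hDF hlim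
  -- lower bound for Π(u)
  have hPi : (β ^ J) ^ (k + 1) * (t ^ (k + 1)) ^ m ≤ ‖Pf φ w m u‖ := by
    unfold Pf
    rw [norm_prod]
    calc (β ^ J) ^ (k + 1) * (t ^ (k + 1)) ^ m = ∏ _l : Fin (k + 1), (β ^ J * t ^ m) := by
          rw [Finset.prod_const, Finset.card_univ, Fintype.card_fin]
          ring
      _ ≤ _ := by
          apply Finset.prod_le_prod (fun _ _ => by positivity)
          intro l _
          rw [norm_prod]
          apply prod_low hβ0 hβ1 ht0 ht1 J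
          · intro j
            rw [Function.iterate_succ_apply']
            exact hβmob _ (hit j).1 l
          · intro j hj
            have h5 : ‖φ^[j + 1] u‖ ≤ κ ^ (j + 1) * ‖u‖ :=
              iter_le_of hκ0.le hκ1.le hκ (j + 1) hus₀
            have h6 : ‖φ^[j + 1] u‖ ≤ κ ^ J := by
              refine h5.trans ?_
              calc κ ^ (j + 1) * ‖u‖ ≤ κ ^ J * 1 :=
                    mul_le_mul (pow_le_pow_of_le_one hκ0.le hκ1.le (by omega)) hu1.le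
                      (norm_nonneg _) (by positivity)
                _ = κ ^ J := mul_one _
            have h7 := hJ l
            apply mob_ge (hw l) ((hit (j + 1)).1.trans_lt hs₀) ht0.le
            rw [hws l]
            refine le_trans ?_ (le_abs_self _)
            nlinarith
  have hgu : P0 * (t ^ (k + 1)) ^ m ≤ 2 * ‖μ‖ * ‖g u‖ := by
    refine le_trans ?_ (hFu'.trans hlow)
    have h1 : β ^ A ≤ ‖u‖ ^ A := by
      have := hsβ l₀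
      rw [← hus] at this
      gcongr
    calc P0 * (t ^ (k + 1)) ^ m =
        β ^ A * (((β ^ J) ^ (k + 1) * (t ^ (k + 1)) ^ m) * γ ^ k) := by rw [hP0]; ring
      _ ≤ ‖u‖ ^ A * (‖Pf φ w m u‖ * γ ^ k) := by gcongr
  have hgu0 : 0 < ‖g u‖ := by
    have h1 : 0 < P0 * (t ^ (k + 1)) ^ m := by positivity
    have h2 : 0 < 2 * ‖μ‖ * ‖g u‖ := h1.trans_le hgu
    by_contra hcon
    push Not at hcon
    have h3 : ‖g u‖ = 0 := le_antisymm hcon (norm_nonneg _)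
    rw [h3, mul_zero] at h2
    exact lt_irrefl _ h2
  have hgune : g u ≠ 0 := norm_pos_iff.1 hgu0
  -- the function f
  set a₀ : HH := (μ ^ m * (g u)⁻¹) • G' with ha₀
  have ha₀ev : ∀ z, ev a₀ z = μ ^ m * (g u)⁻¹ * g z := fun z => by rw [ha₀, ev_smul', hg]
  have hdv : Dv u (φ^[m]) (fun z => 1 - ev a₀ z) := by
    have h1 : Dv u (φ^[m]) (fun z => ev G' u - ev G' (φ^[m] z)) :=
      Dv_ev hu1 G' (iter_diff hd hm m) (fun z hz => iter_lt hm m (mem_ball_zero_iff.1 hz))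
    have h2 : Dv u (φ^[m]) (fun z => ∑ i ∈ Finset.range m,
        (μ ^ m * (μ⁻¹) ^ (i + 1)) * F (φ^[i] z)) := by
      apply Dv.sum (Finset.range m) (g := fun i z => (μ ^ m * (μ⁻¹) ^ (i + 1)) * F (φ^[i] z))
      intro i hi
      have h3 : Dv u (φ^[m]) (fun z => F (φ^[i] z)) := by
        rw [hF]
        apply Dv.sum Finset.univ (g := fun l z => b l * Ff φ w m A l (φ^[i] z))
        intro l _
        exact (Ff_dv hd hm hw m A l l₀ (Finset.mem_range.1 hi)).mul (differentiableOn_const _)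
      exact h3.mul (differentiableOn_const _)
    apply ((h1.add h2).mul (f := fun _ => (g u)⁻¹) (differentiableOn_const _)).congr
    intro z hz
    have h4 := iter_eq hμ hm hgF m (mem_ball_zero_iff.1 hz)
    have h5 : ∑ i ∈ Finset.range m, (μ ^ m * (μ⁻¹) ^ (i + 1)) * F (φ^[i] z) =
        g (φ^[m] z) - μ ^ m * g z := by
      have h6 : ∑ i ∈ Finset.range m, (μ ^ m * (μ⁻¹) ^ (i + 1)) * F (φ^[i] z) =
          μ ^ m * ∑ i ∈ Finset.range m, (μ⁻¹) ^ (i + 1) * F (φ^[i] z) := by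
        rw [Finset.mul_sum]
        apply Finset.sum_congr rfl
        intro i _
        ring
      have h7 : μ ^ m * (μ⁻¹) ^ m = 1 := by rw [← mul_pow, mul_inv_cancel₀ hμ, one_pow]
      rw [h6]
      linear_combination (-μ ^ m) * h4 + g (φ^[m] z) * h7
    show 1 - ev a₀ z = (g u)⁻¹ * ((g u - g (φ^[m] z)) + ∑ i ∈ Finset.range m,
        (μ ^ m * (μ⁻¹) ^ (i + 1)) * F (φ^[i] z))
    rw [h5, ha₀ev]
    field_simp
    ring
  obtain ⟨H, hH1, hH2⟩ := hdv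
  refine ⟨l₀, fun ρ hρ hρ1 => ?_⟩
  have ha₀0 : ev a₀ 0 = 0 := by
    rw [ev_zero', ha₀]
    show (μ ^ m * (g u)⁻¹) • (G' 0) = 0
    rw [hG1' 0 (by omega), smul_zero]
  have hfin := jensen_main (a := a₀) ha₀0 (V := fun z => u - φ^[m] z) (H := H)
    ((differentiableOn_const u).sub (iter_diff hd hm m)) hH1 hH2 (evd a₀) hρ hρ1
  rw [iter_zero h0 m, sub_zero, hus] at hfin
  refine hfin.trans ?_
  have hnorm : ‖a₀‖ ≤ ((k + 1 : ℝ) / c * (2 * ‖μ‖) / P0) * (‖μ‖ / t ^ (k + 1)) ^ m := by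
    rw [ha₀, norm_smul, norm_mul, norm_pow, norm_inv]
    have h1 : ‖G'‖ ≤ (k + 1 : ℝ) / c := by
      rw [le_div_iff₀ hc, mul_comm]; exact hG3'
    have h2 : ‖g u‖⁻¹ ≤ 2 * ‖μ‖ / (P0 * (t ^ (k + 1)) ^ m) := by
      rw [inv_le_iff_one_le_mul₀ hgu0, div_mul_eq_mul_div, one_le_div (by positivity)]
      exact hgu
    calc ‖μ‖ ^ m * ‖g u‖⁻¹ * ‖G'‖ ≤
        ‖μ‖ ^ m * (2 * ‖μ‖ / (P0 * (t ^ (k + 1)) ^ m)) * ((k + 1 : ℝ) / c) := by gcongr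
      _ = _ := by
        rw [div_pow]
        field_simp
  have h8 : ‖a₀‖ ^ 2 ≤ (((k + 1 : ℝ) / c * (2 * ‖μ‖) / P0) * (‖μ‖ / t ^ (k + 1)) ^ m) ^ 2 := by
    gcongr
  have h9 : (((k + 1 : ℝ) / c * (2 * ‖μ‖) / P0) * (‖μ‖ / t ^ (k + 1)) ^ m) ^ 2 =
      ((k + 1 : ℝ) / c * (2 * ‖μ‖) / P0) ^ 2 * ((‖μ‖ / t ^ (k + 1)) ^ 2) ^ m := by
    rw [mul_pow, ← pow_mul, ← pow_mul, mul_comm m 2]
  rw [h9] at h8
  have h10 : Real.log (s l₀) + ‖a₀‖ ^ 2 / 2 ≤ Real.log (s l₀) +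
      ((k + 1 : ℝ) / c * (2 * ‖μ‖) / P0) ^ 2 * ((‖μ‖ / t ^ (k + 1)) ^ 2) ^ m / 2 := by
    linarith
  refine h10.trans (le_of_eq ?_)
  ring

end Pool.Agent.Helper742.Bd
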