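import Mathlib
import Pool.Agent.Helper742.BdG

set_option autoImplicit false
open Complex Filter Topology Metric MeasureTheory Set
open scoped Real

namespace Pool.Agent.Helper742.Bd
open Pool.Agent.Helper76.Hardy Pool.Agent.Helper76.Pick

theorem core (φ : ℂ → ℂ) (hd : DifferentiableOn ℂ φ (ball (0 : ℂ) 1))
    (hm : ∀ z : ℂ, ‖z‖ < 1 → ‖φ z‖ < 1) (h0 : φ 0 = 0)
    (hs : ∀ z : ℂ, ‖z‖ < 1 → z ≠ 0 → ‖φ z‖ < ‖z‖)
    (T : HH →L[ℂ] HH) (hT : ∀ (a : HH) (z : ℂ), ‖z‖ < 1 → ev (T a) z = ev a (φ z))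
    (μ : ℂ) (hμ : μ ≠ 0) (k : ℕ) (c : ℝ) (hc : 0 < c)
    (hyp : ∀ A : ℕ, ∀ F : Fin (k + 1) → HH, (∀ l, ∀ n < A, F l n = 0) →
      ∃ α : Fin (k + 1) → ℂ, α ≠ 0 ∧ ∃ G : HH, (∀ n < A, G n = 0) ∧
        T G - μ • G = ∑ l, α l • F l ∧ c * ‖G‖ ≤ ‖T G - μ • G‖)
    (M : ℝ) (hM : ‖μ‖ < M) (n : ℕ) (hn1 : 1 ≤ n) (hn : ‖deriv φ 0‖ ^ n < ‖μ‖) :
    ∃ C θ : ℝ, 0 ≤ θ ∧ θ < M ∧ ∀ m : ℕ, ∀ ρ : ℝ, 0 ≤ ρ → ρ < 1 →
      Real.circleAverage (fun z => ‖φ^[m] z‖ ^ (2 * n)) 0 ρ ≤ C * θ ^ (2 * m) := by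
  have hμ0 : 0 < ‖μ‖ := norm_pos_iff.2 hμ
  obtain ⟨t, ht0, ht1, htM⟩ : ∃ t : ℝ, 0 < t ∧ t < 1 ∧ ‖μ‖ < M * t ^ (k + 1) := by
    have hc : ContinuousAt (fun t : ℝ => M * t ^ (k + 1)) 1 := by fun_prop
    have h1 : ∀ᶠ t in 𝓝 (1 : ℝ), ‖μ‖ < M * t ^ (k + 1) :=
      hc.eventually_const_lt (by simpa using hM)
    have h2 : ∀ᶠ t in 𝓝 (1 : ℝ), 0 < t := lt_mem_nhds one_pos
    have h3 : ∀ᶠ t in 𝓝[<] (1 : ℝ), ‖μ‖ < M * t ^ (k + 1) ∧ 0 < t :=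
      nhdsWithin_le_nhds (h1.and h2)
    obtain ⟨t, ⟨h4, h5⟩, h6⟩ := (h3.and self_mem_nhdsWithin).exists
    exact ⟨t, h5, h6, h4⟩
  set s₀ : ℝ := (1 + t) / 2 with hs₀
  have hs₀1 : s₀ < 1 := by rw [hs₀]; linarith
  have hs₀t : t < s₀ := by rw [hs₀]; linarith
  have hs₀0 : 0 < s₀ := ht0.trans hs₀t
  obtain ⟨κ, hκ0, hκ1, hκ⟩ := exists_kappa hd h0 hs hs₀0 hs₀1
  set m₀ : ℝ := max t (κ * s₀) with hm₀
  have hm₀s : m₀ < s₀ := by
    apply max_lt hs₀t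
    calc κ * s₀ < 1 * s₀ := by gcongr
      _ = s₀ := one_mul _
  have hm₀0 : 0 < m₀ := ht0.trans_le (le_max_left _ _)
  set d : ℝ := s₀ - m₀ with hdd
  have hd0 : 0 < d := sub_pos.2 hm₀s
  have hd1 : d ≤ 1 := by rw [hdd]; linarith
  have hk0 : (0 : ℝ) < k + 1 := by positivity
  have hk1 : (1 : ℝ) ≤ k + 1 := by
    have : (0 : ℝ) ≤ k := Nat.cast_nonneg k
    linarith
  set s : Fin (k + 1) → ℝ := fun l => m₀ + d * ((l : ℕ) + 1) / (k + 1) with hsdef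
  set β : ℝ := d / (2 * (k + 1)) with hβdef
  have hβ0 : 0 < β := by positivity
  have hβ1 : β ≤ 1 := by
    rw [hβdef, div_le_one (by positivity)]; linarith
  have hβ2 : 2 * β = d / (k + 1) := by rw [hβdef]; field_simp
  have hslow : ∀ l, m₀ + 2 * β ≤ s l := by
    intro l
    rw [hβ2]
    show m₀ + d / (k + 1) ≤ m₀ + d * ((l : ℕ) + 1) / (k + 1)
    have : (0 : ℝ) ≤ ((l : ℕ) : ℝ) := Nat.cast_nonneg _
    gcongr
    nlinarith
  have hsl : ∀ l, s l ≤ s₀ := by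
    intro l
    show m₀ + d * ((l : ℕ) + 1) / (k + 1) ≤ s₀
    have h1 : (((l : ℕ) : ℝ) + 1) ≤ k + 1 := by
      have : ((l : ℕ) : ℝ) ≤ k := by exact_mod_cast Nat.lt_succ_iff.1 l.2
      linarith
    have h2 : d * (((l : ℕ) : ℝ) + 1) / (k + 1) ≤ d := by
      rw [div_le_iff₀ hk0]
      gcongr
    have h3 : s₀ = m₀ + d := by rw [hdd]; ring
    rw [h3]
    linarith
  have hγ : ∀ l l' : Fin (k + 1), l ≠ l' → 2 * β ≤ |s l - s l'| := by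
    intro l l' hne
    have h1 : s l - s l' = d / (k + 1) * (((l : ℕ) : ℝ) - ((l' : ℕ) : ℝ)) := by
      rw [hsdef]
      show m₀ + d * ((l : ℕ) + 1) / (k + 1) - (m₀ + d * ((l' : ℕ) + 1) / (k + 1)) = _
      ring
    have h2 : (1 : ℝ) ≤ |((l : ℕ) : ℝ) - ((l' : ℕ) : ℝ)| := by
      have h3 : ((l : ℕ) : ℤ) - ((l' : ℕ) : ℤ) ≠ 0 := by
        intro h
        apply hne
        apply Fin.ext
        omega
      have h4 : (1 : ℤ) ≤ |((l : ℕ) : ℤ) - ((l' : ℕ) : ℤ)| := Int.one_le_abs h3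
      exact_mod_cast h4
    rw [h1, abs_mul, abs_of_pos (by positivity : 0 < d / (k + 1)), hβ2]
    calc d / (k + 1) = d / (k + 1) * 1 := (mul_one _).symm
      _ ≤ _ := by gcongr
  obtain ⟨J, hJ⟩ := exists_pow_lt_of_lt_one hβ0 hκ1
  have hδ : 0 < β ^ k * (β ^ (k + 1) * ‖μ‖) / (4 * (k + 1)) := by positivity
  obtain ⟨A, hA⟩ := exists_pow_lt_of_lt_one hδ hκ1
  have hA' : 4 * (k + 1) * κ ^ (A + 1) ≤ β ^ k * (β ^ (k + 1) * ‖μ‖) := by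
    have h1 : κ ^ (A + 1) ≤ κ ^ A := pow_le_pow_of_le_one hκ0.le hκ1.le (by omega)
    have h2 := h1.trans hA.le
    rw [le_div_iff₀ (by positivity)] at h2
    linarith
  obtain ⟨K, hK0, hK⟩ := main_pt hd hm h0 hT hμ hc hyp (s := s) (s₀ := s₀) (κ := κ) (β := β)
    (γ := β) (t := t) (J := J) (A := A + 1) hs₀0 hs₀1 hsl hκ0 hκ1 hκ hβ0 hβ1
    (fun l => by
      have h1 := hslow l
      have h2 : κ * s₀ ≤ m₀ := le_max_right _ _
      linarith) hβ0 hβ1 hγ ht0 ht1.le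
    (fun l => by
      have h1 := hslow l
      have h2 : t ≤ m₀ := le_max_left _ _
      have h3 : 0 ≤ κ ^ J := by positivity
      nlinarith) (by omega) hA'
  set b : ℝ := (‖μ‖ / t ^ (k + 1)) ^ 2 with hb
  have hb0 : 0 < b := by positivity
  have hmb : ∀ m, ∀ z ∈ ball (0 : ℂ) 1, ‖φ^[m] z‖ < 1 :=
    fun m z hz => iter_lt hm m (mem_ball_zero_iff.1 hz)
  have hs0 : ∀ l, 0 < s l := fun l => by
    have := hslow l; linarith
  have hq : ∀ m : ℕ, ∀ ρ : ℝ, 0 < ρ → ρ < 1 →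
      Real.circleAverage (fun z => Real.posLog (s₀⁻¹ * ‖φ^[m] z‖)) 0 ρ ≤ K * b ^ m := by
    intro m ρ hρ hρ1
    have hex : ∃ l, ∀ w : ℂ, ‖w‖ = s l →
        Real.circleAverage (fun z => Real.log ‖w - φ^[m] z‖) 0 ρ ≤ Real.log (s l) + K * b ^ m := by
      by_contra hcon
      push Not at hcon
      choose w hw1 hw2 using hcon
      obtain ⟨l, hl⟩ := hK m w hw1
      exact absurd (hl ρ hρ hρ1) (not_le.2 (hw2 l))
    obtain ⟨l, hl⟩ := hex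
    have h1 := avg_posLog (iter_diff hd hm m) (hmb m) hρ hρ1 (hs0 l) ((hsl l).trans hs₀1.le) hl
    refine le_trans ?_ h1
    have hcont : ContinuousOn (fun z => ‖φ^[m] z‖) (sphere (0 : ℂ) |ρ|) := by
      apply ContinuousOn.norm
      apply (iter_diff hd hm m).continuousOn.mono
      exact sphere_subset_closedBall.trans (sph_sub hρ hρ1)
    apply Real.circleAverage_mono
    · exact ContinuousOn.circleIntegrable'
        (Real.continuous_posLog.comp_continuousOn (hcont.const_mul _))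
    · exact ContinuousOn.circleIntegrable'
        (Real.continuous_posLog.comp_continuousOn (hcont.const_mul _))
    · intro z _
      apply Real.posLog_le_posLog (by positivity)
      have := hs0 l
      have h3 : s₀⁻¹ ≤ (s l)⁻¹ := inv_anti₀ this (hsl l)
      gcongr
  have hbn : ‖deriv φ 0‖ ^ (2 * n) < b := by
    have h1 : ‖deriv φ 0‖ ^ (2 * n) = (‖deriv φ 0‖ ^ n) ^ 2 := by rw [← pow_mul, mul_comm]
    have h2 : ‖μ‖ ≤ ‖μ‖ / t ^ (k + 1) := by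
      rw [le_div_iff₀ (by positivity)]
      exact mul_le_of_le_one_right hμ0.le (pow_le_one₀ ht0.le ht1.le)
    rw [h1, hb]
    have h3 : (‖deriv φ 0‖ ^ n) ^ 2 < ‖μ‖ ^ 2 := by gcongr
    have h4 : ‖μ‖ ^ 2 ≤ (‖μ‖ / t ^ (k + 1)) ^ 2 := by gcongr
    linarith
  obtain ⟨C, hC0, hC⟩ := recursion hd hm h0 hs hs₀0 hs₀1 hK0 hb0 hq n hbn
  refine ⟨C, ‖μ‖ / t ^ (k + 1), by positivity, ?_, ?_⟩
  · rw [div_lt_iff₀ (by positivity)]; exact htM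
  · intro m ρ hρ hρ1
    rcases hρ.eq_or_lt with h | h
    · rw [← h, Real.circleAverage_zero, iter_zero h0 m, norm_zero, zero_pow (by omega)]
      positivity
    · have h5 := hC m ρ h hρ1
      rw [hb, ← pow_mul] at h5
      exact h5

end Pool.Agent.Helper742.Bd
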