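import Mathlib

set_option autoImplicit false

namespace Pool.Agent.Helper742

open Finset

/-- Truncated inclusion-exclusion sum over subsets with fewer than `r` elements. -/
noncomputable def E' (u : ℕ → ℝ) (r : ℕ) (T : Finset ℕ) : ℝ :=
  ∑ A ∈ T.powerset with A.card < r, (-1 : ℝ) ^ A.card * ∏ p ∈ A, u p

lemma E'_zero (u : ℕ → ℝ) (T : Finset ℕ) : E' u 0 T = 0 := by
  simp [E']

lemma E'_insert (u : ℕ → ℝ) (r : ℕ) (T : Finset ℕ) (a : ℕ) (ha : a ∉ T) :
    E' u (r + 1) (insert a T) = E' u (r + 1) T - u a * E' u r T := by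
  have hinj : Set.InjOn (insert a) (T.powerset : Set (Finset ℕ)) := by
    intro A hA B hB h
    rw [Finset.mem_coe, Finset.mem_powerset] at hA hB
    have hA' : a ∉ A := fun h' => ha (hA h')
    have hB' : a ∉ B := fun h' => ha (hB h')
    have := congrArg (fun C => C.erase a) h
    simpa [Finset.erase_insert hA', Finset.erase_insert hB'] using this
  have hdisj : Disjoint T.powerset (T.powerset.image (insert a)) := by
    rw [Finset.disjoint_left]
    intro A hA hB
    rw [Finset.mem_powerset] at hA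
    obtain ⟨C, _, rfl⟩ := Finset.mem_image.1 hB
    exact ha (hA (Finset.mem_insert_self a C))
  rw [E', Finset.sum_filter, Finset.powerset_insert, Finset.sum_union hdisj,
    Finset.sum_image hinj, ← Finset.sum_filter, E', E', Finset.mul_sum, sub_eq_add_neg,
    ← Finset.sum_neg_distrib, ← Finset.sum_filter, Finset.sum_filter, Finset.sum_filter,
    Finset.sum_filter]
  congr 1
  apply Finset.sum_congr rfl
  intro A hA
  rw [Finset.mem_powerset] at hA
  have hA' : a ∉ A := fun h' => ha (hA h')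
  rw [Finset.card_insert_of_notMem hA', Finset.prod_insert hA']
  by_cases hc : A.card < r
  · rw [if_pos (by omega), if_pos hc]; ring
  · rw [if_neg (by omega), if_neg hc]

/-- Bonferroni inequalities. -/
lemma bonferroni (u : ℕ → ℝ) (T : Finset ℕ) (h0 : ∀ p ∈ T, 0 ≤ u p) (h1 : ∀ p ∈ T, u p ≤ 1)
    (r : ℕ) : 0 ≤ (-1 : ℝ) ^ r * (∏ p ∈ T, (1 - u p) - E' u r T) := by
  induction T using Finset.induction generalizing r with
  | empty =>
    rcases r with _ | r
    · simp [E']
    · have : E' u (r + 1) ∅ = 1 := by simp [E', Finset.filter_singleton]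
      rw [this]; simp
  | insert a T ha ih =>
    have ih' := ih (fun p hp => h0 p (Finset.mem_insert_of_mem hp))
      (fun p hp => h1 p (Finset.mem_insert_of_mem hp))
    rcases r with _ | r
    · rw [E'_zero, pow_zero, one_mul, sub_zero]
      apply Finset.prod_nonneg
      intro p hp
      have := h1 p hp
      linarith
    · rw [E'_insert u r T a ha, Finset.prod_insert ha]
      have h2 := ih' (r + 1)
      have h3 := ih' r
      have h4 := h0 a (Finset.mem_insert_self a T)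
      have h5 : (-1 : ℝ) ^ (r + 1) * ((1 - u a) * ∏ p ∈ T, (1 - u p)
            - (E' u (r + 1) T - u a * E' u r T))
          = (-1 : ℝ) ^ (r + 1) * (∏ p ∈ T, (1 - u p) - E' u (r + 1) T)
            + u a * ((-1 : ℝ) ^ r * (∏ p ∈ T, (1 - u p) - E' u r T)) := by
        rw [pow_succ]; ring
      rw [h5]
      positivity

lemma bonf_odd (u : ℕ → ℝ) (T : Finset ℕ) (h0 : ∀ p ∈ T, 0 ≤ u p) (h1 : ∀ p ∈ T, u p ≤ 1)
    (r : ℕ) (hr : Odd r) : ∏ p ∈ T, (1 - u p) ≤ E' u r T := by
  have := bonferroni u T h0 h1 r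
  rw [hr.neg_one_pow] at this
  linarith

lemma bonf_even (u : ℕ → ℝ) (T : Finset ℕ) (h0 : ∀ p ∈ T, 0 ≤ u p) (h1 : ∀ p ∈ T, u p ≤ 1)
    (r : ℕ) (hr : Even r) : E' u r T ≤ ∏ p ∈ T, (1 - u p) := by
  have := bonferroni u T h0 h1 r
  rw [hr.neg_one_pow] at this
  linarith

lemma E'_odd_le (u : ℕ → ℝ) (T : Finset ℕ) (h0 : ∀ p ∈ T, 0 ≤ u p) (h1 : ∀ p ∈ T, u p ≤ 1)
    (r : ℕ) (hr : Odd r) (K : ℝ) (hK : 0 < K) :
    E' u r T ≤ ∏ p ∈ T, (1 - u p) + (K⁻¹) ^ r * Real.exp (K * ∑ p ∈ T, u p) := by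
  have h2 : E' u r T = E' u (r + 1) T
      + ∑ A ∈ T.powerset with A.card = r, ∏ p ∈ A, u p := by
    rw [E', E', Finset.sum_filter, Finset.sum_filter, Finset.sum_filter,
      ← Finset.sum_add_distrib]
    apply Finset.sum_congr rfl
    intro A _
    rcases lt_trichotomy A.card r with h | h | h
    · rw [if_pos h, if_pos (by omega), if_neg (by omega)]; ring
    · rw [if_neg (by omega), if_pos (by omega), if_pos h, h, hr.neg_one_pow]; ring
    · rw [if_neg (by omega), if_neg (by omega), if_neg (by omega)]; ring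
  have h3 := bonf_even u T h0 h1 (r + 1) hr.add_one
  have h4 : ∑ A ∈ T.powerset with A.card = r, ∏ p ∈ A, u p
      ≤ (K⁻¹) ^ r * ∏ p ∈ T, (1 + K * u p) := by
    rw [Finset.prod_one_add, Finset.mul_sum, Finset.sum_filter]
    apply Finset.sum_le_sum
    intro A hA
    rw [Finset.mem_powerset] at hA
    have hpr : 0 ≤ ∏ p ∈ A, u p := Finset.prod_nonneg (fun p hp => h0 p (hA hp))
    rw [Finset.prod_mul_distrib, Finset.prod_const]
    split_ifs with h
    · rw [h, ← mul_assoc, ← mul_pow, inv_mul_cancel₀ hK.ne', one_pow, one_mul]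
    · positivity
  have h5 : ∏ p ∈ T, (1 + K * u p) ≤ Real.exp (K * ∑ p ∈ T, u p) := by
    rw [Finset.mul_sum, Real.exp_sum]
    apply Finset.prod_le_prod
    · intro p hp
      have := h0 p hp
      positivity
    · intro p hp
      have := Real.add_one_le_exp (K * u p)
      linarith
  have h6 : (K⁻¹) ^ r * ∏ p ∈ T, (1 + K * u p) ≤ (K⁻¹) ^ r * Real.exp (K * ∑ p ∈ T, u p) :=
    mul_le_mul_of_nonneg_left h5 (by positivity)
  linarith

/-- Sum over a full product period of periodic functions with coprime periods. -/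
lemma sum_crt (q Q : ℕ) (hq : 0 < q) (hQ : 0 < Q) (hc : Nat.Coprime q Q) (f F : ℕ → ℝ)
    (hf : ∀ n, f (n % q) = f n) (hF : ∀ n, F (n % Q) = F n) :
    ∑ n ∈ range (q * Q), f n * F n = (∑ n ∈ range q, f n) * ∑ n ∈ range Q, F n := by
  rw [Finset.sum_mul_sum, ← Finset.sum_product']
  refine Finset.sum_nbij' (fun n => (n % q, n % Q))
    (fun ab => (Nat.chineseRemainder hc ab.1 ab.2 : ℕ)) ?_ ?_ ?_ ?_ ?_
  · intro n _
    simp only [Finset.mem_product, Finset.mem_range]
    exact ⟨Nat.mod_lt _ hq, Nat.mod_lt _ hQ⟩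
  · intro ab _
    rw [Finset.mem_range]
    exact Nat.chineseRemainder_lt_mul hc ab.1 ab.2 hq.ne' hQ.ne'
  · intro n hn
    rw [Finset.mem_range] at hn
    have h1 := (Nat.chineseRemainder hc (n % q) (n % Q)).2
    have h2 : (Nat.chineseRemainder hc (n % q) (n % Q) : ℕ) ≡ n [MOD q] :=
      h1.1.trans (Nat.mod_modEq n q)
    have h3 : (Nat.chineseRemainder hc (n % q) (n % Q) : ℕ) ≡ n [MOD Q] :=
      h1.2.trans (Nat.mod_modEq n Q)
    have h4 := (Nat.modEq_and_modEq_iff_modEq_mul hc).1 ⟨h2, h3⟩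
    exact Nat.ModEq.eq_of_lt_of_lt h4
      (Nat.chineseRemainder_lt_mul hc _ _ hq.ne' hQ.ne') hn
  · intro ab hab
    simp only [Finset.mem_product, Finset.mem_range] at hab
    have h1 := (Nat.chineseRemainder hc ab.1 ab.2).2
    have h2 : (Nat.chineseRemainder hc ab.1 ab.2 : ℕ) % q = ab.1 := by
      rw [h1.1, Nat.mod_eq_of_lt hab.1]
    have h3 : (Nat.chineseRemainder hc ab.1 ab.2 : ℕ) % Q = ab.2 := by
      rw [h1.2, Nat.mod_eq_of_lt hab.2]
    exact Prod.ext h2 h3
  · intro n _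
    simp only
    rw [hf, hF]

/-- Mean over a period. -/
noncomputable def mean (u : ℕ → ℕ → ℝ) (p : ℕ) : ℝ := (∑ n ∈ range p, u p n) / p

lemma sum_prod_period (A : Finset ℕ) (hA : ∀ p ∈ A, p.Prime) (u : ℕ → ℕ → ℝ)
    (hper : ∀ p ∈ A, ∀ n, u p (n % p) = u p n) :
    ∑ n ∈ range (∏ p ∈ A, p), ∏ p ∈ A, u p n = ∏ p ∈ A, ∑ n ∈ range p, u p n := by
  induction A using Finset.induction with
  | empty => simp
  | insert q A hq ih =>
    have hqp : q.Prime := hA q (Finset.mem_insert_self q A)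
    have hA' : ∀ p ∈ A, p.Prime := fun p hp => hA p (Finset.mem_insert_of_mem hp)
    have hper' : ∀ p ∈ A, ∀ n, u p (n % p) = u p n :=
      fun p hp => hper p (Finset.mem_insert_of_mem hp)
    rw [Finset.prod_insert hq, Finset.prod_insert hq, ← ih hA' hper']
    have hc : Nat.Coprime q (∏ p ∈ A, p) := by
      apply Nat.Coprime.prod_right
      intro p hp
      rw [Nat.coprime_primes hqp (hA' p hp)]
      rintro rfl
      exact hq hp
    have hQ : 0 < ∏ p ∈ A, p := Finset.prod_pos (fun p hp => (hA' p hp).pos)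
    rw [← sum_crt q (∏ p ∈ A, p) hqp.pos hQ hc (fun n => u q n) (fun n => ∏ p ∈ A, u p n)]
    · apply Finset.sum_congr rfl
      intro n _
      rw [Finset.prod_insert hq]
    · exact hper q (Finset.mem_insert_self q A)
    · intro n
      apply Finset.prod_congr rfl
      intro p hp
      rw [← hper' p hp, Nat.mod_mod_of_dvd _ (Finset.dvd_prod_of_mem _ hp), hper' p hp]

/-- Sum of a periodic `[0,1]`-valued function over an initial interval. -/
lemma sum_periodic (Q : ℕ) (hQ : 0 < Q) (G : ℕ → ℝ) (h0 : ∀ n, 0 ≤ G n) (h1 : ∀ n, G n ≤ 1)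
    (hper : ∀ n, G (n % Q) = G n) (X : ℕ) :
    |∑ n ∈ range X, G n - X * ((∑ n ∈ range Q, G n) / Q)| ≤ Q := by
  have hk : ∀ k : ℕ, ∑ n ∈ range (Q * k), G n = k * ∑ n ∈ range Q, G n := by
    intro k
    induction k with
    | zero => simp
    | succ k ih =>
      rw [Nat.mul_succ, Finset.sum_range_add, ih]
      have : ∑ x ∈ range Q, G (Q * k + x) = ∑ n ∈ range Q, G n := by
        apply Finset.sum_congr rfl
        intro x hx
        rw [← hper (Q * k + x), Nat.mul_add_mod]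
        exact hper x
      rw [this]; push_cast; ring
  have hX : X = Q * (X / Q) + X % Q := (Nat.div_add_mod X Q).symm
  have hr : X % Q < Q := Nat.mod_lt X hQ
  set k := X / Q
  set r := X % Q
  have hQ' : (0 : ℝ) < Q := by exact_mod_cast hQ
  have hr' : (r : ℝ) ≤ Q := by exact_mod_cast hr.le
  have hS0 : 0 ≤ ∑ n ∈ range Q, G n := Finset.sum_nonneg (fun n _ => h0 n)
  have hS1 : ∑ n ∈ range Q, G n ≤ Q := by
    calc ∑ n ∈ range Q, G n ≤ ∑ n ∈ range Q, (1 : ℝ) := Finset.sum_le_sum (fun n _ => h1 n)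
      _ = Q := by simp
  have hT0 : 0 ≤ ∑ x ∈ range r, G (Q * k + x) := Finset.sum_nonneg (fun n _ => h0 _)
  have hT1 : ∑ x ∈ range r, G (Q * k + x) ≤ r := by
    calc ∑ x ∈ range r, G (Q * k + x) ≤ ∑ n ∈ range r, (1 : ℝ) :=
          Finset.sum_le_sum (fun n _ => h1 _)
      _ = r := by simp
  have hm0 : 0 ≤ (∑ n ∈ range Q, G n) / Q := by positivity
  have hm1 : (∑ n ∈ range Q, G n) / Q ≤ 1 := by rw [div_le_one hQ']; exact hS1
  have hmain : ∑ n ∈ range X, G n - X * ((∑ n ∈ range Q, G n) / Q)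
      = ∑ x ∈ range r, G (Q * k + x) - r * ((∑ n ∈ range Q, G n) / Q) := by
    conv_lhs => rw [hX]
    rw [Finset.sum_range_add, hk]
    push_cast
    field_simp
    ring
  rw [hmain, abs_le]
  have hrm0 : 0 ≤ (r : ℝ) * ((∑ n ∈ range Q, G n) / Q) := by positivity
  have hrm1 : (r : ℝ) * ((∑ n ∈ range Q, G n) / Q) ≤ r := by
    have : (0 : ℝ) ≤ r := by positivity
    nlinarith
  constructor <;> linarith

/-- Brun's pure sieve with general local weights. -/
theorem brun (T : Finset ℕ) (y r : ℕ) (hy : 1 ≤ y) (hr : Odd r)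
    (hT : ∀ p ∈ T, p.Prime ∧ p ≤ y) (u : ℕ → ℕ → ℝ)
    (hu0 : ∀ p ∈ T, ∀ n, 0 ≤ u p n) (hu1 : ∀ p ∈ T, ∀ n, u p n ≤ 1)
    (hper : ∀ p ∈ T, ∀ n, u p (n % p) = u p n) (K : ℝ) (hK : 0 < K) (X : ℕ) :
    ∑ n ∈ range X, ∏ p ∈ T, (1 - u p n)
      ≤ X * (∏ p ∈ T, (1 - mean u p) + (K⁻¹) ^ r * Real.exp (K * ∑ p ∈ T, mean u p))
        + 3 * (y : ℝ) ^ (2 * r) := by
  have hm0 : ∀ p ∈ T, 0 ≤ mean u p := fun p hp =>
    div_nonneg (Finset.sum_nonneg (fun n _ => hu0 p hp n)) (by positivity)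
  have hm1 : ∀ p ∈ T, mean u p ≤ 1 := by
    intro p hp
    have hpp : (0 : ℝ) < p := by exact_mod_cast (hT p hp).1.pos
    rw [mean, div_le_one hpp]
    calc ∑ n ∈ range p, u p n ≤ ∑ n ∈ range p, (1 : ℝ) :=
          Finset.sum_le_sum (fun n _ => hu1 p hp n)
      _ = p := by simp
  have hy' : (1 : ℝ) ≤ y := by exact_mod_cast hy
  -- step 1
  have h1 : ∑ n ∈ range X, ∏ p ∈ T, (1 - u p n)
      ≤ ∑ n ∈ range X, E' (fun p => u p n) r T := by
    apply Finset.sum_le_sum
    intro n _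
    exact bonf_odd (fun p => u p n) T (fun p hp => hu0 p hp n) (fun p hp => hu1 p hp n) r hr
  have h2 : ∑ n ∈ range X, E' (fun p => u p n) r T
      = ∑ A ∈ T.powerset with A.card < r, (-1 : ℝ) ^ A.card * ∑ n ∈ range X, ∏ p ∈ A, u p n := by
    simp only [E']
    rw [Finset.sum_comm]
    apply Finset.sum_congr rfl
    intro A _
    rw [Finset.mul_sum]
  have h3 : ∀ A ∈ T.powerset.filter (fun A => A.card < r),
      (-1 : ℝ) ^ A.card * ∑ n ∈ range X, ∏ p ∈ A, u p n
        ≤ X * ((-1 : ℝ) ^ A.card * ∏ p ∈ A, mean u p)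
          + (y : ℝ) ^ (2 * r) * ∏ p ∈ A, (y : ℝ)⁻¹ := by
    intro A hA
    rw [Finset.mem_filter, Finset.mem_powerset] at hA
    obtain ⟨hA, hcard⟩ := hA
    have hAp : ∀ p ∈ A, p.Prime := fun p hp => (hT p (hA hp)).1
    have hQ : 0 < ∏ p ∈ A, p := Finset.prod_pos (fun p hp => (hAp p hp).pos)
    have h4 := sum_periodic (∏ p ∈ A, p) hQ (fun n => ∏ p ∈ A, u p n)
      (fun n => Finset.prod_nonneg (fun p hp => hu0 p (hA hp) n))
      (fun n => Finset.prod_le_one (fun p hp => hu0 p (hA hp) n) (fun p hp => hu1 p (hA hp) n))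
      (by
        intro n
        apply Finset.prod_congr rfl
        intro p hp
        rw [← hper p (hA hp), Nat.mod_mod_of_dvd _ (Finset.dvd_prod_of_mem _ hp),
          hper p (hA hp)]) X
    rw [sum_prod_period A hAp u (fun p hp => hper p (hA hp))] at h4
    have h5 : (∏ p ∈ A, ∑ n ∈ range p, u p n) / ((∏ p ∈ A, p : ℕ) : ℝ)
        = ∏ p ∈ A, mean u p := by
      simp only [mean]
      rw [Finset.prod_div_distrib]
      push_cast
      rfl
    rw [h5] at h4
    have h6 : ((∏ p ∈ A, p : ℕ) : ℝ) ≤ (y : ℝ) ^ (2 * r) * ∏ p ∈ A, (y : ℝ)⁻¹ := by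
      rw [Finset.prod_const]
      have h7 : ((∏ p ∈ A, p : ℕ) : ℝ) ≤ (y : ℝ) ^ A.card := by
        push_cast
        calc ∏ p ∈ A, (p : ℝ) ≤ ∏ p ∈ A, (y : ℝ) := by
              apply Finset.prod_le_prod
              · intro p _; positivity
              · intro p hp; exact_mod_cast (hT p (hA hp)).2
          _ = _ := by rw [Finset.prod_const]
      have h8 : (y : ℝ) ^ A.card * (y : ℝ) ^ A.card ≤ (y : ℝ) ^ (2 * r) := by
        rw [← pow_add]
        exact pow_le_pow_right₀ hy' (by omega)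
      rw [inv_pow, ← div_eq_mul_inv, le_div_iff₀ (by positivity)]
      calc _ ≤ (y : ℝ) ^ A.card * (y : ℝ) ^ A.card := by gcongr
        _ ≤ _ := h8
    have h9 := abs_le.1 (h4.trans h6)
    rcases Nat.even_or_odd A.card with he | ho
    · rw [he.neg_one_pow]
      linarith [h9.2]
    · rw [ho.neg_one_pow]
      linarith [h9.1]
  have h10 : ∑ A ∈ T.powerset with A.card < r, (y : ℝ) ^ (2 * r) * ∏ p ∈ A, (y : ℝ)⁻¹
      ≤ 3 * (y : ℝ) ^ (2 * r) := by
    rw [← Finset.mul_sum, mul_comm]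
    apply mul_le_mul_of_nonneg_right _ (by positivity)
    calc ∑ A ∈ T.powerset with A.card < r, ∏ p ∈ A, (y : ℝ)⁻¹
        ≤ ∑ A ∈ T.powerset, ∏ p ∈ A, (y : ℝ)⁻¹ := by
          apply Finset.sum_le_sum_of_subset_of_nonneg (Finset.filter_subset _ _)
          intro A _ _
          exact Finset.prod_nonneg (fun p _ => by positivity)
      _ = ∏ p ∈ T, (1 + (y : ℝ)⁻¹) := by rw [Finset.prod_one_add]
      _ ≤ ∏ p ∈ T, Real.exp ((y : ℝ)⁻¹) := by
          apply Finset.prod_le_prod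
          · intro p _; positivity
          · intro p _
            have := Real.add_one_le_exp ((y : ℝ)⁻¹)
            linarith
      _ = Real.exp (T.card * (y : ℝ)⁻¹) := by
          rw [Finset.prod_const, ← Real.exp_nat_mul]
      _ ≤ Real.exp 1 := by
          apply Real.exp_le_exp.2
          have hc : T.card ≤ y := by
            calc T.card ≤ (Finset.Icc 1 y).card := by
                  apply Finset.card_le_card
                  intro p hp
                  rw [Finset.mem_Icc]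
                  exact ⟨(hT p hp).1.one_le, (hT p hp).2⟩
              _ = y := by simp
          have hc' : (T.card : ℝ) ≤ y := by exact_mod_cast hc
          rw [← div_eq_mul_inv, div_le_one (by linarith)]
          exact hc'
      _ ≤ 3 := by
          have := Real.exp_one_lt_d9
          linarith
  have h11 : ∑ A ∈ T.powerset with A.card < r,
      (X * ((-1 : ℝ) ^ A.card * ∏ p ∈ A, mean u p) + (y : ℝ) ^ (2 * r) * ∏ p ∈ A, (y : ℝ)⁻¹)
      = X * E' (mean u) r T
        + ∑ A ∈ T.powerset with A.card < r, (y : ℝ) ^ (2 * r) * ∏ p ∈ A, (y : ℝ)⁻¹ := by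
    rw [Finset.sum_add_distrib, E', Finset.mul_sum]
  have h12 := E'_odd_le (mean u) T hm0 hm1 r hr K hK
  have h13 := Finset.sum_le_sum h3
  rw [h11] at h13
  have h14 : (X : ℝ) * E' (mean u) r T
      ≤ X * (∏ p ∈ T, (1 - mean u p) + (K⁻¹) ^ r * Real.exp (K * ∑ p ∈ T, mean u p)) :=
    mul_le_mul_of_nonneg_left h12 (by positivity)
  linarith

end Pool.Agent.Helper742
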