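import Mathlib

set_option autoImplicit false

namespace Pool.Agent.Helper742

open Finset

/-- Sum of reciprocals of the primes up to `n`. -/
noncomputable def SP (n : ℕ) : ℝ := ∑ p ∈ Nat.primesLE n, (1 : ℝ) / p

/-- Sum of `log p / p` over the primes up to `n`. -/
noncomputable def LP (n : ℕ) : ℝ := ∑ p ∈ Nat.primesLE n, Real.log p / p

lemma fact_div_le (n p : ℕ) (hp : p.Prime) : n / p ≤ (n.factorial).factorization p := by
  rw [Nat.factorization_factorial hp (b := Nat.log p n + 2) (by omega)]
  have h1 : (1 : ℕ) ∈ Finset.Ico 1 (Nat.log p n + 2) := by simp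
  calc n / p = n / p ^ 1 := by simp
    _ ≤ _ := Finset.single_le_sum (f := fun i => n / p ^ i) (fun i _ => Nat.zero_le _) h1

lemma div_ge_real (n p : ℕ) (hp : 0 < p) : (n : ℝ) / p - 1 ≤ ((n / p : ℕ) : ℝ) := by
  have h := Nat.div_add_mod n p
  have h2 := Nat.mod_lt n hp
  have hp' : (0 : ℝ) < p := by exact_mod_cast hp
  rw [sub_le_iff_le_add, div_le_iff₀ hp']
  have h3 : n ≤ (n / p + 1) * p := by nlinarith
  exact_mod_cast h3

lemma LP_le (n : ℕ) (hn : 1 ≤ n) : LP n ≤ Real.log n + Real.log 4 := by
  have hn' : (0 : ℝ) < n := by exact_mod_cast hn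
  have h1 : Real.log (n.factorial : ℝ) ≤ n * Real.log n := by
    have : ((n.factorial : ℕ) : ℝ) ≤ (n : ℝ) ^ n := by exact_mod_cast Nat.factorial_le_pow n
    calc Real.log (n.factorial : ℝ) ≤ Real.log ((n : ℝ) ^ n) :=
          Real.log_le_log (by exact_mod_cast Nat.factorial_pos n) this
      _ = n * Real.log n := by rw [Real.log_pow]
  have h2 : Real.log (n.factorial : ℝ)
      = ∑ p ∈ Nat.primesLE n, ((n.factorial).factorization p : ℝ) * Real.log p := by
    rw [Real.log_nat_eq_sum_factorization]
    apply Finsupp.sum_of_support_subset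
    · intro p hp
      rw [Nat.support_factorization, Nat.mem_primeFactors] at hp
      rw [Nat.mem_primesLE]
      exact ⟨(hp.1.dvd_factorial).1 hp.2.1, hp.1⟩
    · intro i _; simp
  have h3 : ∑ p ∈ Nat.primesLE n, ((n : ℝ) / p - 1) * Real.log p
      ≤ ∑ p ∈ Nat.primesLE n, ((n.factorial).factorization p : ℝ) * Real.log p := by
    apply Finset.sum_le_sum
    intro p hp
    have hpp := Nat.prime_of_mem_primesLE hp
    apply mul_le_mul_of_nonneg_right _ (Real.log_nonneg (by exact_mod_cast hpp.one_lt.le))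
    exact (div_ge_real n p hpp.pos).trans (by exact_mod_cast fact_div_le n p hpp)
  have h4 : ∑ p ∈ Nat.primesLE n, ((n : ℝ) / p - 1) * Real.log p
      = n * LP n - ∑ p ∈ Nat.primesLE n, Real.log p := by
    rw [LP, Finset.mul_sum, ← Finset.sum_sub_distrib]
    apply Finset.sum_congr rfl
    intro p hp
    ring
  have h5 : ∑ p ∈ Nat.primesLE n, Real.log p ≤ Real.log 4 * n := by
    rw [← Chebyshev.theta_eq_sum_primesLE_log]
    exact Chebyshev.theta_le_log4_mul_x (by positivity)
  have h6 : n * LP n ≤ n * (Real.log n + Real.log 4) := by nlinarith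
  exact le_of_mul_le_mul_left h6 hn'

lemma primesLE_succ_sum (f : ℕ → ℝ) (n : ℕ) :
    ∑ p ∈ Nat.primesLE (n + 1), f p
      = ∑ p ∈ Nat.primesLE n, f p + (if (n + 1).Prime then f (n + 1) else 0) := by
  rw [Nat.primesLE_eq_filter_range, Nat.primesLE_eq_filter_range, Finset.sum_filter,
    Finset.sum_filter, Finset.sum_range_succ]

lemma LP_nonneg (n : ℕ) : 0 ≤ LP n := by
  apply Finset.sum_nonneg
  intro p hp
  have hpp := Nat.prime_of_mem_primesLE hp
  exact div_nonneg (Real.log_nonneg (by exact_mod_cast hpp.one_lt.le)) (by positivity)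

lemma SP_nonneg (n : ℕ) : 0 ≤ SP n := by
  apply Finset.sum_nonneg
  intro p hp
  positivity

lemma SP_aux (n : ℕ) (hn : 2 ≤ n) :
    SP n - LP n / Real.log n
      ≤ Real.log (Real.log n) - Real.log (Real.log 2)
        + Real.log 4 * (1 / Real.log 2 - 1 / Real.log n) := by
  induction n, hn using Nat.le_induction with
  | base =>
    have h2 : Nat.primesLE 2 = {2} := by decide
    have hl : Real.log 2 ≠ 0 := (Real.log_pos (by norm_num)).ne'
    simp only [SP, LP, h2, Finset.sum_singleton]
    push_cast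
    field_simp
    simp
  | succ n hn ih =>
    have hn' : (2 : ℝ) ≤ n := by exact_mod_cast hn
    have hln : 0 < Real.log n := Real.log_pos (by linarith)
    have hln1 : 0 < Real.log ((n + 1 : ℕ) : ℝ) := Real.log_pos (by push_cast; linarith)
    have hlt : Real.log n < Real.log ((n + 1 : ℕ) : ℝ) :=
      Real.log_lt_log (by linarith) (by push_cast; linarith)
    have hS : SP (n + 1) = SP n + (if (n + 1).Prime then (1 : ℝ) / ((n + 1 : ℕ) : ℝ) else 0) :=
      primesLE_succ_sum (fun p => (1 : ℝ) / p) n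
    have hL : LP (n + 1) = LP n + (if (n + 1).Prime then
        Real.log ((n + 1 : ℕ) : ℝ) / ((n + 1 : ℕ) : ℝ) else 0) :=
      primesLE_succ_sum (fun p => Real.log p / p) n
    have key : SP (n + 1) - LP (n + 1) / Real.log ((n + 1 : ℕ) : ℝ)
        = (SP n - LP n / Real.log n)
          + LP n * (1 / Real.log n - 1 / Real.log ((n + 1 : ℕ) : ℝ)) := by
      rw [hS, hL]
      split_ifs
      · field_simp
        ring
      · field_simp
        ring
    rw [key]
    have hd : 0 ≤ 1 / Real.log n - 1 / Real.log ((n + 1 : ℕ) : ℝ) := by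
      rw [sub_nonneg]
      exact one_div_le_one_div_of_le hln hlt.le
    have hLP := LP_le n (by omega)
    have h1 : LP n * (1 / Real.log n - 1 / Real.log ((n + 1 : ℕ) : ℝ))
        ≤ (Real.log n + Real.log 4) * (1 / Real.log n - 1 / Real.log ((n + 1 : ℕ) : ℝ)) :=
      mul_le_mul_of_nonneg_right hLP hd
    have h2 : Real.log n * (1 / Real.log n - 1 / Real.log ((n + 1 : ℕ) : ℝ))
        ≤ Real.log (Real.log ((n + 1 : ℕ) : ℝ)) - Real.log (Real.log n) := by
      have h3 : Real.log (Real.log ((n + 1 : ℕ) : ℝ)) - Real.log (Real.log n)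
          = - Real.log (Real.log n / Real.log ((n + 1 : ℕ) : ℝ)) := by
        rw [Real.log_div hln.ne' hln1.ne']; ring
      rw [h3]
      have h4 := Real.log_le_sub_one_of_pos (div_pos hln hln1)
      have h5 : Real.log n * (1 / Real.log n - 1 / Real.log ((n + 1 : ℕ) : ℝ))
          = 1 - Real.log n / Real.log ((n + 1 : ℕ) : ℝ) := by
        field_simp
      rw [h5]
      linarith
    nlinarith [ih, h1, h2]

/-- Upper bound in Mertens' second theorem. -/
lemma SP_le (n : ℕ) (hn : 2 ≤ n) : SP n ≤ Real.log (Real.log n) + 8 := by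
  have hn' : (2 : ℝ) ≤ n := by exact_mod_cast hn
  have h := SP_aux n hn
  have hln : 0 < Real.log n := Real.log_pos (by linarith)
  have hl2 : 0 < Real.log 2 := Real.log_pos (by norm_num)
  have h4 : Real.log 4 = 2 * Real.log 2 := by
    rw [show (4 : ℝ) = 2 ^ 2 by norm_num, Real.log_pow]; norm_num
  have hL := LP_le n (by omega)
  have h1 : LP n / Real.log n ≤ 1 + Real.log 4 / Real.log n := by
    rw [div_le_iff₀ hln, add_mul, one_mul, div_mul_cancel₀ _ hln.ne']
    exact hL
  have h2 : Real.log 4 * (1 / Real.log 2 - 1 / Real.log n)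
      = 2 - Real.log 4 / Real.log n := by
    rw [mul_sub, h4]; field_simp
  have h3 : -Real.log (Real.log 2) ≤ 1 := by
    have : Real.exp (-1) ≤ Real.log 2 := by
      have e1 := Real.log_two_gt_d9
      have e2 : Real.exp (-1) < 0.5 := by
        rw [Real.exp_neg, inv_lt_comm₀ (Real.exp_pos 1) (by norm_num)]
        have := Real.exp_one_gt_d9
        norm_num
        linarith
      linarith
    have h5 := Real.log_le_log (Real.exp_pos _) this
    rw [Real.log_exp] at h5
    linarith
  linarith

end Pool.Agent.Helper742
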