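import Mathlib
import Pool.Agent.Helper742.Mertens

set_option autoImplicit false

namespace Pool.Agent.Helper742

open Finset

/-- The completely multiplicative function (on positive integers) with prescribed prime values. -/
noncomputable def cm (g : ℕ → ℝ) : ℕ →* ℝ where
  toFun n := if n = 0 then 0 else n.factorization.prod fun p e => g p ^ e
  map_one' := by simp
  map_mul' a b := by
    by_cases ha : a = 0
    · simp [ha]
    by_cases hb : b = 0
    · simp [hb]
    have hab : a * b ≠ 0 := mul_ne_zero ha hb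
    simp only [ha, hb, hab, if_false]
    rw [Nat.factorization_mul ha hb, Finsupp.prod_add_index']
    · intro p; simp
    · intro p m n; exact pow_add _ _ _

lemma cm_apply (g : ℕ → ℝ) {n : ℕ} (hn : n ≠ 0) :
    cm g n = n.factorization.prod fun p e => g p ^ e := by
  simp [cm, hn]

lemma cm_zero (g : ℕ → ℝ) : cm g 0 = 0 := by simp [cm]

lemma cm_prime (g : ℕ → ℝ) {p : ℕ} (hp : p.Prime) : cm g p = g p := by
  rw [cm_apply g hp.ne_zero, hp.factorization]
  simp

lemma cm_nonneg (g : ℕ → ℝ) (hg : ∀ p : ℕ, p.Prime → 0 ≤ g p) (n : ℕ) : 0 ≤ cm g n := by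
  by_cases hn : n = 0
  · simp [hn, cm_zero]
  rw [cm_apply g hn]
  apply Finset.prod_nonneg
  intro p hp
  rw [Nat.support_factorization] at hp
  exact pow_nonneg (hg p (Nat.prime_of_mem_primeFactors hp)) _

lemma cm_pos (g : ℕ → ℝ) (hg : ∀ p : ℕ, p.Prime → 0 < g p) {n : ℕ} (hn : n ≠ 0) :
    0 < cm g n := by
  rw [cm_apply g hn]
  apply Finset.prod_pos
  intro p hp
  rw [Nat.support_factorization] at hp
  exact pow_pos (hg p (Nat.prime_of_mem_primeFactors hp)) _

lemma cm_mono (g g' : ℕ → ℝ) (hg : ∀ p : ℕ, p.Prime → 0 ≤ g p)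
    (hgg : ∀ p : ℕ, p.Prime → g p ≤ g' p) (n : ℕ) : cm g n ≤ cm g' n := by
  by_cases hn : n = 0
  · simp [hn, cm_zero]
  rw [cm_apply g hn, cm_apply g' hn]
  apply Finset.prod_le_prod
  · intro p hp
    rw [Nat.support_factorization] at hp
    exact pow_nonneg (hg p (Nat.prime_of_mem_primeFactors hp)) _
  · intro p hp
    rw [Nat.support_factorization] at hp
    have hpp := Nat.prime_of_mem_primeFactors hp
    exact pow_le_pow_left₀ (hg p hpp) (hgg p hpp) _

lemma cm_mul_fun (g g' : ℕ → ℝ) (n : ℕ) : cm (fun p => g p * g' p) n = cm g n * cm g' n := by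
  by_cases hn : n = 0
  · simp [hn, cm_zero]
  rw [cm_apply _ hn, cm_apply g hn, cm_apply g' hn, ← Finsupp.prod_mul]
  apply Finset.prod_congr rfl
  intro p _
  exact mul_pow _ _ _

lemma cm_id {n : ℕ} (hn : n ≠ 0) : cm (fun p => (p : ℝ)) n = n := by
  rw [cm_apply _ hn]
  conv_rhs => rw [← Nat.prod_factorization_pow_eq_self hn]
  simp [Finsupp.prod]

lemma cm_div (g : ℕ → ℝ) (n : ℕ) : cm (fun p => g p / p) n = cm g n / n := by
  by_cases hn : n = 0
  · simp [hn, cm_zero]
  have hn' : (n : ℝ) ≠ 0 := by exact_mod_cast hn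
  rw [eq_div_iff hn']
  rw [← cm_id hn, ← cm_mul_fun, cm_apply _ hn, cm_apply _ hn]
  apply Finset.prod_congr rfl
  intro p hp
  rw [Nat.support_factorization] at hp
  have hpp := Nat.prime_of_mem_primeFactors hp
  have : (p : ℝ) ≠ 0 := by exact_mod_cast hpp.ne_zero
  simp only
  field_simp

/-- Rankin's bound: a log-average is at most the Euler product. -/
lemma rankin (g : ℕ → ℝ) (hg0 : ∀ p : ℕ, p.Prime → 0 ≤ g p)
    (hg1 : ∀ p : ℕ, p.Prime → g p < p) (N : ℕ) :
    ∑ n ∈ Finset.Icc 1 N, cm g n / n ≤ ∏ p ∈ Nat.primesLE N, (1 - g p / p)⁻¹ := by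
  have hpos : ∀ p : ℕ, p.Prime → 0 ≤ g p / p := fun p hp => div_nonneg (hg0 p hp) (by positivity)
  have hlt : ∀ {p : ℕ}, p.Prime → ‖cm (fun p => g p / p) p‖ < 1 := by
    intro p hp
    rw [cm_prime _ hp, Real.norm_of_nonneg (hpos p hp), div_lt_one (by exact_mod_cast hp.pos)]
    exact hg1 p hp
  obtain ⟨hs, hh⟩ :=
    EulerProduct.summable_and_hasSum_factoredNumbers_prod_filter_prime_geometric hlt
      (Finset.range (N + 1))
  have hprod : ∏ p ∈ Finset.range (N + 1) with p.Prime, (1 - cm (fun p => g p / p) p)⁻¹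
      = ∏ p ∈ Nat.primesLE N, (1 - g p / p)⁻¹ := by
    rw [← Nat.primesLE_eq_filter_range]
    apply Finset.prod_congr rfl
    intro p hp
    rw [cm_prime _ (Nat.prime_of_mem_primesLE hp)]
  rw [← hprod, ← hh.tsum_eq]
  have hmem : ∀ n ∈ Finset.Icc 1 N, n ∈ Nat.factoredNumbers (Finset.range (N + 1)) := by
    intro n hn
    rw [Finset.mem_Icc] at hn
    rw [Nat.mem_factoredNumbers]
    refine ⟨by omega, fun p hp => ?_⟩
    have := Nat.le_of_mem_primeFactorsList hp
    rw [Finset.mem_range]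
    omega
  have hsum : Summable (fun m : Nat.factoredNumbers (Finset.range (N + 1)) =>
      cm (fun p => g p / p) m) := hs.of_norm
  calc ∑ n ∈ Finset.Icc 1 N, cm g n / n
      = ∑ n ∈ (Finset.Icc 1 N).attach.map ⟨fun n => (⟨n.1, hmem n.1 n.2⟩ :
          Nat.factoredNumbers (Finset.range (N + 1))), by
            intro a b h
            exact Subtype.ext (Subtype.mk.inj h)⟩,
          cm (fun p => g p / p) n := by
        rw [Finset.sum_map, ← Finset.sum_attach (Finset.Icc 1 N) (fun n => cm g n / n)]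
        apply Finset.sum_congr rfl
        intro n _
        rw [← cm_div]
        rfl
    _ ≤ _ := by
        apply hsum.sum_le_tsum
        intro n _
        exact cm_nonneg _ hpos _

lemma inv_one_sub_le (x : ℝ) (hx : x ≤ 3 / 4) : (1 - x)⁻¹ ≤ Real.exp (x + 4 * x ^ 2) := by
  have h1 : 0 < 1 - x := by linarith
  have h2 : (1 - x)⁻¹ = x / (1 - x) + 1 := by field_simp; ring
  rw [h2]
  refine (Real.add_one_le_exp _).trans (Real.exp_le_exp.2 ?_)
  have h3 : x / (1 - x) = x + x ^ 2 / (1 - x) := by field_simp; ring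
  rw [h3]
  have h4 : x ^ 2 / (1 - x) ≤ 4 * x ^ 2 := by
    rw [div_le_iff₀ h1]
    nlinarith [sq_nonneg x]
  linarith

lemma sum_inv_sq_le (N : ℕ) : ∑ p ∈ Nat.primesLE N, (1 : ℝ) / (p : ℝ) ^ 2 ≤ 1 := by
  have h : ∀ N : ℕ, ∑ p ∈ Nat.primesLE (N + 1), (1 : ℝ) / (p : ℝ) ^ 2 ≤ 1 - 1 / ((N : ℝ) + 1) := by
    intro N
    induction N with
    | zero =>
      have : Nat.primesLE (0 + 1) = ∅ := by decide
      rw [this]; simp
    | succ N ih =>
      rw [primesLE_succ_sum (fun p => (1 : ℝ) / (p : ℝ) ^ 2)]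
      have h1 : (if (N + 1 + 1).Prime then (1 : ℝ) / ((N + 1 + 1 : ℕ) : ℝ) ^ 2 else 0)
          ≤ 1 / ((N : ℝ) + 1) - 1 / ((N : ℝ) + 2) := by
        have h2 : (1 : ℝ) / ((N : ℝ) + 1) - 1 / ((N : ℝ) + 2)
            = 1 / (((N : ℝ) + 1) * ((N : ℝ) + 2)) := by field_simp; ring
        rw [h2]
        split_ifs
        · apply one_div_le_one_div_of_le (by positivity)
          push_cast
          nlinarith [Nat.cast_nonneg (α := ℝ) N]
        · positivity
      have h3 : ((N + 1 : ℕ) : ℝ) + 1 = (N : ℝ) + 2 := by push_cast; ring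
      rw [h3]
      linarith
  rcases N with _ | N
  · have : Nat.primesLE 0 = ∅ := by decide
    rw [this]; simp
  · have h1 := h N
    have h2 : 0 ≤ 1 / ((N : ℝ) + 1) := by positivity
    linarith

/-- Bound of an Euler product by an exponential of the prime sum. -/
lemma euler_le (g : ℕ → ℝ) (hg0 : ∀ p : ℕ, p.Prime → 0 ≤ g p)
    (hg1 : ∀ p : ℕ, p.Prime → g p ≤ 2) (hg2 : g 2 ≤ 3 / 2) (N : ℕ) :
    ∏ p ∈ Nat.primesLE N, (1 - g p / p)⁻¹
      ≤ Real.exp (∑ p ∈ Nat.primesLE N, g p / p + 16) := by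
  have h1 : ∀ p ∈ Nat.primesLE N, (1 - g p / p)⁻¹
      ≤ Real.exp (g p / p + 16 * (1 / (p : ℝ) ^ 2)) := by
    intro p hp
    have hpp := Nat.prime_of_mem_primesLE hp
    have hp0 : (0 : ℝ) < p := by exact_mod_cast hpp.pos
    have hx : g p / p ≤ 3 / 4 := by
      rw [div_le_iff₀ hp0]
      rcases Nat.lt_or_ge p 3 with h | h
      · have : p = 2 := le_antisymm (by omega) hpp.two_le
        subst this
        push_cast
        linarith
      · have h3 : (3 : ℝ) ≤ p := by exact_mod_cast h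
        have := hg1 p hpp
        linarith
    refine (inv_one_sub_le _ hx).trans (Real.exp_le_exp.2 ?_)
    have h4 : (g p / p) ^ 2 ≤ 4 * (1 / (p : ℝ) ^ 2) := by
      rw [div_pow, mul_one_div]
      apply div_le_div_of_nonneg_right _ (by positivity)
      have := hg0 p hpp
      have := hg1 p hpp
      nlinarith
    linarith
  have h2 : ∀ p ∈ Nat.primesLE N, 0 ≤ (1 - g p / p)⁻¹ := by
    intro p hp
    have hpp := Nat.prime_of_mem_primesLE hp
    have hp0 : (0 : ℝ) < p := by exact_mod_cast hpp.pos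
    have hp2 : (2 : ℝ) ≤ p := by exact_mod_cast hpp.two_le
    rw [inv_nonneg, sub_nonneg, div_le_one hp0]
    exact (hg1 p hpp).trans hp2
  calc ∏ p ∈ Nat.primesLE N, (1 - g p / p)⁻¹
      ≤ ∏ p ∈ Nat.primesLE N, Real.exp (g p / p + 16 * (1 / (p : ℝ) ^ 2)) :=
        Finset.prod_le_prod h2 h1
    _ = Real.exp (∑ p ∈ Nat.primesLE N, (g p / p + 16 * (1 / (p : ℝ) ^ 2))) := by
        rw [Real.exp_sum]
    _ ≤ _ := by
        apply Real.exp_le_exp.2
        rw [Finset.sum_add_distrib, ← Finset.mul_sum]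
        have := sum_inv_sq_le N
        linarith

/-- Lower bound in Mertens' second theorem. -/
lemma le_SP (n : ℕ) (hn : 2 ≤ n) : Real.log (Real.log n) ≤ SP n + 16 := by
  have hn' : (2 : ℝ) ≤ n := by exact_mod_cast hn
  have hln : 0 < Real.log n := Real.log_pos (by linarith)
  rw [Real.log_le_iff_le_exp hln]
  have h1 := rankin (fun _ => 1) (fun _ _ => by norm_num)
    (fun p hp => by exact_mod_cast hp.one_lt) n
  have h2 := euler_le (fun _ => 1) (fun _ _ => by norm_num) (fun p hp => by norm_num)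
    (by norm_num) n
  have h3 : Real.log n ≤ ∑ k ∈ Finset.Icc 1 n, cm (fun _ => 1) k / k := by
    have h4 : ∑ k ∈ Finset.Icc 1 n, cm (fun _ => 1) k / (k : ℝ)
        = ((harmonic n : ℚ) : ℝ) := by
      rw [harmonic_eq_sum_Icc]
      push_cast
      apply Finset.sum_congr rfl
      intro k hk
      rw [Finset.mem_Icc] at hk
      rw [cm_apply _ (by omega)]
      simp
    rw [h4]
    refine le_trans ?_ (log_add_one_le_harmonic n)
    exact Real.log_le_log (by linarith) (by push_cast; linarith)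
  exact h3.trans (h1.trans h2)

/-- Prime sums of a two-step function. -/
lemma sum_two_step (t s : ℝ) (y N : ℕ) (h : y ≤ N) :
    ∑ p ∈ Nat.primesLE N, (if p ≤ y then t else s) / (p : ℝ)
      = t * SP y + s * (SP N - SP y) := by
  have h1 : Nat.primesLE y ⊆ Nat.primesLE N := by
    intro p hp
    rw [Nat.mem_primesLE] at hp ⊢
    exact ⟨hp.1.trans h, hp.2⟩
  have h2 : (Nat.primesLE N).filter (fun p => p ≤ y) = Nat.primesLE y := by
    ext p
    simp only [Finset.mem_filter, Nat.mem_primesLE]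
    constructor
    · rintro ⟨⟨_, hp⟩, hy⟩; exact ⟨hy, hp⟩
    · rintro ⟨hy, hp⟩; exact ⟨⟨hy.trans h, hp⟩, hy⟩
  have h3 : SP N - SP y = ∑ p ∈ (Nat.primesLE N).filter (fun p => ¬ p ≤ y), (1 : ℝ) / p := by
    rw [SP, SP, ← Finset.sum_filter_add_sum_filter_not (Nat.primesLE N) (fun p => p ≤ y), h2]
    ring
  rw [h3, ← Finset.sum_filter_add_sum_filter_not (Nat.primesLE N) (fun p => p ≤ y), h2, SP,
    Finset.mul_sum, Finset.mul_sum]
  congr 1
  · apply Finset.sum_congr rfl
    intro p hp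
    rw [if_pos (Nat.le_of_mem_primesLE hp)]; ring
  · apply Finset.sum_congr rfl
    intro p hp
    rw [if_neg (Finset.mem_filter.1 hp).2]; ring

end Pool.Agent.Helper742
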