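import Mathlib
import Pool.Agent.Helper742.Rankin

set_option autoImplicit false

namespace Pool.Agent.Helper742

open Finset

/-- Number of prime factors up to `y`, with multiplicity. -/
def Om (y a : ℕ) : ℕ := ∑ p ∈ Nat.primesLE y, a.factorization p

lemma Om_mul (y : ℕ) {a b : ℕ} (ha : a ≠ 0) (hb : b ≠ 0) : Om y (a * b) = Om y a + Om y b := by
  simp only [Om, Nat.factorization_mul ha hb, Finsupp.add_apply, Finset.sum_add_distrib]

/-- Two-step weight. -/
noncomputable def st (y : ℕ) (t : ℝ) (p : ℕ) : ℝ := if p ≤ y then t else 1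

lemma cm_eq_prod (g : ℕ → ℝ) (y : ℕ) {a : ℕ} (ha : a ≠ 0)
    (hg : ∀ p : ℕ, p.Prime → y < p → g p = 1) :
    cm g a = ∏ p ∈ Nat.primesLE y, g p ^ a.factorization p := by
  rw [cm_apply g ha, Finsupp.prod, Nat.support_factorization]
  have h1 : ∏ p ∈ a.primeFactors, g p ^ a.factorization p
      = ∏ p ∈ a.primeFactors with p ≤ y, g p ^ a.factorization p := by
    rw [Finset.prod_filter]
    apply Finset.prod_congr rfl
    intro p hp
    split_ifs with h
    · rfl
    · rw [hg p (Nat.prime_of_mem_primeFactors hp) (not_le.1 h), one_pow]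
  rw [h1]
  apply Finset.prod_subset
  · intro p hp
    rw [Finset.mem_filter] at hp
    rw [Nat.mem_primesLE]
    exact ⟨hp.2, Nat.prime_of_mem_primeFactors hp.1⟩
  · intro p hp hp'
    rw [Nat.mem_primesLE] at hp
    rw [Finset.mem_filter, not_and] at hp'
    have h2 : p ∉ a.primeFactors := fun h => hp' h hp.1
    rw [← Nat.support_factorization, Finsupp.notMem_support_iff] at h2
    rw [h2, pow_zero]

lemma cm_st (y : ℕ) (t : ℝ) {a : ℕ} (ha : a ≠ 0) : cm (st y t) a = t ^ Om y a := by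
  rw [cm_eq_prod (st y t) y ha (fun p _ hp => by simp [st, not_le.2 hp]), Om,
    ← Finset.prod_pow_eq_pow_sum]
  apply Finset.prod_congr rfl
  intro p hp
  rw [Nat.mem_primesLE] at hp
  simp [st, hp.1]

lemma sum_st_le (y N : ℕ) (hyN : y ≤ N) (t : ℝ) (ht0 : 0 ≤ t) (ht1 : t ≤ 3 / 2) :
    ∑ a ∈ Finset.Icc 1 N, t ^ Om y a / (a : ℝ)
      ≤ Real.exp (t * SP y + (SP N - SP y) + 16) := by
  have hg0 : ∀ p : ℕ, p.Prime → 0 ≤ st y t p := by
    intro p _; simp only [st]; split_ifs <;> linarith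
  have hg1 : ∀ p : ℕ, p.Prime → st y t p ≤ 3 / 2 := by
    intro p _; simp only [st]; split_ifs <;> linarith
  have h1 := rankin (st y t) hg0 (fun p hp => by
    have := hg1 p hp
    have h2 : (2 : ℝ) ≤ p := by exact_mod_cast hp.two_le
    linarith) N
  have h2 := euler_le (st y t) hg0 (fun p hp => (hg1 p hp).trans (by norm_num))
    (hg1 2 Nat.prime_two) N
  have h3 : ∑ p ∈ Nat.primesLE N, st y t p / (p : ℝ) = t * SP y + 1 * (SP N - SP y) := by
    rw [← sum_two_step t 1 y N hyN]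
    rfl
  rw [h3, one_mul] at h2
  calc ∑ a ∈ Finset.Icc 1 N, t ^ Om y a / (a : ℝ) = ∑ a ∈ Finset.Icc 1 N, cm (st y t) a / a := by
        apply Finset.sum_congr rfl
        intro a ha
        rw [Finset.mem_Icc] at ha
        rw [cm_st y t (by omega)]
    _ ≤ _ := h1.trans h2

/-- The doubly exponential scale. -/
def Y (j : ℕ) : ℕ := 2 ^ 2 ^ j

lemma Y_mono {i j : ℕ} (h : i ≤ j) : Y i ≤ Y j :=
  Nat.pow_le_pow_right (by norm_num) (Nat.pow_le_pow_right (by norm_num) h)

lemma two_le_Y (j : ℕ) : 2 ≤ Y j := by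
  calc 2 = 2 ^ 1 := by norm_num
    _ ≤ 2 ^ 2 ^ j := Nat.pow_le_pow_right (by norm_num) Nat.one_le_two_pow

lemma log_Y (j : ℕ) : Real.log (Y j) = 2 ^ j * Real.log 2 := by
  rw [Y]; push_cast; rw [Real.log_pow]; push_cast; ring

lemma loglog_Y (j : ℕ) : Real.log (Real.log (Y j)) = j * Real.log 2 + Real.log (Real.log 2) := by
  rw [log_Y, Real.log_mul (by positivity) (Real.log_pos (by norm_num)).ne', Real.log_pow]

lemma loglog_two_nonpos : Real.log (Real.log 2) ≤ 0 := by
  apply Real.log_nonpos (Real.log_nonneg (by norm_num))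
  have := Real.log_two_lt_d9
  linarith

lemma neg_one_le_loglog_two : -1 ≤ Real.log (Real.log 2) := by
  have : Real.exp (-1) ≤ Real.log 2 := by
    have e1 := Real.log_two_gt_d9
    have e2 : Real.exp (-1) < 0.5 := by
      rw [Real.exp_neg, inv_lt_comm₀ (Real.exp_pos 1) (by norm_num)]
      have := Real.exp_one_gt_d9
      norm_num
      linarith
    linarith
  have h5 := Real.log_le_log (Real.exp_pos _) this
  rwa [Real.log_exp] at h5

lemma SP_Y_le (j : ℕ) : SP (Y j) ≤ j * Real.log 2 + 8 := by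
  have h := SP_le (Y j) (two_le_Y j)
  rw [loglog_Y] at h
  have := loglog_two_nonpos
  linarith

lemma le_SP_Y (j : ℕ) : j * Real.log 2 - 17 ≤ SP (Y j) := by
  have h := le_SP (Y j) (two_le_Y j)
  rw [loglog_Y] at h
  have := neg_one_le_loglog_two
  linarith

/-- Log-mass of the integers with too many prime factors below `Y j`. -/
lemma violators (j n : ℕ) (hjn : j ≤ n) :
    ∑ a ∈ Finset.Icc 1 (Y n) with 71 * j < 100 * Om (Y j) a, (1 : ℝ) / a
      ≤ Real.exp 50 * Real.exp (n * Real.log 2) * Real.exp (-(9 / 100000) * j) := by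
  set w : ℝ := 101 / 100 with hw
  have hlw : (1 : ℝ) / 101 ≤ Real.log w := by
    have := Real.one_sub_inv_le_log_of_pos (show (0 : ℝ) < w by rw [hw]; norm_num)
    rw [hw] at this ⊢
    norm_num at this ⊢
    linarith
  have h1 : ∑ a ∈ Finset.Icc 1 (Y n) with 71 * j < 100 * Om (Y j) a, (1 : ℝ) / a
      ≤ ∑ a ∈ Finset.Icc 1 (Y n), Real.exp (-(71 / 100) * j * Real.log w)
          * (w ^ Om (Y j) a / (a : ℝ)) := by
    rw [Finset.sum_filter]
    apply Finset.sum_le_sum
    intro a ha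
    have hw0 : 0 < w := by rw [hw]; norm_num
    split_ifs with h
    · rw [← mul_div_assoc]
      apply div_le_div_of_nonneg_right _ (by positivity)
      have h2 : w ^ Om (Y j) a = Real.exp (Om (Y j) a * Real.log w) := by
        rw [Real.exp_nat_mul, Real.exp_log hw0]
      rw [h2, ← Real.exp_add]
      apply Real.one_le_exp
      have h3 : (71 : ℝ) * j < 100 * Om (Y j) a := by exact_mod_cast h
      nlinarith
    · positivity
  have h2 := sum_st_le (Y j) (Y n) (Y_mono hjn) w (by rw [hw]; norm_num) (by rw [hw]; norm_num)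
  rw [← Finset.mul_sum] at h1
  refine h1.trans ((mul_le_mul_of_nonneg_left h2 (by positivity)).trans ?_)
  rw [← Real.exp_add, ← Real.exp_add, ← Real.exp_add]
  apply Real.exp_le_exp.2
  have h3 := SP_Y_le j
  have h4 := SP_Y_le n
  have h5 := Real.log_two_lt_d9
  have h6 : (0 : ℝ) ≤ j := by positivity
  have h7 : w * SP (Y j) + (SP (Y n) - SP (Y j)) = 1 / 100 * SP (Y j) + SP (Y n) := by
    rw [hw]; ring
  rw [h7]
  have h8 : (j : ℝ) * (1 / 101) ≤ j * Real.log w := mul_le_mul_of_nonneg_left hlw h6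
  have h9 : (j : ℝ) * Real.log 2 ≤ j * 0.6931471808 := mul_le_mul_of_nonneg_left h5.le h6
  nlinarith

lemma odd_sum (m : ℕ) :
    (1 / 2) * ∑ a ∈ Finset.Icc 1 (2 * m), (1 : ℝ) / a
      ≤ ∑ a ∈ Finset.Icc 1 (2 * m) with Odd a, (1 : ℝ) / a := by
  rw [Finset.sum_filter]
  induction m with
  | zero => simp
  | succ m ih =>
    rw [show 2 * (m + 1) = (2 * m + 1) + 1 by ring, Finset.sum_Icc_succ_top (by omega),
      Finset.sum_Icc_succ_top (by omega), Finset.sum_Icc_succ_top (by omega),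
      Finset.sum_Icc_succ_top (by omega)]
    rw [if_pos (by exact ⟨m, by ring⟩), if_neg (by
      intro h
      rw [Nat.odd_iff] at h
      omega)]
    have h1 : (1 : ℝ) / ((2 * m + 1 + 1 : ℕ) : ℝ) ≤ 1 / ((2 * m + 1 : ℕ) : ℝ) := by
      apply one_div_le_one_div_of_le
      · push_cast; positivity
      · push_cast; linarith
    linarith

lemma odd_sum_Y (n : ℕ) :
    (1 / 2) * (2 ^ n * Real.log 2) ≤ ∑ a ∈ Finset.Icc 1 (Y n) with Odd a, (1 : ℝ) / a := by
  obtain ⟨m, hm⟩ : ∃ m, Y n = 2 * m := by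
    have : 2 ∣ Y n := by
      rw [Y]
      exact dvd_pow_self 2 (by positivity)
    exact this
  have h1 := odd_sum m
  rw [← hm] at h1
  have h2 : Real.log (Y n) ≤ ∑ a ∈ Finset.Icc 1 (Y n), (1 : ℝ) / a := by
    have h3 : ∑ a ∈ Finset.Icc 1 (Y n), (1 : ℝ) / a = ((harmonic (Y n) : ℚ) : ℝ) := by
      rw [harmonic_eq_sum_Icc]
      push_cast
      apply Finset.sum_congr rfl
      intro k _
      rw [one_div]
    rw [h3]
    refine le_trans ?_ (log_add_one_le_harmonic (Y n))
    have := two_le_Y n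
    exact Real.log_le_log (by positivity) (by push_cast; linarith)
  rw [log_Y] at h2
  linarith

end Pool.Agent.Helper742
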