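import Mathlib
import Pool.Agent.Helper742.Omega
import Pool.Agent.Helper742.Brun

set_option autoImplicit false

namespace Pool.Agent.Helper742

open Finset

lemma edge_param {a b : ℕ} (ha : Odd a) (hb : Odd b) (hab : a < b) (h : a + b ∣ 2 * a * b) :
    ∃ k d h : ℕ, 1 ≤ k ∧ Odd d ∧ 1 ≤ h ∧ h < d ∧ a = k * d * (d - h) ∧ b = k * d * (d + h) := by
  obtain ⟨m, n, hco, hm, hn⟩ := Nat.exists_coprime a b
  set g := Nat.gcd a b with hg
  have ha0 : 0 < a := ha.pos
  have hg0 : 0 < g := Nat.gcd_pos_of_pos_left _ ha0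
  rw [hm] at ha
  rw [hn] at hb
  obtain ⟨hmo, hgo⟩ := Nat.odd_mul.1 ha
  obtain ⟨hno, -⟩ := Nat.odd_mul.1 hb
  have h1 : g * (m + n) ∣ g * (2 * (m * n) * g) := by
    have e1 : a + b = g * (m + n) := by rw [hm, hn]; ring
    have e2 : 2 * a * b = g * (2 * (m * n) * g) := by
      calc 2 * a * b = 2 * (m * g) * (n * g) := by rw [← hm, ← hn]
        _ = _ := by ring
    rwa [e1, e2] at h
  have h2 : m + n ∣ 2 * (m * n) * g := Nat.dvd_of_mul_dvd_mul_left hg0 h1
  have hc1 : Nat.Coprime (m + n) m := by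
    rw [Nat.coprime_self_add_left]; exact hco.symm
  have hc2 : Nat.Coprime (m + n) n := by
    rw [Nat.coprime_add_self_left]; exact hco
  have h3 : m + n ∣ 2 * g := by
    have h4 : m + n ∣ (m * n) * (2 * g) := by
      have : 2 * (m * n) * g = (m * n) * (2 * g) := by ring
      rwa [this] at h2
    exact (Nat.Coprime.mul_right hc1 hc2).dvd_of_dvd_mul_left h4
  have hmn : m < n := by
    rw [hm, hn] at hab
    exact lt_of_mul_lt_mul_right hab (Nat.zero_le _)
  obtain ⟨i, hi⟩ := hmo
  obtain ⟨l, hl⟩ := hno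
  have hd : m + n = 2 * (i + l + 1) := by omega
  rw [hd] at h3
  have h5 : (i + l + 1) ∣ g := Nat.dvd_of_mul_dvd_mul_left (by norm_num) h3
  obtain ⟨k, hk⟩ := h5
  have hdo : Odd (i + l + 1) := by
    rw [hk] at hgo
    exact (Nat.odd_mul.1 hgo).1
  have hk0 : 1 ≤ k := by
    rcases Nat.eq_zero_or_pos k with h0 | h0
    · rw [h0] at hk; omega
    · exact h0
  refine ⟨k, i + l + 1, l - i, hk0, hdo, by omega, by omega, ?_, ?_⟩
  · have : i + l + 1 - (l - i) = m := by omega
    rw [this, hm, hk]; ring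
  · have : i + l + 1 + (l - i) = n := by omega
    rw [this, hn, hk]; ring

/-- The majorant weight for the correction factor of `d`. -/
noncomputable def ex (y : ℕ) (p : ℕ) : ℝ := if p ≤ y then Real.exp (1 / (p : ℝ)) else 1

lemma ex_pos (y p : ℕ) : 0 < ex y p := by
  simp only [ex]; split_ifs <;> positivity

lemma one_le_ex (y p : ℕ) : 1 ≤ ex y p := by
  simp only [ex]; split_ifs
  · exact Real.one_le_exp (by positivity)
  · exact le_refl _

lemma cm_ex (y : ℕ) {d : ℕ} (hd : d ≠ 0) :
    Real.exp (∑ p ∈ Nat.primesLE y with p ∣ d, (1 : ℝ) / p) ≤ cm (ex y) d := by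
  rw [cm_eq_prod (ex y) y hd (fun p _ hp => by simp [ex, not_le.2 hp]), Real.exp_sum,
    Finset.prod_filter]
  apply Finset.prod_le_prod
  · intro p _
    split_ifs <;> positivity
  · intro p hp
    rw [Nat.mem_primesLE] at hp
    split_ifs with h
    · have h1 : 1 ≤ d.factorization p := (hp.2.dvd_iff_one_le_factorization hd).1 h
      have h2 : ex y p = Real.exp (1 / (p : ℝ)) := by simp [ex, hp.1]
      rw [h2]
      calc Real.exp (1 / (p : ℝ)) = Real.exp (1 / (p : ℝ)) ^ 1 := by rw [pow_one]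
        _ ≤ _ := pow_le_pow_right₀ (Real.one_le_exp (by positivity)) h1
    · exact one_le_pow₀ (one_le_ex y p)

lemma one_le_cm_ex (y : ℕ) {d : ℕ} (hd : d ≠ 0) : 1 ≤ cm (ex y) d := by
  refine le_trans (Real.one_le_exp ?_) (cm_ex y hd)
  apply Finset.sum_nonneg
  intro p _; positivity

/-- Local weights of the sieve. -/
noncomputable def uu (d : ℕ) (p h : ℕ) : ℝ :=
  (if h % p = d % p then (1 / 2 : ℝ) else 0) + (if (d + h) % p = 0 then (1 / 2 : ℝ) else 0)

lemma uu_nonneg (d p h : ℕ) : 0 ≤ uu d p h := by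
  simp only [uu]; split_ifs <;> norm_num

lemma uu_le_one (d p h : ℕ) : uu d p h ≤ 1 := by
  simp only [uu]; split_ifs <;> norm_num

lemma uu_mod (d p h : ℕ) : uu d p (h % p) = uu d p h := by
  simp only [uu, Nat.mod_mod, Nat.add_mod_mod]

lemma uu_mean (d p : ℕ) (hp : 0 < p) : mean (uu d) p = 1 / p := by
  simp only [mean, uu]
  congr 1
  rw [Finset.sum_add_distrib]
  have h1 : ∑ n ∈ range p, (if n % p = d % p then (1 / 2 : ℝ) else 0) = 1 / 2 := by
    rw [← Finset.sum_filter]
    have : (range p).filter (fun n => n % p = d % p) = {d % p} := by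
      ext n
      simp only [Finset.mem_filter, Finset.mem_range, Finset.mem_singleton]
      constructor
      · rintro ⟨h, h'⟩
        rw [Nat.mod_eq_of_lt h] at h'
        exact h'
      · rintro rfl
        exact ⟨Nat.mod_lt _ hp, Nat.mod_mod _ _⟩
    rw [this, Finset.sum_singleton]
  have h2 : ∑ n ∈ range p, (if (d + n) % p = 0 then (1 / 2 : ℝ) else 0) = 1 / 2 := by
    rw [← Finset.sum_filter]
    have : (range p).filter (fun n => (d + n) % p = 0) = {(p - d % p) % p} := by
      ext n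
      simp only [Finset.mem_filter, Finset.mem_range, Finset.mem_singleton]
      have hdp := Nat.mod_lt d hp
      constructor
      · rintro ⟨h, h'⟩
        rw [Nat.add_mod, Nat.mod_eq_of_lt h] at h'
        rcases Nat.eq_zero_or_pos (d % p) with h0 | h0
        · rw [h0, Nat.zero_add, Nat.mod_eq_of_lt h] at h'
          rw [h0, h']; simp
        · have h3 : p ∣ d % p + n := Nat.dvd_of_mod_eq_zero h'
          obtain ⟨c, hc⟩ := h3
          have hc1 : c = 1 := by
            have hlt : p * c < p * 2 := by omega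
            have := lt_of_mul_lt_mul_left hlt (Nat.zero_le _)
            rcases c with _ | c
            · omega
            · omega
          rw [hc1, Nat.mul_one] at hc
          rw [Nat.mod_eq_of_lt (by omega)]
          omega
      · rintro rfl
        refine ⟨Nat.mod_lt _ hp, ?_⟩
        rw [Nat.add_mod_mod, ← Nat.mod_add_mod]
        have : d % p + (p - d % p) = p := by omega
        rw [this, Nat.mod_self]
    rw [this, Finset.sum_singleton]
  rw [h1, h2]
  norm_num

lemma half_pow_le (y d h : ℕ) (h1 : 1 ≤ h) (hd : h < d) :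
    (1 / 2 : ℝ) ^ (Om y (d - h) + Om y (d + h))
      ≤ ∏ p ∈ Nat.primesLE y with ¬ p ∣ 2 * d, (1 - uu d p h) := by
  have e1 : (1 / 2 : ℝ) ^ (Om y (d - h) + Om y (d + h))
      = ∏ p ∈ Nat.primesLE y,
        (1 / 2 : ℝ) ^ ((d - h).factorization p + (d + h).factorization p) := by
    rw [Finset.prod_pow_eq_pow_sum, Finset.sum_add_distrib]
    rfl
  rw [e1, Finset.prod_filter]
  apply Finset.prod_le_prod
  · intro p _; positivity
  · intro p hp
    rw [Nat.mem_primesLE] at hp
    have hle1 : (1 / 2 : ℝ) ^ ((d - h).factorization p + (d + h).factorization p) ≤ 1 :=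
      pow_le_one₀ (by norm_num) (by norm_num)
    have hpow : ∀ e : ℕ, 1 ≤ e → (1 / 2 : ℝ) ^ e ≤ 1 / 2 := by
      intro e he
      calc (1 / 2 : ℝ) ^ e ≤ (1 / 2) ^ 1 :=
            pow_le_pow_of_le_one (by norm_num) (by norm_num) he
        _ = 1 / 2 := by norm_num
    by_cases hpd : p ∣ 2 * d
    · rw [if_neg (not_not.2 hpd)]
      exact hle1
    · rw [if_pos hpd]
      simp only [uu]
      have hA : h % p = d % p → 1 ≤ (d - h).factorization p := by
        intro hh
        have : p ∣ d - h := (Nat.modEq_iff_dvd' hd.le).1 hh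
        exact (hp.2.dvd_iff_one_le_factorization (by omega)).1 this
      have hB : (d + h) % p = 0 → 1 ≤ (d + h).factorization p := by
        intro hh
        exact (hp.2.dvd_iff_one_le_factorization (by omega)).1 (Nat.dvd_of_mod_eq_zero hh)
      by_cases c1 : h % p = d % p
      · by_cases c2 : (d + h) % p = 0
        · exfalso
          apply hpd
          have d1 : p ∣ d - h := (Nat.modEq_iff_dvd' hd.le).1 c1
          have d2 : p ∣ d + h := Nat.dvd_of_mod_eq_zero c2
          have := Nat.dvd_add d1 d2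
          have e : d - h + (d + h) = 2 * d := by omega
          rwa [e] at this
        · rw [if_pos c1, if_neg c2]
          have := hpow _ (show 1 ≤ (d - h).factorization p + (d + h).factorization p by
            have := hA c1; omega)
          linarith
      · by_cases c2 : (d + h) % p = 0
        · rw [if_neg c1, if_pos c2]
          have := hpow _ (show 1 ≤ (d - h).factorization p + (d + h).factorization p by
            have := hB c2; omega)
          linarith
        · rw [if_neg c1, if_neg c2]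
          linarith

lemma growth (j : ℕ) (hj : 384 ≤ j) : 8 * j + 3 ≤ 2 ^ (j / 32) := by
  have h1 : ∀ q : ℕ, 12 ≤ q → 256 * (q + 1) + 3 ≤ 2 ^ q := by
    intro q hq
    induction q, hq using Nat.le_induction with
    | base => norm_num
    | succ q hq ih => rw [pow_succ]; omega
  have h2 := h1 (j / 32) (by omega)
  omega

lemma size_bound (j d : ℕ) (hj : 384 ≤ j) (hd : Y (j + j / 32) ≤ d) :
    ((Y j : ℕ) : ℝ) ^ (2 * (4 * j + 1)) ≤ d * Real.exp (-(j * Real.log 2)) := by
  have h1 : Y j ^ (2 * (4 * j + 1)) * 2 ^ j ≤ d := by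
    refine le_trans ?_ hd
    rw [Y, Y, ← pow_mul, ← pow_add]
    apply Nat.pow_le_pow_right (by norm_num)
    rw [pow_add 2 j (j / 32)]
    have h2 := growth j hj
    have h3 : j ≤ 2 ^ j := Nat.lt_two_pow_self.le
    calc 2 ^ j * (2 * (4 * j + 1)) + j ≤ 2 ^ j * (2 * (4 * j + 1)) + 2 ^ j * 1 := by omega
      _ = 2 ^ j * (8 * j + 3) := by ring
      _ ≤ 2 ^ j * 2 ^ (j / 32) := Nat.mul_le_mul_left _ h2
  have h4 : Real.exp (-(j * Real.log 2)) = ((2 : ℝ) ^ j)⁻¹ := by
    rw [Real.exp_neg, Real.exp_nat_mul, Real.exp_log (by norm_num)]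
  rw [h4, ← div_eq_mul_inv, le_div_iff₀ (by positivity)]
  exact_mod_cast h1

/-- The sieve bound for the sum over `h`. -/
lemma hsum (j d : ℕ) (hj : 384 ≤ j) (hdo : Odd d) (hd : Y (j + j / 32) ≤ d) :
    ∑ h ∈ Finset.Ico 1 d, (1 / 2 : ℝ) ^ (Om (Y j) (d - h) + Om (Y j) (d + h))
      ≤ d * (Real.exp 100 * Real.exp (-(j * Real.log 2)) * cm (ex (Y j)) d) := by
  have hd0 : d ≠ 0 := hdo.pos.ne'
  set T := (Nat.primesLE (Y j)).filter (fun p => ¬ p ∣ 2 * d) with hT
  have hTp : ∀ p ∈ T, p.Prime ∧ p ≤ Y j := by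
    intro p hp
    rw [hT, Finset.mem_filter, Nat.mem_primesLE] at hp
    exact ⟨hp.1.2, hp.1.1⟩
  have h1 : ∑ h ∈ Finset.Ico 1 d, (1 / 2 : ℝ) ^ (Om (Y j) (d - h) + Om (Y j) (d + h))
      ≤ ∑ h ∈ range d, ∏ p ∈ T, (1 - uu d p h) := by
    calc _ ≤ ∑ h ∈ Finset.Ico 1 d, ∏ p ∈ T, (1 - uu d p h) := by
          apply Finset.sum_le_sum
          intro h hh
          rw [Finset.mem_Ico] at hh
          exact half_pow_le (Y j) d h hh.1 hh.2
      _ ≤ _ := by
          apply Finset.sum_le_sum_of_subset_of_nonneg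
          · intro h hh
            rw [Finset.mem_Ico] at hh
            rw [Finset.mem_range]; exact hh.2
          · intro h _ _
            apply Finset.prod_nonneg
            intro p _
            have := uu_le_one d p h
            linarith
  have h2 := brun T (Y j) (4 * j + 1) (by have := two_le_Y j; omega) ⟨2 * j, by ring⟩ hTp (uu d)
    (fun p _ h => uu_nonneg d p h) (fun p _ h => uu_le_one d p h) (fun p _ h => uu_mod d p h)
    8 (by norm_num) d
  have hmean : ∀ p ∈ T, mean (uu d) p = 1 / p := fun p hp => uu_mean d p (hTp p hp).1.pos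
  rw [Finset.prod_congr rfl (fun p hp => by rw [hmean p hp]), Finset.sum_congr rfl hmean] at h2
  have hl0 : 0 < Real.log 2 := Real.log_pos (by norm_num)
  have hH := one_le_cm_ex (Y j) hd0
  set H := cm (ex (Y j)) d with hHdef
  set Z := Real.exp (-(j * Real.log 2)) with hZ
  have hZ0 : 0 < Z := Real.exp_pos _
  -- product term
  have hS1 : SP (Y j) - 1 / 2 - ∑ p ∈ Nat.primesLE (Y j) with p ∣ d, (1 : ℝ) / p
      ≤ ∑ p ∈ T, (1 : ℝ) / p := by
    have e1 : SP (Y j) = ∑ p ∈ T, (1 : ℝ) / p
        + ∑ p ∈ (Nat.primesLE (Y j)).filter (fun p => ¬ ¬ p ∣ 2 * d), (1 : ℝ) / p := by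
      rw [hT, Finset.sum_filter_add_sum_filter_not]; rfl
    have e2 : ∑ p ∈ (Nat.primesLE (Y j)).filter (fun p => ¬ ¬ p ∣ 2 * d), (1 : ℝ) / p
        ≤ ∑ p ∈ insert 2 ((Nat.primesLE (Y j)).filter (fun p => p ∣ d)), (1 : ℝ) / p := by
      apply Finset.sum_le_sum_of_subset_of_nonneg
      · intro p hp
        rw [Finset.mem_filter, not_not] at hp
        rw [Finset.mem_insert, Finset.mem_filter]
        have hpp := Nat.prime_of_mem_primesLE hp.1
        rcases (hpp.dvd_mul).1 hp.2 with h | h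
        · left
          exact (Nat.prime_dvd_prime_iff_eq hpp Nat.prime_two).1 h
        · right
          exact ⟨hp.1, h⟩
      · intro p _ _; positivity
    have e3 : ∑ p ∈ insert 2 ((Nat.primesLE (Y j)).filter (fun p => p ∣ d)), (1 : ℝ) / p
        = 1 / 2 + ∑ p ∈ Nat.primesLE (Y j) with p ∣ d, (1 : ℝ) / p := by
      rw [Finset.sum_insert]
      · push_cast; ring
      · rw [Finset.mem_filter, not_and]
        intro _ h2
        exact (Nat.not_even_iff_odd.2 hdo) (even_iff_two_dvd.2 h2)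
    linarith
  have hP : ∏ p ∈ T, (1 - 1 / (p : ℝ)) ≤ Real.exp 18 * Z * H := by
    calc ∏ p ∈ T, (1 - 1 / (p : ℝ)) ≤ ∏ p ∈ T, Real.exp (-(1 / (p : ℝ))) := by
          apply Finset.prod_le_prod
          · intro p hp
            have : (1 : ℝ) ≤ p := by exact_mod_cast (hTp p hp).1.one_le
            rw [sub_nonneg]
            exact (div_le_one (by linarith)).2 this
          · intro p _
            have := Real.add_one_le_exp (-(1 / (p : ℝ)))
            linarith
      _ = Real.exp (-∑ p ∈ T, (1 : ℝ) / p) := by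
          rw [← Real.exp_sum, Finset.sum_neg_distrib]
      _ ≤ Real.exp (18 + (-(j * Real.log 2))
            + ∑ p ∈ Nat.primesLE (Y j) with p ∣ d, (1 : ℝ) / p) := by
          apply Real.exp_le_exp.2
          have := le_SP_Y j
          linarith
      _ = Real.exp 18 * Z * Real.exp (∑ p ∈ Nat.primesLE (Y j) with p ∣ d, (1 : ℝ) / p) := by
          rw [Real.exp_add, Real.exp_add]
      _ ≤ Real.exp 18 * Z * H := by
          apply mul_le_mul_of_nonneg_left (cm_ex (Y j) hd0) (by positivity)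
  -- tail term
  have hS2 : ∑ p ∈ T, (1 : ℝ) / p ≤ j * Real.log 2 + 8 := by
    refine le_trans ?_ (SP_Y_le j)
    rw [SP]
    apply Finset.sum_le_sum_of_subset_of_nonneg (Finset.filter_subset _ _)
    intro p _ _; positivity
  have hQ : ((8 : ℝ)⁻¹) ^ (4 * j + 1) * Real.exp (8 * ∑ p ∈ T, (1 : ℝ) / p)
      ≤ Real.exp 64 * Z * H := by
    have e8 : (8 : ℝ)⁻¹ = Real.exp (-(3 * Real.log 2)) := by
      rw [Real.exp_neg, show (3 : ℝ) * Real.log 2 = Real.log 8 by
        rw [show (8 : ℝ) = 2 ^ 3 by norm_num, Real.log_pow]; norm_num,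
        Real.exp_log (by norm_num)]
    rw [e8, ← Real.exp_nat_mul, ← Real.exp_add]
    calc Real.exp (((4 * j + 1 : ℕ) : ℝ) * -(3 * Real.log 2) + 8 * ∑ p ∈ T, (1 : ℝ) / p)
        ≤ Real.exp (64 + (-(j * Real.log 2))) := by
          apply Real.exp_le_exp.2
          push_cast
          have : 0 ≤ (j : ℝ) * Real.log 2 := by positivity
          nlinarith
      _ = Real.exp 64 * Z := by rw [Real.exp_add]
      _ ≤ Real.exp 64 * Z * H := le_mul_of_one_le_right (by positivity) hH
  have hR : 3 * ((Y j : ℕ) : ℝ) ^ (2 * (4 * j + 1)) ≤ d * (3 * Z * H) := by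
    have := size_bound j d hj hd
    calc 3 * ((Y j : ℕ) : ℝ) ^ (2 * (4 * j + 1)) ≤ 3 * (d * Z) := by linarith
      _ ≤ 3 * (d * Z) * H := le_mul_of_one_le_right (by positivity) hH
      _ = _ := by ring
  have hfin : Real.exp 18 + Real.exp 64 + 3 ≤ Real.exp 100 := by
    have a1 : Real.exp 18 ≤ Real.exp 98 := Real.exp_le_exp.2 (by norm_num)
    have a2 : Real.exp 64 ≤ Real.exp 98 := Real.exp_le_exp.2 (by norm_num)
    have a3 : (3 : ℝ) ≤ Real.exp 98 := by
      have := Real.add_one_le_exp (98 : ℝ)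
      linarith
    have a4 : Real.exp 100 = Real.exp 98 * Real.exp 2 := by rw [← Real.exp_add]; norm_num
    have a5 : (3 : ℝ) ≤ Real.exp 2 := by
      have := Real.add_one_le_exp (2 : ℝ)
      linarith
    rw [a4]
    nlinarith [Real.exp_pos (98 : ℝ)]
  have hd' : (0 : ℝ) ≤ d := by positivity
  calc _ ≤ _ := h1
    _ ≤ _ := h2
    _ ≤ d * (Real.exp 18 * Z * H + Real.exp 64 * Z * H) + d * (3 * Z * H) := by
        apply add_le_add _ hR
        apply mul_le_mul_of_nonneg_left _ hd'
        exact add_le_add hP hQ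
    _ = d * ((Real.exp 18 + Real.exp 64 + 3) * (Z * H)) := by ring
    _ ≤ d * (Real.exp 100 * (Z * H)) := by
        apply mul_le_mul_of_nonneg_left _ hd'
        apply mul_le_mul_of_nonneg_right hfin (by positivity)
    _ = _ := by ring

end Pool.Agent.Helper742
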