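import Mathlib
import Pool.Agent.Helper742.Edges

set_option autoImplicit false

namespace Pool.Agent.Helper742

open Finset

/-- Typical at scale `j`. -/
def Typ (j a : ℕ) : Prop := 100 * Om (Y j) a ≤ 71 * j

instance (j a : ℕ) : Decidable (Typ j a) := inferInstanceAs (Decidable (_ ≤ _))

lemma typ_le {j a : ℕ} (h : Typ j a) :
    1 ≤ Real.exp (71 / 100 * j * Real.log 2) * (1 / 2 : ℝ) ^ (Om (Y j) a) := by
  have h2 : (1 / 2 : ℝ) ^ (Om (Y j) a) = Real.exp (-(Om (Y j) a * Real.log 2)) := by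
    rw [Real.exp_neg, Real.exp_nat_mul, Real.exp_log (by norm_num)]
    rw [one_div, inv_pow]
  rw [h2, ← Real.exp_add]
  apply Real.one_le_exp
  have h3 : (100 : ℝ) * Om (Y j) a ≤ 71 * j := by exact_mod_cast h
  have hl0 : 0 < Real.log 2 := Real.log_pos (by norm_num)
  nlinarith

lemma dsum (y M : ℕ) (hyM : y ≤ M) :
    ∑ d ∈ Finset.Icc 1 M, ((1 / 4 : ℝ) ^ Om y d * cm (ex y) d) / (d : ℝ)
      ≤ Real.exp (1 / 4 * SP y + (SP M - SP y) + 17) := by
  set g : ℕ → ℝ := fun p => st y (1 / 4) p * ex y p with hg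
  have hexb : ∀ p : ℕ, p.Prime → Real.exp (1 / (p : ℝ)) ≤ 1 + 2 / p := by
    intro p hp
    have h2 : (2 : ℝ) ≤ p := by exact_mod_cast hp.two_le
    have hx0 : 0 ≤ 1 / (p : ℝ) := by positivity
    have hx1 : 1 / (p : ℝ) ≤ 1 / 2 := one_div_le_one_div_of_le (by norm_num) h2
    have h3 := Real.exp_bound_div_one_sub_of_interval hx0 (by linarith)
    refine h3.trans ?_
    rw [div_le_iff₀ (by linarith)]
    have : (2 : ℝ) / p = 2 * (1 / p) := by ring
    rw [this]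
    nlinarith
  have hgval : ∀ p : ℕ, p.Prime → g p = if p ≤ y then (1 / 4) * Real.exp (1 / (p : ℝ)) else 1 := by
    intro p _
    simp only [hg, st, ex]
    split_ifs <;> ring
  have hg0 : ∀ p : ℕ, p.Prime → 0 ≤ g p := by
    intro p hp; rw [hgval p hp]; split_ifs <;> positivity
  have hg1 : ∀ p : ℕ, p.Prime → g p ≤ 3 / 2 := by
    intro p hp
    rw [hgval p hp]
    split_ifs
    · have h1 := hexb p hp
      have h2 : (2 : ℝ) ≤ p := by exact_mod_cast hp.two_le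
      have h3 : 2 / (p : ℝ) ≤ 1 := (div_le_one (by linarith)).2 h2
      linarith
    · norm_num
  have h1 := rankin g hg0 (fun p hp => by
    have := hg1 p hp
    have h2 : (2 : ℝ) ≤ p := by exact_mod_cast hp.two_le
    linarith) M
  have h2 := euler_le g hg0 (fun p hp => (hg1 p hp).trans (by norm_num))
    (hg1 2 Nat.prime_two) M
  have h3 : ∑ p ∈ Nat.primesLE M, g p / (p : ℝ)
      ≤ ∑ p ∈ Nat.primesLE M, ((if p ≤ y then (1 / 4 : ℝ) else 1) / (p : ℝ)
          + 1 / 2 * (1 / (p : ℝ) ^ 2)) := by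
    apply Finset.sum_le_sum
    intro p hp
    have hpp := Nat.prime_of_mem_primesLE hp
    have hp0 : (0 : ℝ) < p := by exact_mod_cast hpp.pos
    rw [hgval p hpp]
    split_ifs
    · have := hexb p hpp
      have e1 : 1 / 4 / (p : ℝ) + 1 / 2 * (1 / (p : ℝ) ^ 2) = (1 / 4 * (1 + 2 / p)) / p := by
        field_simp
        ring
      rw [e1]
      apply div_le_div_of_nonneg_right _ hp0.le
      linarith
    · have : 0 ≤ 1 / 2 * (1 / (p : ℝ) ^ 2) := by positivity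
      linarith
  rw [Finset.sum_add_distrib, sum_two_step (1 / 4) 1 y M hyM, ← Finset.mul_sum] at h3
  have h4 := sum_inv_sq_le M
  calc ∑ d ∈ Finset.Icc 1 M, ((1 / 4 : ℝ) ^ Om y d * cm (ex y) d) / (d : ℝ)
      = ∑ d ∈ Finset.Icc 1 M, cm g d / d := by
        apply Finset.sum_congr rfl
        intro d hd
        rw [Finset.mem_Icc] at hd
        rw [hg, cm_mul_fun, cm_st y (1 / 4) (by omega)]
    _ ≤ _ := h1.trans h2
    _ ≤ _ := by
        apply Real.exp_le_exp.2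
        linarith

/-- Contribution of the edges at one scale. -/
lemma scale_sum (j n : ℕ) (hj : 384 ≤ j) (hjn : j ≤ n) :
    ∑ d ∈ Finset.Ico (Y (j + j / 32)) (Y (j + 1 + (j + 1) / 32)) with Odd d,
      ∑ k ∈ Finset.Icc 1 (Y n), ∑ h ∈ Finset.Ico 1 d,
        (if Typ j (k * d * (d - h)) ∧ Typ j (k * d * (d + h)) then (1 : ℝ) / (k * d ^ 2) else 0)
      ≤ Real.exp 200 * Real.exp (n * Real.log 2) * Real.exp (-(3 / 100) * j) := by
  set A := Real.exp (71 / 100 * j * Real.log 2) with hA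
  set Z := Real.exp (-(j * Real.log 2)) with hZ
  have hterm : ∀ d ∈ (Finset.Ico (Y (j + j / 32)) (Y (j + 1 + (j + 1) / 32))).filter
      (fun d => Odd d), ∀ k ∈ Finset.Icc 1 (Y n),
      ∑ h ∈ Finset.Ico 1 d,
        (if Typ j (k * d * (d - h)) ∧ Typ j (k * d * (d + h)) then (1 : ℝ) / (k * d ^ 2) else 0)
      ≤ (A ^ 2 * Real.exp 100 * Z) * (((1 / 4 : ℝ) ^ Om (Y j) d * cm (ex (Y j)) d) / (d : ℝ))
          * ((1 / 4 : ℝ) ^ Om (Y j) k / (k : ℝ)) := by
    intro d hd k hk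
    rw [Finset.mem_filter, Finset.mem_Ico] at hd
    rw [Finset.mem_Icc] at hk
    have hd0 : d ≠ 0 := hd.2.pos.ne'
    have hk0 : k ≠ 0 := by omega
    have hdR : (0 : ℝ) < d := by exact_mod_cast hd.2.pos
    have hkR : (0 : ℝ) < k := by exact_mod_cast hk.1
    have h1 : ∀ h ∈ Finset.Ico 1 d,
        (if Typ j (k * d * (d - h)) ∧ Typ j (k * d * (d + h)) then (1 : ℝ) / (k * d ^ 2) else 0)
        ≤ (A ^ 2 * (1 / 4 : ℝ) ^ Om (Y j) k * (1 / 4 : ℝ) ^ Om (Y j) d / (k * d ^ 2))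
          * (1 / 2 : ℝ) ^ (Om (Y j) (d - h) + Om (Y j) (d + h)) := by
      intro h hh
      rw [Finset.mem_Ico] at hh
      split_ifs with ht
      · have t1 := typ_le ht.1
        have t2 := typ_le ht.2
        rw [Om_mul _ (mul_ne_zero hk0 hd0) (by omega), Om_mul _ hk0 hd0] at t1 t2
        rw [← hA] at t1 t2
        have t3 : 1 ≤ (A * (1 / 2 : ℝ) ^ (Om (Y j) k + Om (Y j) d + Om (Y j) (d - h)))
            * (A * (1 / 2 : ℝ) ^ (Om (Y j) k + Om (Y j) d + Om (Y j) (d + h))) :=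
          one_le_mul_of_one_le_of_one_le t1 t2
        have t4 : (A * (1 / 2 : ℝ) ^ (Om (Y j) k + Om (Y j) d + Om (Y j) (d - h)))
            * (A * (1 / 2 : ℝ) ^ (Om (Y j) k + Om (Y j) d + Om (Y j) (d + h)))
            = A ^ 2 * (1 / 4 : ℝ) ^ Om (Y j) k * (1 / 4 : ℝ) ^ Om (Y j) d
              * (1 / 2 : ℝ) ^ (Om (Y j) (d - h) + Om (Y j) (d + h)) := by
          have q : (1 / 4 : ℝ) = (1 / 2) * (1 / 2) := by norm_num
          rw [q, mul_pow, mul_pow]
          simp only [pow_add]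
          ring
        rw [t4] at t3
        rw [div_mul_eq_mul_div]
        exact div_le_div_of_nonneg_right t3 (by positivity)
      · positivity
    refine (Finset.sum_le_sum h1).trans ?_
    rw [← Finset.mul_sum]
    have h2 := hsum j d hj hd.2 hd.1.1
    rw [← hZ] at h2
    refine (mul_le_mul_of_nonneg_left h2 (by positivity)).trans (le_of_eq ?_)
    field_simp
  have hsum1 : ∑ d ∈ Finset.Ico (Y (j + j / 32)) (Y (j + 1 + (j + 1) / 32)) with Odd d,
      ∑ k ∈ Finset.Icc 1 (Y n), ∑ h ∈ Finset.Ico 1 d,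
        (if Typ j (k * d * (d - h)) ∧ Typ j (k * d * (d + h)) then (1 : ℝ) / (k * d ^ 2) else 0)
      ≤ ∑ d ∈ Finset.Ico (Y (j + j / 32)) (Y (j + 1 + (j + 1) / 32)) with Odd d,
        ∑ k ∈ Finset.Icc 1 (Y n),
          (A ^ 2 * Real.exp 100 * Z) * (((1 / 4 : ℝ) ^ Om (Y j) d * cm (ex (Y j)) d) / (d : ℝ))
          * ((1 / 4 : ℝ) ^ Om (Y j) k / (k : ℝ)) :=
    Finset.sum_le_sum (fun d hd => Finset.sum_le_sum (fun k hk => hterm d hd k hk))
  refine hsum1.trans ?_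
  have hfac : ∑ d ∈ Finset.Ico (Y (j + j / 32)) (Y (j + 1 + (j + 1) / 32)) with Odd d,
        ∑ k ∈ Finset.Icc 1 (Y n),
          (A ^ 2 * Real.exp 100 * Z) * (((1 / 4 : ℝ) ^ Om (Y j) d * cm (ex (Y j)) d) / (d : ℝ))
          * ((1 / 4 : ℝ) ^ Om (Y j) k / (k : ℝ))
      = (A ^ 2 * Real.exp 100 * Z)
        * (∑ d ∈ Finset.Ico (Y (j + j / 32)) (Y (j + 1 + (j + 1) / 32)) with Odd d,
            ((1 / 4 : ℝ) ^ Om (Y j) d * cm (ex (Y j)) d) / (d : ℝ))
        * ∑ k ∈ Finset.Icc 1 (Y n), ((1 / 4 : ℝ) ^ Om (Y j) k / (k : ℝ)) := by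
    conv_rhs => rw [mul_assoc, Finset.sum_mul_sum, Finset.mul_sum]
    apply Finset.sum_congr rfl
    intro d _
    rw [Finset.mul_sum]
    apply Finset.sum_congr rfl
    intro k _
    ring
  rw [hfac]
  have hYM : Y j ≤ Y (j + 1 + (j + 1) / 32) := Y_mono (by omega)
  have hD : ∑ d ∈ Finset.Ico (Y (j + j / 32)) (Y (j + 1 + (j + 1) / 32)) with Odd d,
            ((1 / 4 : ℝ) ^ Om (Y j) d * cm (ex (Y j)) d) / (d : ℝ)
      ≤ Real.exp (1 / 4 * SP (Y j) + (SP (Y (j + 1 + (j + 1) / 32)) - SP (Y j)) + 17) := by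
    refine le_trans ?_ (dsum (Y j) (Y (j + 1 + (j + 1) / 32)) hYM)
    apply Finset.sum_le_sum_of_subset_of_nonneg
    · intro d hd
      rw [Finset.mem_filter, Finset.mem_Ico] at hd
      rw [Finset.mem_Icc]
      exact ⟨hd.2.pos, hd.1.2.le⟩
    · intro d _ _
      have := cm_nonneg (ex (Y j)) (fun p _ => (ex_pos (Y j) p).le) d
      positivity
  have hK := sum_st_le (Y j) (Y n) (Y_mono hjn) (1 / 4) (by norm_num) (by norm_num)
  have hfin : (A ^ 2 * Real.exp 100 * Z)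
        * (∑ d ∈ Finset.Ico (Y (j + j / 32)) (Y (j + 1 + (j + 1) / 32)) with Odd d,
            ((1 / 4 : ℝ) ^ Om (Y j) d * cm (ex (Y j)) d) / (d : ℝ))
        * ∑ k ∈ Finset.Icc 1 (Y n), ((1 / 4 : ℝ) ^ Om (Y j) k / (k : ℝ))
      ≤ (A ^ 2 * Real.exp 100 * Z)
        * Real.exp (1 / 4 * SP (Y j) + (SP (Y (j + 1 + (j + 1) / 32)) - SP (Y j)) + 17)
        * Real.exp (1 / 4 * SP (Y j) + (SP (Y n) - SP (Y j)) + 16) := by
    have hK0 : 0 ≤ ∑ k ∈ Finset.Icc 1 (Y n), ((1 / 4 : ℝ) ^ Om (Y j) k / (k : ℝ)) :=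
      Finset.sum_nonneg (fun k _ => by positivity)
    apply mul_le_mul _ hK hK0 (by positivity)
    exact mul_le_mul_of_nonneg_left hD (by positivity)
  refine hfin.trans ?_
  rw [hA, hZ, ← Real.exp_nat_mul, ← Real.exp_add, ← Real.exp_add, ← Real.exp_add, ← Real.exp_add,
    ← Real.exp_add, ← Real.exp_add]
  apply Real.exp_le_exp.2
  have b1 := le_SP_Y j
  have b2 := SP_Y_le n
  have b3 := SP_Y_le (j + 1 + (j + 1) / 32)
  have b4 := Real.log_two_lt_d9
  have b5 := Real.log_two_gt_d9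
  have b6 : (((j + 1) / 32 : ℕ) : ℝ) ≤ ((j : ℝ) + 1) / 32 := by
    have := @Nat.cast_div_le ℝ _ _ _ (j + 1) 32
    push_cast at this
    exact this
  have hj0 : (0 : ℝ) ≤ j := by positivity
  push_cast at b3 ⊢
  have b7 : (((j + 1) / 32 : ℕ) : ℝ) * Real.log 2 ≤ (((j : ℝ) + 1) / 32) * Real.log 2 :=
    mul_le_mul_of_nonneg_right b6 (by linarith)
  have b8 : (j : ℝ) * 0.6931471803 ≤ j * Real.log 2 := mul_le_mul_of_nonneg_left b5.le hj0
  nlinarith

end Pool.Agent.Helper742
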