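import Mathlib
import Pool.Agent.Helper742.Scale

set_option autoImplicit false

namespace Pool.Agent.Helper742

open Finset

/-- The typical odd integers up to `Y n`. -/
def An (j0 n : ℕ) : Finset ℕ :=
  (Finset.Icc 1 (Y n)).filter (fun a => Odd a ∧ ∀ j ∈ Finset.Ico j0 n, Typ j a)

lemma exp_two_pow (n : ℕ) : Real.exp (n * Real.log 2) = 2 ^ n := by
  rw [Real.exp_nat_mul, Real.exp_log (by norm_num)]

lemma geom_exp (c : ℝ) (hc : 0 < c) (j0 n : ℕ) :
    ∑ j ∈ Finset.Ico j0 n, Real.exp (-c * j)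
      ≤ Real.exp (-c * j0) / (1 - Real.exp (-c)) := by
  have h1 : ∀ j : ℕ, Real.exp (-c * j) = Real.exp (-c) ^ j := by
    intro j
    rw [← Real.exp_nat_mul]
    ring_nf
  simp only [h1]
  exact geom_sum_Ico_le_of_lt_one (Real.exp_pos _).le (by
    rw [Real.exp_lt_one_iff]; linarith)

lemma An_mass (j0 n : ℕ) :
    (1 / 2) * (2 ^ n * Real.log 2)
      - Real.exp 50 * 2 ^ n * (Real.exp (-(9 / 100000) * j0) / (1 - Real.exp (-(9 / 100000))))
      ≤ ∑ a ∈ An j0 n, (1 : ℝ) / a := by
  have h1 := odd_sum_Y n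
  have h2 : ∑ a ∈ Finset.Icc 1 (Y n) with Odd a, (1 : ℝ) / a
      ≤ ∑ a ∈ An j0 n, (1 : ℝ) / a
        + ∑ j ∈ Finset.Ico j0 n,
          ∑ a ∈ Finset.Icc 1 (Y n) with 71 * j < 100 * Om (Y j) a, (1 : ℝ) / a := by
    rw [An, Finset.sum_filter, Finset.sum_filter]
    have h3 : ∑ j ∈ Finset.Ico j0 n,
          ∑ a ∈ Finset.Icc 1 (Y n) with 71 * j < 100 * Om (Y j) a, (1 : ℝ) / a
        = ∑ a ∈ Finset.Icc 1 (Y n), ∑ j ∈ Finset.Ico j0 n,
          (if 71 * j < 100 * Om (Y j) a then (1 : ℝ) / a else 0) := by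
      rw [Finset.sum_comm]
      apply Finset.sum_congr rfl
      intro j _
      rw [Finset.sum_filter]
    rw [h3, ← Finset.sum_add_distrib]
    apply Finset.sum_le_sum
    intro a _
    have hnn : 0 ≤ ∑ j ∈ Finset.Ico j0 n,
          (if 71 * j < 100 * Om (Y j) a then (1 : ℝ) / a else 0) := by
      apply Finset.sum_nonneg
      intro j _
      split_ifs <;> positivity
    by_cases ho : Odd a
    · by_cases ht : ∀ j ∈ Finset.Ico j0 n, Typ j a
      · rw [if_pos ho, if_pos ⟨ho, ht⟩]
        linarith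
      · rw [if_pos ho, if_neg (fun h => ht h.2)]
        push Not at ht
        obtain ⟨j, hj, hjt⟩ := ht
        have hjt' : 71 * j < 100 * Om (Y j) a := not_le.1 hjt
        have h4 : (if 71 * j < 100 * Om (Y j) a then (1 : ℝ) / a else 0)
            ≤ ∑ j ∈ Finset.Ico j0 n,
              (if 71 * j < 100 * Om (Y j) a then (1 : ℝ) / a else 0) :=
          Finset.single_le_sum (f := fun j =>
            (if 71 * j < 100 * Om (Y j) a then (1 : ℝ) / a else 0))
            (fun i _ => by split_ifs <;> positivity) hj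
        rw [if_pos hjt'] at h4
        linarith
    · rw [if_neg ho, if_neg (fun h => ho h.1)]
      linarith
  have h5 : ∑ j ∈ Finset.Ico j0 n,
          ∑ a ∈ Finset.Icc 1 (Y n) with 71 * j < 100 * Om (Y j) a, (1 : ℝ) / a
      ≤ ∑ j ∈ Finset.Ico j0 n, Real.exp 50 * 2 ^ n * Real.exp (-(9 / 100000) * j) := by
    apply Finset.sum_le_sum
    intro j hj
    rw [Finset.mem_Ico] at hj
    have := violators j n hj.2.le
    rwa [exp_two_pow] at this
  rw [← Finset.mul_sum] at h5
  have h6 := mul_le_mul_of_nonneg_left (geom_exp (9 / 100000) (by norm_num) j0 n)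
    (show 0 ≤ Real.exp 50 * 2 ^ n by positivity)
  linarith

/-- Number of smaller neighbours inside the typical set. -/
def dg (j0 n b : ℕ) : ℕ := ((An j0 n).filter (fun a => a < b ∧ a + b ∣ 2 * a * b)).card

/-- Per-`d` weight of edges. -/
noncomputable def Gd (j0 n d : ℕ) : ℝ :=
  ∑ k ∈ Finset.Icc 1 (Y n), ∑ h ∈ Finset.Ico 1 d,
    (if k * d * (d - h) ∈ An j0 n ∧ k * d * (d + h) ∈ An j0 n then (1 : ℝ) / (k * d ^ 2) else 0)

lemma Gd_nonneg (j0 n d : ℕ) : 0 ≤ Gd j0 n d := by
  apply Finset.sum_nonneg; intro k _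
  apply Finset.sum_nonneg; intro h _
  split_ifs <;> positivity

lemma deg_sum_le (j0 n : ℕ) :
    ∑ b ∈ An j0 n, (dg j0 n b : ℝ) / b ≤ ∑ d ∈ Finset.Ico 1 (Y n) with Odd d, Gd j0 n d := by
  set P := (An j0 n ×ˢ An j0 n).filter (fun p => p.1 < p.2 ∧ p.1 + p.2 ∣ 2 * p.1 * p.2) with hP
  have h1 : ∑ b ∈ An j0 n, (dg j0 n b : ℝ) / b = ∑ p ∈ P, (1 : ℝ) / (p.2 : ℝ) := by
    rw [hP, Finset.sum_filter, Finset.sum_product_right]
    apply Finset.sum_congr rfl
    intro b _
    rw [← Finset.sum_filter]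
    show _ = ∑ a ∈ (An j0 n).filter (fun a => a < b ∧ a + b ∣ 2 * a * b), (1 : ℝ) / (b : ℝ)
    rw [Finset.sum_const, nsmul_eq_mul, mul_one_div]
    rfl
  rw [h1]
  set Q := (((Finset.Ico 1 (Y n)).filter (fun d => Odd d)) ×ˢ
    ((Finset.Icc 1 (Y n)) ×ˢ (Finset.Ico 1 (Y n)))).filter
      (fun q => q.2.2 < q.1 ∧ q.2.1 * q.1 * (q.1 - q.2.2) ∈ An j0 n ∧
        q.2.1 * q.1 * (q.1 + q.2.2) ∈ An j0 n) with hQ
  set φ : ℕ × ℕ × ℕ → ℕ × ℕ := fun q =>
    (q.2.1 * q.1 * (q.1 - q.2.2), q.2.1 * q.1 * (q.1 + q.2.2)) with hφ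
  have h2 : P ⊆ Q.image φ := by
    intro p hp
    rw [hP, Finset.mem_filter, Finset.mem_product] at hp
    obtain ⟨⟨ha, hb⟩, hlt, hdvd⟩ := hp
    have ha' := ha
    have hb' := hb
    rw [An, Finset.mem_filter, Finset.mem_Icc] at ha' hb'
    obtain ⟨k, d, h, hk, hd, hh, hhd, e1, e2⟩ := edge_param ha'.2.1 hb'.2.1 hlt hdvd
    rw [Finset.mem_image]
    have hdpos := hd.pos
    have hbN : k * d * (d + h) ≤ Y n := by rw [← e2]; exact hb'.1.2
    have hkN : k ≤ Y n := by
      calc k = k * 1 * 1 := by ring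
        _ ≤ k * d * (d + h) := by
          apply Nat.mul_le_mul (Nat.mul_le_mul_left k hdpos) (by omega)
        _ ≤ Y n := hbN
    have hdN : d < Y n := by
      calc d < d + h := by omega
        _ = 1 * 1 * (d + h) := by ring
        _ ≤ k * d * (d + h) := by
          apply Nat.mul_le_mul (Nat.mul_le_mul hk hdpos) (le_refl _)
        _ ≤ Y n := hbN
    refine ⟨(d, k, h), ?_, ?_⟩
    · rw [hQ, Finset.mem_filter, Finset.mem_product, Finset.mem_product, Finset.mem_filter,
        Finset.mem_Ico, Finset.mem_Icc, Finset.mem_Ico]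
      refine ⟨⟨⟨⟨hdpos, hdN⟩, hd⟩, ⟨hk, hkN⟩, ⟨hh, hhd.trans hdN⟩⟩, hhd, ?_, ?_⟩
      · simp only; rw [← e1]; exact ha
      · simp only; rw [← e2]; exact hb
    · simp only [hφ]
      exact Prod.ext e1.symm e2.symm
  calc ∑ p ∈ P, (1 : ℝ) / (p.2 : ℝ) ≤ ∑ p ∈ Q.image φ, (1 : ℝ) / (p.2 : ℝ) :=
        Finset.sum_le_sum_of_subset_of_nonneg h2 (fun p _ _ => by positivity)
    _ ≤ ∑ q ∈ Q, (1 : ℝ) / ((φ q).2 : ℝ) :=
        Finset.sum_image_le_of_nonneg (fun p _ => by positivity)
    _ ≤ ∑ q ∈ Q, (1 : ℝ) / ((q.2.1 : ℝ) * (q.1 : ℝ) ^ 2) := by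
        apply Finset.sum_le_sum
        intro q hq
        rw [hQ, Finset.mem_filter, Finset.mem_product, Finset.mem_product, Finset.mem_filter,
          Finset.mem_Ico, Finset.mem_Icc, Finset.mem_Ico] at hq
        have k0 : (0 : ℝ) < q.2.1 := by exact_mod_cast hq.1.2.1.1
        have d0 : (0 : ℝ) < q.1 := by exact_mod_cast hq.1.1.1.1
        apply one_div_le_one_div_of_le (by positivity)
        simp only [hφ]
        push_cast
        have hh0 : (0 : ℝ) ≤ q.2.2 := by positivity
        have : 0 ≤ (q.2.1 : ℝ) * q.1 * q.2.2 := by positivity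
        nlinarith
    _ = ∑ d ∈ Finset.Ico 1 (Y n) with Odd d, Gd j0 n d := by
        rw [hQ, Finset.sum_filter, Finset.sum_product]
        apply Finset.sum_congr rfl
        intro d hd
        rw [Finset.mem_filter, Finset.mem_Ico] at hd
        rw [Finset.sum_product, Gd]
        apply Finset.sum_congr rfl
        intro k _
        simp only
        have hsub : Finset.Ico 1 d ⊆ Finset.Ico 1 (Y n) :=
          Finset.Ico_subset_Ico_right hd.1.2.le
        rw [← Finset.sum_subset hsub]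
        · apply Finset.sum_congr rfl
          intro h hh
          rw [Finset.mem_Ico] at hh
          simp only [hh.2, true_and]
        · intro h hh hh'
          rw [Finset.mem_Ico] at hh hh'
          rw [if_neg]
          intro hc
          exact hh' ⟨hh.1, hc.1⟩

lemma split_scales (G : ℕ → ℝ) (j0 n : ℕ) (hn : j0 ≤ n) :
    ∑ d ∈ Finset.Ico 1 (Y (n + n / 32)), G d
      = ∑ d ∈ Finset.Ico 1 (Y (j0 + j0 / 32)), G d
        + ∑ j ∈ Finset.Ico j0 n,
          ∑ d ∈ Finset.Ico (Y (j + j / 32)) (Y (j + 1 + (j + 1) / 32)), G d := by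
  induction n, hn using Nat.le_induction with
  | base => simp
  | succ n hn ih =>
    rw [Finset.sum_Ico_succ_top hn, ← add_assoc, ← ih]
    rw [Finset.sum_Ico_consecutive]
    · have := two_le_Y (n + n / 32); omega
    · exact Y_mono (by omega)

lemma Gd_small (j0 n d : ℕ) (hd : 1 ≤ d) : Gd j0 n d ≤ 1 + 2 ^ n * Real.log 2 := by
  have hdR : (1 : ℝ) ≤ d := by exact_mod_cast hd
  have h1 : Gd j0 n d ≤ ∑ k ∈ Finset.Icc 1 (Y n), (1 : ℝ) / k := by
    rw [Gd]
    apply Finset.sum_le_sum
    intro k hk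
    rw [Finset.mem_Icc] at hk
    have hkR : (0 : ℝ) < k := by exact_mod_cast hk.1
    calc _ ≤ ∑ h ∈ Finset.Ico 1 d, (1 : ℝ) / (k * d ^ 2) := by
          apply Finset.sum_le_sum
          intro h _
          split_ifs
          · exact le_refl _
          · positivity
      _ = ((d - 1 : ℕ) : ℝ) * (1 / (k * d ^ 2)) := by
          rw [Finset.sum_const, Nat.card_Ico, nsmul_eq_mul]
      _ ≤ d * (1 / (k * d ^ 2)) := by
          apply mul_le_mul_of_nonneg_right _ (by positivity)
          exact_mod_cast Nat.sub_le d 1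
      _ = (1 / k) * (1 / d) := by field_simp
      _ ≤ (1 / k) * 1 := by
          apply mul_le_mul_of_nonneg_left _ (by positivity)
          exact (div_le_one (by linarith)).2 hdR
      _ = 1 / k := by ring
  have h2 : ∑ k ∈ Finset.Icc 1 (Y n), (1 : ℝ) / k = ((harmonic (Y n) : ℚ) : ℝ) := by
    rw [harmonic_eq_sum_Icc]
    push_cast
    apply Finset.sum_congr rfl
    intro k _
    rw [one_div]
  have h3 := harmonic_le_one_add_log (Y n)
  rw [log_Y] at h3
  linarith

lemma edges_total (j0 n : ℕ) (hj0 : 384 ≤ j0) (hn : j0 ≤ n) :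
    ∑ b ∈ An j0 n, (dg j0 n b : ℝ) / b
      ≤ (2 * (Y (j0 + j0 / 32) : ℝ)
          + Real.exp 200 * (1 / (1 - Real.exp (-(3 / 100))))) * 2 ^ n := by
  have hl := Real.log_two_lt_d9
  have hl0 : 0 < Real.log 2 := Real.log_pos (by norm_num)
  have h1 := deg_sum_le j0 n
  set G : ℕ → ℝ := fun d => if Odd d then Gd j0 n d else 0 with hG
  have hG0 : ∀ d, 0 ≤ G d := by
    intro d; simp only [hG]; split_ifs
    · exact Gd_nonneg _ _ _
    · exact le_refl _
  have h2 : ∑ d ∈ Finset.Ico 1 (Y n) with Odd d, Gd j0 n d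
      ≤ ∑ d ∈ Finset.Ico 1 (Y (n + n / 32)), G d := by
    rw [Finset.sum_filter]
    apply Finset.sum_le_sum_of_subset_of_nonneg
    · exact Finset.Ico_subset_Ico_right (Y_mono (by omega))
    · intro d _ _; exact hG0 d
  rw [split_scales G j0 n hn] at h2
  have h3 : ∑ d ∈ Finset.Ico 1 (Y (j0 + j0 / 32)), G d
      ≤ 2 * (Y (j0 + j0 / 32) : ℝ) * 2 ^ n := by
    have hp : (1 : ℝ) ≤ 2 ^ n := one_le_pow₀ (by norm_num)
    calc ∑ d ∈ Finset.Ico 1 (Y (j0 + j0 / 32)), G d
        ≤ ∑ d ∈ Finset.Ico 1 (Y (j0 + j0 / 32)), (2 * 2 ^ n : ℝ) := by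
          apply Finset.sum_le_sum
          intro d hd
          rw [Finset.mem_Ico] at hd
          simp only [hG]
          split_ifs
          · have := Gd_small j0 n d hd.1
            nlinarith
          · positivity
      _ = ((Y (j0 + j0 / 32) - 1 : ℕ) : ℝ) * (2 * 2 ^ n) := by
          rw [Finset.sum_const, Nat.card_Ico, nsmul_eq_mul]
      _ ≤ (Y (j0 + j0 / 32) : ℝ) * (2 * 2 ^ n) := by
          apply mul_le_mul_of_nonneg_right _ (by positivity)
          exact_mod_cast Nat.sub_le _ 1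
      _ = _ := by ring
  have h4 : ∀ j ∈ Finset.Ico j0 n,
      ∑ d ∈ Finset.Ico (Y (j + j / 32)) (Y (j + 1 + (j + 1) / 32)), G d
        ≤ Real.exp 200 * 2 ^ n * Real.exp (-(3 / 100) * j) := by
    intro j hj
    rw [Finset.mem_Ico] at hj
    have h5 := scale_sum j n (by omega) hj.2.le
    rw [exp_two_pow] at h5
    refine le_trans ?_ h5
    rw [Finset.sum_filter]
    apply Finset.sum_le_sum
    intro d _
    simp only [hG]
    split_ifs
    · rw [Gd]
      apply Finset.sum_le_sum
      intro k _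
      apply Finset.sum_le_sum
      intro h _
      by_cases hc : k * d * (d - h) ∈ An j0 n ∧ k * d * (d + h) ∈ An j0 n
      · rw [if_pos hc, if_pos]
        obtain ⟨c1, c2⟩ := hc
        rw [An, Finset.mem_filter] at c1 c2
        have hm : j ∈ Finset.Ico j0 n := Finset.mem_Ico.2 hj
        exact ⟨c1.2.2 j hm, c2.2.2 j hm⟩
      · rw [if_neg hc]
        split_ifs <;> positivity
    · exact le_refl _
  have h6 := Finset.sum_le_sum h4
  rw [← Finset.mul_sum] at h6
  have h7 := geom_exp (3 / 100) (by norm_num) j0 n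
  have h8 : Real.exp (-(3 / 100) * j0) / (1 - Real.exp (-(3 / 100)))
      ≤ 1 / (1 - Real.exp (-(3 / 100))) := by
    apply div_le_div_of_nonneg_right
    · rw [Real.exp_le_one_iff]
      have : (0 : ℝ) ≤ j0 := by positivity
      linarith
    · rw [sub_nonneg, Real.exp_le_one_iff]; norm_num
  have h9 := mul_le_mul_of_nonneg_left (h7.trans h8) (show 0 ≤ Real.exp 200 * 2 ^ n by positivity)
  nlinarith

/-- Greedy colouring of a graph with bounded down-degree. -/
lemma coloring (B : Finset ℕ) (E : ℕ → ℕ → Prop) [DecidableRel E] (M : ℕ)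
    (hdeg : ∀ b ∈ B, (B.filter (fun a => a < b ∧ E a b)).card ≤ M) :
    ∃ c : ℕ → ℕ, (∀ b, c b ≤ M) ∧ ∀ a ∈ B, ∀ b ∈ B, a < b → E a b → c a ≠ c b := by
  have key : ∀ N : ℕ, ∃ c : ℕ → ℕ, (∀ b, c b ≤ M) ∧
      ∀ a ∈ B, ∀ b ∈ B, a < b → b < N → E a b → c a ≠ c b := by
    intro N
    induction N with
    | zero => exact ⟨fun _ => 0, fun _ => Nat.zero_le _, fun a _ b _ _ h => absurd h (by omega)⟩
    | succ N ih =>
      obtain ⟨c, hc1, hc2⟩ := ih
      by_cases hN : N ∈ B
      · have hcard : ((B.filter (fun a => a < N ∧ E a N)).image c).card < (range (M + 1)).card := by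
          rw [Finset.card_range]
          exact Nat.lt_succ_of_le (Finset.card_image_le.trans (hdeg N hN))
        obtain ⟨v, hv1, hv2⟩ := Finset.exists_mem_notMem_of_card_lt_card hcard
        rw [Finset.mem_range] at hv1
        refine ⟨Function.update c N v, ?_, ?_⟩
        · intro b
          by_cases hb : b = N
          · rw [hb, Function.update_self]; omega
          · rw [Function.update_of_ne hb]; exact hc1 b
        · intro a ha b hb hab hbN hE
          rcases Nat.lt_or_ge b N with h | h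
          · rw [Function.update_of_ne (by omega), Function.update_of_ne (by omega)]
            exact hc2 a ha b hb hab h hE
          · have hbN' : b = N := by omega
            subst hbN'
            rw [Function.update_of_ne (by omega), Function.update_self]
            intro hcv
            apply hv2
            rw [Finset.mem_image]
            exact ⟨a, Finset.mem_filter.2 ⟨ha, hab, hE⟩, hcv⟩
      · refine ⟨c, hc1, ?_⟩
        intro a ha b hb hab hbN hE
        rcases Nat.lt_or_ge b N with h | h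
        · exact hc2 a ha b hb hab h hE
        · have hbN' : b = N := by omega
          subst hbN'
          exact absurd hb hN
  obtain ⟨c, hc1, hc2⟩ := key (B.sup id + 1)
  refine ⟨c, hc1, fun a ha b hb hab hE => hc2 a ha b hb hab ?_ hE⟩
  have := Finset.le_sup (f := id) hb
  simp only [id] at this
  omega

/-- Partial summation. -/
lemma abel (C : Finset ℕ) (c0 ε : ℝ) (h0 : 0 ∉ C)
    (h : ∀ m : ℕ, ((C.filter (fun a => a ≤ m)).card : ℝ) ≤ c0 + ε * m)
    (hε : 0 ≤ ε) (N : ℕ) :
    ∑ a ∈ C with a ≤ N, (1 : ℝ) / a ≤ c0 + ε * (1 + ∑ m ∈ Finset.Icc 1 N, (1 : ℝ) / m) := by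
  have key : ∀ N : ℕ, ∑ a ∈ C with a ≤ N, (1 : ℝ) / a
      - ((C.filter (fun a => a ≤ N)).card : ℝ) / (N + 1)
      ≤ c0 * (1 - 1 / ((N : ℝ) + 1)) + ε * ∑ m ∈ Finset.Icc 1 N, (1 : ℝ) / m := by
    intro N
    induction N with
    | zero =>
      have : C.filter (fun a => a ≤ 0) = ∅ := by
        rw [Finset.filter_eq_empty_iff]
        intro a ha h
        have : a = 0 := by omega
        rw [this] at ha
        exact h0 ha
      rw [this]; simp
    | succ N ih =>
      have hfil : C.filter (fun a => a ≤ N + 1) = if N + 1 ∈ C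
          then insert (N + 1) (C.filter (fun a => a ≤ N)) else C.filter (fun a => a ≤ N) := by
        split_ifs with hm
        · ext a
          simp only [Finset.mem_filter, Finset.mem_insert]
          constructor
          · rintro ⟨h1, h2⟩
            rcases Nat.lt_or_ge N a with h3 | h3
            · left; omega
            · right; exact ⟨h1, h3⟩
          · rintro (h1 | h1)
            · rw [h1]; exact ⟨hm, le_refl _⟩
            · exact ⟨h1.1, by omega⟩
        · ext a
          simp only [Finset.mem_filter]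
          constructor
          · rintro ⟨h1, h2⟩
            refine ⟨h1, ?_⟩
            rcases Nat.lt_or_ge N a with h3 | h3
            · exfalso
              have : a = N + 1 := by omega
              rw [this] at h1
              exact hm h1
            · exact h3
          · rintro ⟨h1, h2⟩
            exact ⟨h1, by omega⟩
      have hnot : N + 1 ∉ C.filter (fun a => a ≤ N) := by
        rw [Finset.mem_filter]; omega
      have hsum : ∑ a ∈ C with a ≤ N + 1, (1 : ℝ) / a
          = ∑ a ∈ C with a ≤ N, (1 : ℝ) / a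
            + (if N + 1 ∈ C then (1 : ℝ) / ((N + 1 : ℕ) : ℝ) else 0) := by
        rw [hfil]; split_ifs
        · rw [Finset.sum_insert hnot]; ring
        · ring
      have hcard : ((C.filter (fun a => a ≤ N + 1)).card : ℝ)
          = ((C.filter (fun a => a ≤ N)).card : ℝ) + (if N + 1 ∈ C then (1 : ℝ) else 0) := by
        rw [hfil]; split_ifs
        · rw [Finset.card_insert_of_notMem hnot]; push_cast; ring
        · ring
      have hb := h (N + 1)
      have hN1 : (0 : ℝ) < (N : ℝ) + 1 := by positivity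
      have hN2 : (0 : ℝ) < (N : ℝ) + 2 := by positivity
      have hdiff : ∑ a ∈ C with a ≤ N + 1, (1 : ℝ) / a
          - ((C.filter (fun a => a ≤ N + 1)).card : ℝ) / (((N + 1 : ℕ) : ℝ) + 1)
          = (∑ a ∈ C with a ≤ N, (1 : ℝ) / a
              - ((C.filter (fun a => a ≤ N)).card : ℝ) / (N + 1))
            + ((C.filter (fun a => a ≤ N + 1)).card : ℝ) * (1 / (((N : ℝ) + 1) * (N + 2))) := by
        rw [hsum, hcard]
        push_cast
        have e : (N : ℝ) + 1 + 1 = N + 2 := by ring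
        rw [e]
        split_ifs
        · field_simp; ring
        · field_simp; ring
      rw [hdiff, Finset.sum_Icc_succ_top (by omega)]
      have hmul : ((C.filter (fun a => a ≤ N + 1)).card : ℝ) * (1 / (((N : ℝ) + 1) * (N + 2)))
          ≤ (c0 + ε * (N + 1)) * (1 / (((N : ℝ) + 1) * (N + 2))) := by
        apply mul_le_mul_of_nonneg_right _ (by positivity)
        push_cast at hb
        exact hb
      have hsplit : (c0 + ε * (N + 1)) * (1 / (((N : ℝ) + 1) * (N + 2)))
          = c0 * (1 / ((N : ℝ) + 1) - 1 / (N + 2)) + ε * (1 / ((N : ℝ) + 2)) := by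
        field_simp; ring
      have hle : ε * (1 / ((N : ℝ) + 2)) ≤ ε * (1 / ((N + 1 : ℕ) : ℝ)) := by
        apply mul_le_mul_of_nonneg_left _ hε
        apply one_div_le_one_div_of_le
        · push_cast; positivity
        · push_cast; linarith
      have e2 : (((N + 1 : ℕ) : ℝ) + 1) = (N : ℝ) + 2 := by push_cast; ring
      rw [e2]
      have hmul' := hmul.trans (hsplit.le.trans (add_le_add_right hle _))
      have e4 : c0 * (1 - 1 / ((N : ℝ) + 2)) = c0 * (1 - 1 / ((N : ℝ) + 1))
          + c0 * (1 / ((N : ℝ) + 1) - 1 / ((N : ℝ) + 2)) := by ring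
      have e5 : ε * (∑ k ∈ Finset.Icc 1 N, (1 : ℝ) / (k : ℝ) + 1 / ((N + 1 : ℕ) : ℝ))
          = ε * ∑ k ∈ Finset.Icc 1 N, (1 : ℝ) / (k : ℝ) + ε * (1 / ((N + 1 : ℕ) : ℝ)) := by ring
      rw [e4, e5]
      linarith
  have h1 := key N
  have h2 := h N
  have hN1 : (0 : ℝ) < (N : ℝ) + 1 := by positivity
  have h3 : ((C.filter (fun a => a ≤ N)).card : ℝ) / (N + 1) ≤ c0 * (1 / ((N : ℝ) + 1)) + ε := by
    rw [div_le_iff₀ hN1]
    have : (c0 * (1 / ((N : ℝ) + 1)) + ε) * ((N : ℝ) + 1) = c0 + ε * N + ε := by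
      field_simp
      ring
    rw [this]
    linarith
  have e3 : c0 * (1 - 1 / ((N : ℝ) + 1)) = c0 - c0 * (1 / ((N : ℝ) + 1)) := by ring
  rw [e3] at h1
  linarith

end Pool.Agent.Helper742
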